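import Pool.Agent.Work.MP_a2bf38_gt.TFlow

/-!
# Calculus of directional derivatives of smooth functions on open sets
-/

open scoped ContDiff
open Set

namespace Pool.Agent.ToricKRF

variable {V : Type*} [NormedAddCommGroup V] [NormedSpace ℝ V]

theorem diffAt_of_contDiffOn {f : V → ℝ} {U : Set V} (hU : IsOpen U) (hf : ContDiffOn ℝ ∞ f U)
    {p : V} (hp : p ∈ U) : DifferentiableAt ℝ f p :=
  (hf.differentiableOn (by simp)).differentiableAt (hU.mem_nhds hp)

theorem contDiffOn_D {f : V → ℝ} {U : Set V} (hU : IsOpen U) (hf : ContDiffOn ℝ ∞ f U) (w : V) :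
    ContDiffOn ℝ ∞ (D w f) U := by
  have h1 : ContDiffOn ℝ ∞ (fderiv ℝ f) U :=
    ((contDiffOn_infty_iff_fderiv_of_isOpen hU).1 hf).2
  exact h1.clm_apply contDiffOn_const

theorem D_congr {f g : V → ℝ} {U : Set V} (hU : IsOpen U) (h : EqOn f g U) (w : V) :
    EqOn (D w f) (D w g) U := by
  intro p hp
  have : f =ᶠ[nhds p] g := Filter.eventuallyEq_of_mem (hU.mem_nhds hp) h
  simp only [D]
  rw [this.fderiv_eq]

theorem D_comm {f : V → ℝ} {U : Set V} (hU : IsOpen U) (hf : ContDiffOn ℝ ∞ f U) {p : V}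
    (hp : p ∈ U) (w w' : V) : D w (D w' f) p = D w' (D w f) p := by
  have hfa : ContDiffAt ℝ ∞ f p := hf.contDiffAt (hU.mem_nhds hp)
  have hs : IsSymmSndFDerivAt ℝ f p := by
    apply hfa.isSymmSndFDerivAt
    rw [minSmoothness_of_isRCLikeNormedField]
    exact WithTop.coe_le_coe.2 le_top
  have h1 : ContDiffOn ℝ ∞ (fderiv ℝ f) U :=
    ((contDiffOn_infty_iff_fderiv_of_isOpen hU).1 hf).2
  have h2 : DifferentiableAt ℝ (fderiv ℝ f) p :=
    (h1.differentiableOn (by simp)).differentiableAt (hU.mem_nhds hp)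
  have key : ∀ a b : V, D a (D b f) p = fderiv ℝ (fderiv ℝ f) p a b := by
    intro a b
    change fderiv ℝ (fun y => (fderiv ℝ f y) b) p a = _
    rw [fderiv_clm_apply h2 (differentiableAt_const b)]
    simp
  rw [key, key]
  exact hs w w'

theorem D_add {f g : V → ℝ} {p : V} (hf : DifferentiableAt ℝ f p) (hg : DifferentiableAt ℝ g p)
    (w : V) : D w (fun q => f q + g q) p = D w f p + D w g p := by
  simp only [D]
  rw [fderiv_fun_add hf hg]
  simp

theorem D_sub {f g : V → ℝ} {p : V} (hf : DifferentiableAt ℝ f p) (hg : DifferentiableAt ℝ g p)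
    (w : V) : D w (fun q => f q - g q) p = D w f p - D w g p := by
  simp only [D]
  rw [fderiv_fun_sub hf hg]
  simp

theorem D_mul {f g : V → ℝ} {p : V} (hf : DifferentiableAt ℝ f p) (hg : DifferentiableAt ℝ g p)
    (w : V) : D w (fun q => f q * g q) p = f p * D w g p + g p * D w f p := by
  simp only [D]
  rw [fderiv_fun_mul hf hg]
  simp

theorem D_const_mul {f : V → ℝ} {p : V} (c : ℝ) (hf : DifferentiableAt ℝ f p) (w : V) :
    D w (fun q => c * f q) p = c * D w f p := by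
  simp only [D]
  rw [fderiv_const_mul hf c]
  simp

theorem D_const (c : ℝ) (w : V) (p : V) : D w (fun _ : V => c) p = 0 := by
  simp [D]

theorem D_sum {κ : Type*} (s : Finset κ) {f : κ → V → ℝ} {p : V}
    (hf : ∀ k ∈ s, DifferentiableAt ℝ (f k) p) (w : V) :
    D w (fun q => ∑ k ∈ s, f k q) p = ∑ k ∈ s, D w (f k) p := by
  simp only [D]
  rw [fderiv_fun_sum hf]
  simp

/-- Chain rule for a real function of `f`. -/
theorem D_comp {f : V → ℝ} {h : ℝ → ℝ} {h' : ℝ} {p : V} (hf : DifferentiableAt ℝ f p)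
    (hh : HasDerivAt h h' (f p)) (w : V) : D w (fun q => h (f q)) p = h' * D w f p := by
  simp only [D]
  have := (hh.hasFDerivAt.comp p hf.hasFDerivAt).fderiv
  have h2 : (fun q => h (f q)) = h ∘ f := rfl
  rw [h2, this]
  simp [mul_comm]

theorem D_dir_add (f : V → ℝ) (p v w : V) : D (v + w) f p = D v f p + D w f p := by
  simp [D]

theorem D_dir_smul (f : V → ℝ) (p : V) (c : ℝ) (w : V) : D (c • w) f p = c * D w f p := by
  simp [D]

theorem D_dir_neg (f : V → ℝ) (p w : V) : D (-w) f p = -D w f p := by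
  simp [D]

theorem D_dir_zero (f : V → ℝ) (p : V) : D 0 f p = 0 := by
  simp [D]

theorem D_dir_sum {κ : Type*} (s : Finset κ) (f : V → ℝ) (p : V) (c : κ → ℝ) (w : κ → V) :
    D (∑ k ∈ s, c k • w k) f p = ∑ k ∈ s, c k * D (w k) f p := by
  simp [D]

/-- A space direction as a combination. -/
theorem D_dir_sum_snd {n : ℕ} {κ : Type*} (s : Finset κ) (f : ℝ × (Fin n → ℝ) → ℝ)
    (p : ℝ × (Fin n → ℝ)) (c : κ → ℝ) (w : κ → Fin n → ℝ) :
    D (0, ∑ k ∈ s, c k • w k) f p = ∑ k ∈ s, c k * D (0, w k) f p := by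
  have : ((0 : ℝ), ∑ k ∈ s, c k • w k) = ∑ k ∈ s, c k • ((0 : ℝ), w k) := by
    ext1
    · simp [Prod.fst_sum]
    · simp [Prod.snd_sum]
  rw [this, D_dir_sum]

/-- Derivative along a line. -/
theorem hasDerivAt_line {f : V → ℝ} {p w : V} {s : ℝ} (hf : DifferentiableAt ℝ f (p + s • w)) :
    HasDerivAt (fun r : ℝ => f (p + r • w)) (D w f (p + s • w)) s := by
  have h1 : HasDerivAt (fun r : ℝ => p + r • w) w s := by
    simpa using ((hasDerivAt_id s).smul_const w).const_add p
  exact hf.hasFDerivAt.comp_hasDerivAt s h1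

/-- Chain rule with a linear map and a translation. -/
theorem D_comp_linear {V' : Type*} [NormedAddCommGroup V'] [NormedSpace ℝ V'] (A : V' →L[ℝ] V)
    {f : V → ℝ} {p : V'} (hf : DifferentiableAt ℝ f (A p)) (w : V') :
    D w (fun q => f (A q)) p = D (A w) f (A p) := by
  simp only [D]
  have h2 : (fun q => f (A q)) = f ∘ A := rfl
  rw [h2, fderiv_comp p hf A.differentiableAt]
  simp

/-- Space derivatives at a fixed time are derivatives of the time slice. -/
theorem D_slice {n : ℕ} {f : ℝ × (Fin n → ℝ) → ℝ} {t : ℝ} {x : Fin n → ℝ}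
    (hf : DifferentiableAt ℝ f (t, x)) (w : Fin n → ℝ) :
    D (0, w) f (t, x) = D w (fun y => f (t, y)) x := by
  simp only [D]
  have h1 : HasFDerivAt (fun y : Fin n → ℝ => ((t, y) : ℝ × (Fin n → ℝ)))
      (ContinuousLinearMap.inr ℝ ℝ (Fin n → ℝ)) x := by
    exact (hasFDerivAt_const t x).prodMk (hasFDerivAt_id (𝕜 := ℝ) x)
  have h2 := (hf.hasFDerivAt.comp x h1).fderiv
  have h4 : (fun y => f (t, y)) = f ∘ fun y => (t, y) := rfl
  rw [h4, h2]
  simp

end Pool.Agent.ToricKRF
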