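import Pool.Agent.Work.MP_a2bf38_gt.Calc

/-!
# The parabolic maximum principle on `[0, t'] × E`, with a barrier
-/

namespace Pool.Agent.ToricKRF

open scoped ContDiff
open Set Filter Topology

section Line

variable {F : Type*} [NormedAddCommGroup F] [NormedSpace ℝ F]

theorem hasDerivAt_line' (p v : F) (s : ℝ) : HasDerivAt (fun s : ℝ => p + s • v) v s := by
  simpa using ((hasDerivAt_id s).smul_const v).const_add p

theorem line_facts {u : F → ℝ} {p : F} (v : F) (hu : ContDiffAt ℝ 2 u p) :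
    ContDiffAt ℝ 2 (fun s : ℝ => u (p + s • v)) 0 ∧
    deriv (fun s : ℝ => u (p + s • v)) 0 = fderiv ℝ u p v ∧
    deriv (deriv (fun s : ℝ => u (p + s • v))) 0 = fderiv ℝ (fun q => fderiv ℝ u q v) p v := by
  have hline : ContDiffAt ℝ 2 (fun s : ℝ => p + s • v) 0 := by fun_prop
  have hu0 : ContDiffAt ℝ 2 u (p + (0:ℝ) • v) := by simpa using hu
  have hev : ∀ᶠ q in 𝓝 p, DifferentiableAt ℝ u q := by
    have := hu.eventually (by simp)
    exact this.mono fun q hq => hq.differentiableAt (by norm_num)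
  have hct : Tendsto (fun s : ℝ => p + s • v) (𝓝 0) (𝓝 p) := by
    have := (hasDerivAt_line' p v 0).continuousAt.tendsto
    simpa using this
  have hev' : ∀ᶠ s : ℝ in 𝓝 0, HasDerivAt (fun s : ℝ => u (p + s • v))
      (fderiv ℝ u (p + s • v) v) s := by
    filter_upwards [hct.eventually hev] with s hs
    exact hs.hasFDerivAt.comp_hasDerivAt s (hasDerivAt_line' p v s)
  refine ⟨hu0.comp 0 hline, ?_, ?_⟩
  · have := hev'.self_of_nhds.deriv
    simpa using this
  · have h1 : deriv (fun s : ℝ => u (p + s • v)) =ᶠ[𝓝 0] fun s => fderiv ℝ u (p + s • v) v :=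
      hev'.mono fun s hs => hs.deriv
    rw [h1.deriv_eq]
    have hd : DifferentiableAt ℝ (fun q => fderiv ℝ u q v) p := by
      have h2 : ContDiffAt ℝ 1 (fderiv ℝ u) p := hu.fderiv_right (by norm_num)
      exact (h2.differentiableAt (by norm_num)).clm_apply (differentiableAt_const v)
    have hd' : HasFDerivAt (fun q => fderiv ℝ u q v)
        (fderiv ℝ (fun q => fderiv ℝ u q v) p) (p + (0:ℝ) • v) := by
      simpa using hd.hasFDerivAt
    exact (hd'.comp_hasDerivAt (0:ℝ) (hasDerivAt_line' p v 0)).deriv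

end Line

/-- The second derivative is nonpositive at a local maximum. -/
theorem deriv_deriv_nonpos_of_isLocalMax {g : ℝ → ℝ} {a : ℝ} (hg : ContDiffAt ℝ 2 g a)
    (hm : IsLocalMax g a) : deriv (deriv g) a ≤ 0 := by
  by_contra h
  push Not at h
  have h0 : deriv g a = 0 := hm.deriv_eq_zero
  have hmin : IsLocalMin g a := isLocalMin_of_deriv_deriv_pos h h0 hg.continuousAt
  have hc : g =ᶠ[𝓝 a] fun _ => g a := by
    filter_upwards [hm, hmin] with x h1 h2
    exact le_antisymm h1 h2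
  have h1 : deriv g =ᶠ[𝓝 a] fun _ => 0 := by
    filter_upwards [hc.eventuallyEq_nhds] with x hx
    rw [hx.deriv_eq]; simp
  rw [h1.deriv_eq] at h
  simp at h

/-- The derivative is nonnegative at a point where `g` is maximal on the left. -/
theorem deriv_nonneg_of_left_max {g : ℝ → ℝ} {a c : ℝ} (hca : c < a)
    (hg : DifferentiableAt ℝ g a) (hm : ∀ s ∈ Ioc c a, g s ≤ g a) : 0 ≤ deriv g a := by
  have h1 := hg.hasDerivAt.hasDerivWithinAt (s := Iio a)
  rw [hasDerivWithinAt_iff_tendsto_slope' (by simp)] at h1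
  refine ge_of_tendsto h1 ?_
  have : ∀ᶠ s in 𝓝[<] a, s ∈ Ioo c a := Ioo_mem_nhdsLT hca
  filter_upwards [this] with s hs
  rw [slope_def_field]
  have h2 := hm s ⟨hs.1, hs.2.le⟩
  apply div_nonneg_of_nonpos <;> linarith [hs.2]

variable {E : Type*} [NormedAddCommGroup E] [NormedSpace ℝ E] [ProperSpace E]

/-- **Maximum principle** on the slab `[0, t'] × E`. -/
theorem max_principle_gen {u : ℝ × E → ℝ} {U : Set (ℝ × E)} (hU : IsOpen U) {t' K : ℝ}
    (hsub : Icc 0 t' ×ˢ univ ⊆ U) (hu : ContDiffOn ℝ 2 u U)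
    (hb : ∀ c, K < c → Bornology.IsBounded {p : ℝ × E | p ∈ Icc 0 t' ×ˢ univ ∧ c ≤ u p})
    (h0 : ∀ x, u (0, x) ≤ K)
    (hcrit : ∀ t ∈ Ioc 0 t', ∀ x, (∀ w, fderiv ℝ u (t, x) (0, w) = 0) →
      (∀ w, fderiv ℝ (fun q => fderiv ℝ u q (0, w)) (t, x) (0, w) ≤ 0) →
      0 ≤ fderiv ℝ u (t, x) (1, 0) → u (t, x) ≤ K) :
    ∀ t ∈ Icc 0 t', ∀ x, u (t, x) ≤ K := by
  by_contra hcon
  push Not at hcon
  obtain ⟨t₁, ht₁, x₁, hx₁⟩ := hcon
  set S : Set (ℝ × E) := {p : ℝ × E | p ∈ Icc 0 t' ×ˢ univ ∧ u (t₁, x₁) ≤ u p} with hS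
  have hclosed : IsClosed S := by
    have hcl : IsClosed (Icc (0:ℝ) t' ×ˢ (univ : Set E)) := isClosed_Icc.prod isClosed_univ
    have hcont : ContinuousOn u (Icc (0:ℝ) t' ×ˢ (univ : Set E)) := hu.continuousOn.mono hsub
    have := hcont.preimage_isClosed_of_isClosed hcl (isClosed_Ici (a := u (t₁, x₁)))
    have hEq : S = Icc (0:ℝ) t' ×ˢ (univ : Set E) ∩ u ⁻¹' Ici (u (t₁, x₁)) := rfl
    rw [hEq]; exact this
  have hcomp : IsCompact S := Metric.isCompact_of_isClosed_isBounded hclosed (hb _ hx₁)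
  have hne : S.Nonempty := ⟨(t₁, x₁), ⟨⟨ht₁, mem_univ _⟩, le_rfl⟩⟩
  obtain ⟨p, hpS, hpmax⟩ := hcomp.exists_isMaxOn hne
    (hu.continuousOn.mono fun q hq => hsub hq.1)
  obtain ⟨t, x⟩ := p
  have htI : t ∈ Icc 0 t' := hpS.1.1
  have hbig : K < u (t, x) := lt_of_lt_of_le hx₁ hpS.2
  have hmax : ∀ s ∈ Icc 0 t', ∀ y, u (s, y) ≤ u (t, x) := by
    intro s hs y
    by_cases h : u (t₁, x₁) ≤ u (s, y)
    · exact hpmax (show (s, y) ∈ S from ⟨⟨hs, mem_univ _⟩, h⟩)
    · push Not at h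
      exact h.le.trans hpS.2
  have htpos : 0 < t := by
    rcases htI.1.eq_or_lt with h | h
    · exfalso
      rw [← h] at hbig
      exact absurd (h0 x) (not_le.mpr hbig)
    · exact h
  have hpU : (t, x) ∈ U := hsub ⟨htI, mem_univ _⟩
  have hcd : ContDiffAt ℝ 2 u (t, x) := hu.contDiffAt (hU.mem_nhds hpU)
  refine absurd (hcrit t ⟨htpos, htI.2⟩ x ?_ ?_ ?_) (not_le.mpr hbig)
  · intro w
    obtain ⟨h1, h2, h3⟩ := line_facts ((0 : ℝ), w) hcd
    rw [← h2]
    apply IsLocalMax.deriv_eq_zero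
    refine Eventually.of_forall fun s => ?_
    simpa using hmax t htI (x + s • w)
  · intro w
    obtain ⟨h1, h2, h3⟩ := line_facts ((0 : ℝ), w) hcd
    rw [← h3]
    apply deriv_deriv_nonpos_of_isLocalMax h1
    refine Eventually.of_forall fun s => ?_
    simpa using hmax t htI (x + s • w)
  · obtain ⟨h1, h2, h3⟩ := line_facts ((1 : ℝ), (0 : E)) hcd
    rw [← h2]
    apply deriv_nonneg_of_left_max (c := -t) (by linarith) (h1.differentiableAt (by norm_num))
    intro s hs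
    have : t + s ∈ Icc 0 t' := ⟨by linarith [hs.1], by linarith [hs.2, htI.2]⟩
    simpa using hmax (t + s) this x

/-- **Maximum principle with a barrier** `b`. -/
theorem max_principle_barrier_gen {u : ℝ × E → ℝ} {U : Set (ℝ × E)} (hU : IsOpen U) {t' K : ℝ}
    (hsub : Icc 0 t' ×ˢ univ ⊆ U) (hu : ContDiffOn ℝ 2 u U)
    {b : E → ℝ} (hb : ContDiff ℝ 2 b) (hb0 : ∀ x, 0 ≤ b x)
    (hbp : Tendsto b (cocompact E) atTop)
    (hbd : ∃ M, ∀ t ∈ Icc 0 t', ∀ x, u (t, x) ≤ M)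
    (h0 : ∀ x, u (0, x) ≤ K)
    (hcrit : ∃ C, ∀ ε ∈ Ioc (0:ℝ) 1, ∀ t ∈ Ioc 0 t', ∀ x,
      (∀ w, fderiv ℝ u (t, x) (0, w) = ε * fderiv ℝ b x w) →
      (∀ w, fderiv ℝ (fun q => fderiv ℝ u q (0, w)) (t, x) (0, w) ≤
        ε * fderiv ℝ (fun y => fderiv ℝ b y w) x w) →
      K < u (t, x) → fderiv ℝ u (t, x) (1, 0) ≤ C * ε) :
    ∀ t ∈ Icc 0 t', ∀ x, u (t, x) ≤ K := by
  obtain ⟨M, hM⟩ := hbd
  obtain ⟨C, hC⟩ := hcrit
  set C' := max C 0 + 1 with hC'
  have hC'1 : 1 ≤ C' := by simp [hC']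
  have hCC' : C < C' := by
    have := le_max_left C 0
    simp only [hC']; linarith
  -- the barrier function
  have key : ∀ ε ∈ Ioc (0:ℝ) 1, ∀ t ∈ Icc 0 t', ∀ x,
      u (t, x) - ε * b x - C' * ε * t ≤ K := by
    intro ε hε
    set v : ℝ × E → ℝ := fun q => u q - ε * b q.2 - C' * ε * q.1 with hv
    have hbq : ContDiff ℝ 2 (fun q : ℝ × E => b q.2) := hb.comp contDiff_snd
    have hvU : ContDiffOn ℝ 2 v U := by
      apply (hu.sub (contDiff_const.mul hbq).contDiffOn).sub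
      exact (contDiff_const.mul contDiff_fst).contDiffOn
    have hbfd : ∀ q : ℝ × E, ∀ w : ℝ × E, fderiv ℝ (fun q : ℝ × E => b q.2) q w
        = fderiv ℝ b q.2 w.2 := by
      intro q w
      have h1 : HasFDerivAt (fun q : ℝ × E => b q.2)
          ((fderiv ℝ b q.2).comp (ContinuousLinearMap.snd ℝ ℝ E)) q :=
        ((hb.differentiable (by norm_num) q.2).hasFDerivAt).comp q hasFDerivAt_snd
      rw [h1.fderiv]; rfl
    have hvfd : ∀ q ∈ U, ∀ w : ℝ × E, fderiv ℝ v q w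
        = fderiv ℝ u q w - ε * fderiv ℝ b q.2 w.2 - C' * ε * w.1 := by
      intro q hq w
      have h1 : HasFDerivAt u (fderiv ℝ u q) q :=
        ((hu.contDiffAt (hU.mem_nhds hq)).differentiableAt (by norm_num)).hasFDerivAt
      have h2 : HasFDerivAt (fun q : ℝ × E => b q.2) (fderiv ℝ (fun q : ℝ × E => b q.2) q) q :=
        (hbq.differentiable (by norm_num) q).hasFDerivAt
      have h3 : HasFDerivAt (fun q : ℝ × E => q.1) (ContinuousLinearMap.fst ℝ ℝ E) q :=
        hasFDerivAt_fst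
      have h4 := (h1.sub (h2.const_mul ε)).sub (h3.const_mul (C' * ε))
      have h5 : HasFDerivAt v
          (fderiv ℝ u q - ε • fderiv ℝ (fun q : ℝ × E => b q.2) q
            - (C' * ε) • ContinuousLinearMap.fst ℝ ℝ E) q := h4
      rw [h5.fderiv]
      simp [hbfd]
    have := max_principle_gen hU hsub hvU (K := K) ?_ ?_ ?_
    · intro t ht x
      exact this t ht x
    · intro c hc
      -- superlevel sets are bounded
      have hev : ∀ᶠ x in cocompact E, (M - c + |C' * ε * t'|) / ε + 1 ≤ b x :=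
        hbp.eventually_ge_atTop _
      obtain ⟨R, hR⟩ : ∃ R, ∀ x, R < ‖x‖ → (M - c + |C' * ε * t'|) / ε + 1 ≤ b x := by
        rw [← Metric.cobounded_eq_cocompact] at hev
        have := (Metric.hasBasis_cobounded_compl_closedBall (0 : E)).eventually_iff.mp hev
        obtain ⟨R, -, hR⟩ := this
        exact ⟨R, fun x hx => hR (by simpa using hx)⟩
      refine ((Metric.isBounded_Icc (0:ℝ) t').prod (Metric.isBounded_closedBall
        (x := (0:E)) (r := R))).subset ?_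
      rintro ⟨t, x⟩ ⟨⟨ht, -⟩, hp⟩
      refine ⟨ht, ?_⟩
      simp only [Metric.mem_closedBall, dist_zero_right]
      by_contra hx
      push Not at hx
      have h1 := hR x hx
      have h2 := hM t ht x
      have h3 : (M - c + |C' * ε * t'|) / ε * ε = M - c + |C' * ε * t'| :=
        div_mul_cancel₀ _ hε.1.ne'
      have h4 : 0 ≤ C' * ε * t := by
        have := ht.1; have := hε.1; positivity
      have h5 : c ≤ u (t, x) - ε * b x - C' * ε * t := hp
      have h6 := mul_le_mul_of_nonneg_left h1 hε.1.le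
      have h7 : 0 ≤ |C' * ε * t'| := abs_nonneg _
      nlinarith [hε.1]
    · intro x
      have := h0 x
      have h1 := hb0 x
      have h2 : 0 ≤ ε * b x := mul_nonneg hε.1.le h1
      simp only [hv, mul_zero, sub_zero]
      linarith
    · intro t ht x hc1 hc2 hc3
      have hpU : (t, x) ∈ U := hsub ⟨⟨ht.1.le, ht.2⟩, mem_univ _⟩
      by_contra hK
      push Not at hK
      have hKu : K < u (t, x) := by
        have h1 : 0 ≤ ε * b x := mul_nonneg hε.1.le (hb0 x)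
        have h2 : 0 ≤ C' * ε * t := by
          have := ht.1; have := hε.1; positivity
        simp only [hv] at hK
        linarith
      have g1 : ∀ w, fderiv ℝ u (t, x) (0, w) = ε * fderiv ℝ b x w := by
        intro w
        have := hc1 w
        rw [hvfd _ hpU] at this
        simp only [mul_zero, sub_zero] at this
        linarith
      have g2 : ∀ w, fderiv ℝ (fun q => fderiv ℝ u q (0, w)) (t, x) (0, w) ≤
          ε * fderiv ℝ (fun y => fderiv ℝ b y w) x w := by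
        intro w
        have h1 := hc2 w
        have hev : (fun q => fderiv ℝ v q (0, w)) =ᶠ[𝓝 (t, x)]
            fun q => fderiv ℝ u q (0, w) - ε * fderiv ℝ b q.2 w := by
          filter_upwards [hU.mem_nhds hpU] with q hq
          rw [hvfd q hq]; simp
        rw [hev.fderiv_eq] at h1
        have hcd : ContDiffAt ℝ 2 u (t, x) := hu.contDiffAt (hU.mem_nhds hpU)
        have hd : DifferentiableAt ℝ (fun q => fderiv ℝ u q (0, w)) (t, x) := by
          have h2 : ContDiffAt ℝ 1 (fderiv ℝ u) (t, x) := hcd.fderiv_right (by norm_num)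
          exact (h2.differentiableAt (by norm_num)).clm_apply (differentiableAt_const _)
        have hdb : DifferentiableAt ℝ (fun y => fderiv ℝ b y w) x := by
          have h2 : ContDiffAt ℝ 1 (fderiv ℝ b) x := hb.contDiffAt.fderiv_right (by norm_num)
          exact (h2.differentiableAt (by norm_num)).clm_apply (differentiableAt_const _)
        have h3 : HasFDerivAt (fun q : ℝ × E => fderiv ℝ b q.2 w)
            ((fderiv ℝ (fun y => fderiv ℝ b y w) x).comp (ContinuousLinearMap.snd ℝ ℝ E))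
            (t, x) :=
          HasFDerivAt.comp (t, x) (g := fun y => fderiv ℝ b y w) hdb.hasFDerivAt
            hasFDerivAt_snd
        have h4 := (hd.hasFDerivAt.sub (h3.const_mul ε)).fderiv
        rw [show (fun q : ℝ × E => fderiv ℝ u q (0, w) - ε * fderiv ℝ b q.2 w) =
          (fun q => fderiv ℝ u q (0, w)) - (fun q => ε * fderiv ℝ b q.2 w) from rfl, h4] at h1
        simp at h1
        linarith
      have g3 := hC ε hε t ht x g1 g2 hKu
      have g4 := hc3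
      rw [hvfd _ hpU] at g4
      simp only [map_zero, mul_zero, sub_zero, mul_one] at g4
      have := hε.1
      nlinarith
  intro t ht x
  -- let ε → 0
  have hlim : Tendsto (fun ε : ℝ => u (t, x) - ε * b x - C' * ε * t) (𝓝[>] 0)
      (𝓝 (u (t, x))) := by
    have : Tendsto (fun ε : ℝ => u (t, x) - ε * b x - C' * ε * t) (𝓝 0)
        (𝓝 (u (t, x) - 0 * b x - C' * 0 * t)) := by
      apply Continuous.tendsto; fun_prop
    simp only [zero_mul, sub_zero, mul_zero] at this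
    exact this.mono_left nhdsWithin_le_nhds
  refine le_of_tendsto hlim ?_
  have : Ioc (0:ℝ) 1 ∈ 𝓝[>] (0:ℝ) := Ioc_mem_nhdsGT one_pos
  filter_upwards [this] with ε hε
  exact key ε hε t ht x

theorem max_principle {n : ℕ} {t' : ℝ} (_ht' : 0 < t') {u : ℝ × (Fin n → ℝ) → ℝ}
    {U : Set (ℝ × (Fin n → ℝ))} (hU : IsOpen U) (hsub : Icc 0 t' ×ˢ univ ⊆ U)
    (hu : ContDiffOn ℝ ∞ u U)
    (hproper : ∀ c : ℝ, ∃ R : ℝ, ∀ t ∈ Icc 0 t', ∀ x, c ≤ u (t, x) → ‖x‖ ≤ R)
    (K : ℝ) (h0 : ∀ x, u (0, x) ≤ K)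
    (hint : ∀ t ∈ Ioc 0 t', ∀ x : Fin n → ℝ, (∀ w, D (0, w) u (t, x) = 0) →
      (∀ w, D (0, w) (D (0, w) u) (t, x) ≤ 0) → 0 ≤ D (1, 0) u (t, x) → u (t, x) ≤ K) :
    ∀ t ∈ Icc 0 t', ∀ x, u (t, x) ≤ K := by
  refine max_principle_gen hU hsub (hu.of_le (by norm_cast)) ?_ h0 ?_
  · intro c _
    obtain ⟨R, hR⟩ := hproper c
    refine ((Metric.isBounded_Icc (0:ℝ) t').prod (Metric.isBounded_closedBall
        (x := (0 : Fin n → ℝ)) (r := R))).subset ?_
    rintro ⟨t, x⟩ ⟨⟨ht, -⟩, hp⟩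
    exact ⟨ht, by simpa using hR t ht x hp⟩
  · intro t ht x h1 h2 h3
    exact hint t ht x h1 h2 h3

theorem max_principle_barrier {n : ℕ} {t' : ℝ} (_ht' : 0 < t') {u : ℝ × (Fin n → ℝ) → ℝ}
    {U : Set (ℝ × (Fin n → ℝ))} (hU : IsOpen U) (hsub : Icc 0 t' ×ˢ univ ⊆ U)
    (hu : ContDiffOn ℝ ∞ u U) (hbdd : ∃ C : ℝ, ∀ t ∈ Icc 0 t', ∀ x, u (t, x) ≤ C)
    {b : (Fin n → ℝ) → ℝ} (hb : ContDiff ℝ ∞ b) (hb0 : ∀ x, 0 ≤ b x)
    (hbp : ∀ c : ℝ, ∃ R : ℝ, ∀ x, b x ≤ c → ‖x‖ ≤ R)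
    (K : ℝ) (h0 : ∀ x, u (0, x) ≤ K)
    (hint : ∃ C : ℝ, ∀ ε ∈ Ioc (0 : ℝ) 1, ∀ t ∈ Ioc 0 t', ∀ x : Fin n → ℝ,
      (∀ w, D (0, w) u (t, x) = ε * D w b x) →
      (∀ w, D (0, w) (D (0, w) u) (t, x) ≤ ε * D w (D w b) x) → K < u (t, x) →
      D (1, 0) u (t, x) ≤ C * ε) :
    ∀ t ∈ Icc 0 t', ∀ x, u (t, x) ≤ K := by
  refine max_principle_barrier_gen hU hsub (hu.of_le (by norm_cast))
    (hb.of_le (by norm_cast)) hb0 ?_ hbdd h0 ?_
  · rw [tendsto_atTop]
    intro c
    obtain ⟨R, hR⟩ := hbp c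
    rw [← Metric.cobounded_eq_cocompact]
    refine (Metric.hasBasis_cobounded_compl_closedBall (0 : Fin n → ℝ)).eventually_iff.mpr
      ⟨R, trivial, fun x hx => ?_⟩
    by_contra h
    push Not at h
    have := hR x h.le
    simp at hx
    linarith
  · obtain ⟨C, hC⟩ := hint
    exact ⟨C, fun ε hε t ht x h1 h2 h3 => hC ε hε t ht x h1 h2 h3⟩

end Pool.Agent.ToricKRF
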