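import Pool.Agent.Work.MP_a2bf38_gt.Calc

/-!
# Calculus of the heat operator `L = D_{(1,0)} - ∑ c, D_{(0,W c)} D_{(0,W c)}` at a point
-/

namespace Pool.Agent.ToricKRF.LC

open Set Filter Topology

variable {F : Type*} [NormedAddCommGroup F] [NormedSpace ℝ F]

theorem D_def (w : F) (f : F → ℝ) (p : F) : D w f p = fderiv ℝ f p w := rfl

variable {f g : F → ℝ} {p : F}

theorem D_congr (v : F) (h : f =ᶠ[𝓝 p] g) : D v f p = D v g p := by
  simp only [D, h.fderiv_eq]

theorem D_congr_ev (v : F) (h : f =ᶠ[𝓝 p] g) : D v f =ᶠ[𝓝 p] D v g := by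
  filter_upwards [h.eventuallyEq_nhds] with q hq
  exact D_congr v hq

theorem D_D_congr (v w : F) (h : f =ᶠ[𝓝 p] g) : D v (D w f) p = D v (D w g) p :=
  D_congr v (D_congr_ev w h)

theorem contDiffAt_D {n m : WithTop ℕ∞} (w : F) (hf : ContDiffAt ℝ n f p) (hmn : m + 1 ≤ n) :
    ContDiffAt ℝ m (D w f) p :=
  (hf.fderiv_right hmn).clm_apply contDiffAt_const

theorem D_add (v : F) (hf : DifferentiableAt ℝ f p) (hg : DifferentiableAt ℝ g p) :
    D v (fun q => f q + g q) p = D v f p + D v g p := by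
  simp only [D]
  rw [(hf.hasFDerivAt.fun_add hg.hasFDerivAt).fderiv]; simp

theorem D_sub (v : F) (hf : DifferentiableAt ℝ f p) (hg : DifferentiableAt ℝ g p) :
    D v (fun q => f q - g q) p = D v f p - D v g p := by
  simp only [D]
  rw [(hf.hasFDerivAt.fun_sub hg.hasFDerivAt).fderiv]; simp

theorem D_const_mul (v : F) (c : ℝ) (hf : DifferentiableAt ℝ f p) :
    D v (fun q => c * f q) p = c * D v f p := by
  simp only [D]
  rw [(hf.hasFDerivAt.const_mul c).fderiv]; simp

theorem D_mul (v : F) (hf : DifferentiableAt ℝ f p) (hg : DifferentiableAt ℝ g p) :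
    D v (fun q => f q * g q) p = f p * D v g p + g p * D v f p := by
  simp only [D]
  rw [(hf.hasFDerivAt.fun_mul hg.hasFDerivAt).fderiv]; simp

theorem D_log (v : F) (hf : DifferentiableAt ℝ f p) (h0 : f p ≠ 0) :
    D v (fun q => Real.log (f q)) p = D v f p / f p := by
  simp only [D]
  rw [(hf.hasFDerivAt.log h0).fderiv]; simp; field_simp

theorem evDiff (hf : ContDiffAt ℝ 2 f p) : ∀ᶠ q in 𝓝 p, DifferentiableAt ℝ f q := by
  exact (hf.eventually (by simp)).mono fun q hq => hq.differentiableAt (by norm_num)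

theorem D_D_add (v w : F) (hf : ContDiffAt ℝ 2 f p) (hg : ContDiffAt ℝ 2 g p) :
    D v (D w (fun q => f q + g q)) p = D v (D w f) p + D v (D w g) p := by
  have h1 : D w (fun q => f q + g q) =ᶠ[𝓝 p] fun q => D w f q + D w g q := by
    filter_upwards [evDiff hf, evDiff hg]
      with q h1 h2
    exact D_add w h1 h2
  rw [D_congr v h1, D_add v]
  · exact (contDiffAt_D w hf (m := 1) (by norm_num)).differentiableAt (by norm_num)
  · exact (contDiffAt_D w hg (m := 1) (by norm_num)).differentiableAt (by norm_num)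

theorem D_D_sub (v w : F) (hf : ContDiffAt ℝ 2 f p) (hg : ContDiffAt ℝ 2 g p) :
    D v (D w (fun q => f q - g q)) p = D v (D w f) p - D v (D w g) p := by
  have h1 : D w (fun q => f q - g q) =ᶠ[𝓝 p] fun q => D w f q - D w g q := by
    filter_upwards [evDiff hf, evDiff hg]
      with q h1 h2
    exact D_sub w h1 h2
  rw [D_congr v h1, D_sub v]
  · exact (contDiffAt_D w hf (m := 1) (by norm_num)).differentiableAt (by norm_num)
  · exact (contDiffAt_D w hg (m := 1) (by norm_num)).differentiableAt (by norm_num)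

theorem D_D_const_mul (v w : F) (c : ℝ) (hf : ContDiffAt ℝ 2 f p) :
    D v (D w (fun q => c * f q)) p = c * D v (D w f) p := by
  have h1 : D w (fun q => c * f q) =ᶠ[𝓝 p] fun q => c * D w f q := by
    filter_upwards [evDiff hf] with q h1
    exact D_const_mul w c h1
  rw [D_congr v h1, D_const_mul v]
  exact (contDiffAt_D w hf (m := 1) (by norm_num)).differentiableAt (by norm_num)

theorem D_D_mul (v w : F) (hf : ContDiffAt ℝ 2 f p) (hg : ContDiffAt ℝ 2 g p) :
    D v (D w (fun q => f q * g q)) p = f p * D v (D w g) p + D v f p * D w g p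
      + (g p * D v (D w f) p + D v g p * D w f p) := by
  have h1 : D w (fun q => f q * g q) =ᶠ[𝓝 p] fun q => f q * D w g q + g q * D w f q := by
    filter_upwards [evDiff hf, evDiff hg]
      with q h1 h2
    exact D_mul w h1 h2
  have df : DifferentiableAt ℝ f p := hf.differentiableAt (by norm_num)
  have dg : DifferentiableAt ℝ g p := hg.differentiableAt (by norm_num)
  have dDf : DifferentiableAt ℝ (D w f) p :=
    (contDiffAt_D w hf (m := 1) (by norm_num)).differentiableAt (by norm_num)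
  have dDg : DifferentiableAt ℝ (D w g) p :=
    (contDiffAt_D w hg (m := 1) (by norm_num)).differentiableAt (by norm_num)
  rw [D_congr v h1, D_add v (df.fun_mul dDg) (dg.fun_mul dDf), D_mul v df dDg, D_mul v dg dDf]
  ring

theorem D_D_log (v w : F) (hf : ContDiffAt ℝ 2 f p) (h0 : f p ≠ 0) :
    D v (D w (fun q => Real.log (f q))) p
      = D v (D w f) p / f p - D v f p * D w f p / (f p) ^ 2 := by
  -- differentiate `f * D (log f) = D f`
  have hlog : ContDiffAt ℝ 2 (fun q => Real.log (f q)) p := hf.log h0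
  have hne : ∀ᶠ q in 𝓝 p, f q ≠ 0 := hf.continuousAt.eventually_ne h0
  have df : DifferentiableAt ℝ f p := hf.differentiableAt (by norm_num)
  have dDl : DifferentiableAt ℝ (D w (fun q => Real.log (f q))) p :=
    (contDiffAt_D w hlog (m := 1) (by norm_num)).differentiableAt (by norm_num)
  have h1 : (fun q => f q * D w (fun q => Real.log (f q)) q) =ᶠ[𝓝 p] D w f := by
    filter_upwards [evDiff hf, hne] with q h1 h2
    rw [D_log w h1 h2]; field_simp
  have h2 := D_congr v h1
  rw [D_mul v df dDl, D_log w df h0] at h2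
  field_simp
  field_simp at h2
  linarith

/-! ### The operator `L` -/

variable {E : Type*} [NormedAddCommGroup E] [NormedSpace ℝ E] {ι : Type*} [Fintype ι]

/-- heat operator at `p` with spatial frame `W` -/
noncomputable def L (W : ι → E) (f : ℝ × E → ℝ) (p : ℝ × E) : ℝ :=
  D ((1 : ℝ), (0 : E)) f p - ∑ c, D ((0 : ℝ), W c) (D ((0 : ℝ), W c) f) p

/-- gradient product at `p` with spatial frame `W` -/
noncomputable def G (W : ι → E) (f g : ℝ × E → ℝ) (p : ℝ × E) : ℝ :=
  ∑ c, D ((0 : ℝ), W c) f p * D ((0 : ℝ), W c) g p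

variable {W : ι → E} {f g : ℝ × E → ℝ} {p : ℝ × E}

theorem L_congr (h : f =ᶠ[𝓝 p] g) : L W f p = L W g p := by
  unfold L
  rw [D_congr _ h]
  congr 1
  exact Finset.sum_congr rfl fun c _ => D_D_congr _ _ h

theorem G_comm : G W f g p = G W g f p := by
  unfold G; exact Finset.sum_congr rfl fun c _ => mul_comm _ _

theorem L_add (hf : ContDiffAt ℝ 2 f p) (hg : ContDiffAt ℝ 2 g p) :
    L W (fun q => f q + g q) p = L W f p + L W g p := by
  unfold L
  rw [D_add _ (hf.differentiableAt (by norm_num)) (hg.differentiableAt (by norm_num))]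
  simp_rw [D_D_add _ _ hf hg]
  rw [Finset.sum_add_distrib]; ring

theorem L_sub (hf : ContDiffAt ℝ 2 f p) (hg : ContDiffAt ℝ 2 g p) :
    L W (fun q => f q - g q) p = L W f p - L W g p := by
  unfold L
  rw [D_sub _ (hf.differentiableAt (by norm_num)) (hg.differentiableAt (by norm_num))]
  simp_rw [D_D_sub _ _ hf hg]
  rw [Finset.sum_sub_distrib]; ring

theorem L_const_mul (c : ℝ) (hf : ContDiffAt ℝ 2 f p) :
    L W (fun q => c * f q) p = c * L W f p := by
  unfold L
  rw [D_const_mul _ _ (hf.differentiableAt (by norm_num))]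
  simp_rw [D_D_const_mul _ _ _ hf]
  rw [← Finset.mul_sum]; ring

theorem L_mul (hf : ContDiffAt ℝ 2 f p) (hg : ContDiffAt ℝ 2 g p) :
    L W (fun q => f q * g q) p = f p * L W g p + g p * L W f p - 2 * G W f g p := by
  unfold L G
  rw [D_mul _ (hf.differentiableAt (by norm_num)) (hg.differentiableAt (by norm_num))]
  simp_rw [D_D_mul _ _ hf hg]
  have : ∀ c, f p * D ((0:ℝ), W c) (D ((0:ℝ), W c) g) p + D ((0:ℝ), W c) f p * D ((0:ℝ), W c) g p
      + (g p * D ((0:ℝ), W c) (D ((0:ℝ), W c) f) p + D ((0:ℝ), W c) g p * D ((0:ℝ), W c) f p)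
      = f p * D ((0:ℝ), W c) (D ((0:ℝ), W c) g) p + g p * D ((0:ℝ), W c) (D ((0:ℝ), W c) f) p
        + 2 * (D ((0:ℝ), W c) f p * D ((0:ℝ), W c) g p) := by intro c; ring
  simp_rw [this]
  rw [Finset.sum_add_distrib, Finset.sum_add_distrib, ← Finset.mul_sum, ← Finset.mul_sum,
    ← Finset.mul_sum]
  ring

/-- `L` of a sum -/
theorem L_sum {κ : Type*} (s : Finset κ) {f : κ → ℝ × E → ℝ}
    (hf : ∀ k ∈ s, ContDiffAt ℝ 2 (f k) p) :
    L W (fun q => ∑ k ∈ s, f k q) p = ∑ k ∈ s, L W (f k) p := by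
  classical
  induction s using Finset.induction_on with
  | empty =>
    simp only [Finset.sum_empty]
    unfold L
    have h0 : ∀ v : ℝ × E, D v (fun _ : ℝ × E => (0:ℝ)) = fun _ => 0 := by
      intro v; funext q; exact D_const 0 v q
    simp [h0]
  | insert a s ha ih =>
    have h1 : (fun q => ∑ k ∈ insert a s, f k q) = fun q => f a q + ∑ k ∈ s, f k q := by
      funext q; rw [Finset.sum_insert ha]
    rw [h1, L_add (hf a (Finset.mem_insert_self a s))
      (ContDiffAt.sum fun k hk => hf k (Finset.mem_insert_of_mem hk)), Finset.sum_insert ha,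
      ih fun k hk => hf k (Finset.mem_insert_of_mem hk)]

/-- `L` of a linear function -/
theorem L_clm (A : ℝ × E →L[ℝ] ℝ) : L W (fun q => A q) p = A (1, 0) := by
  unfold L
  have h1 : ∀ v : ℝ × E, D v (fun q => A q) = fun _ => A v := by
    intro v; funext q; simp [D]
  have h2 : ∀ (v : ℝ × E) (c : ℝ), D v (fun _ : ℝ × E => c) = fun _ => 0 := by
    intro v c; funext q; exact D_const c v q
  simp [h1, h2]

theorem L_log (hf : ContDiffAt ℝ 2 f p) (h0 : f p ≠ 0) :
    L W (fun q => Real.log (f q)) p = L W f p / f p + G W f f p / (f p) ^ 2 := by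
  unfold L G
  rw [D_log _ (hf.differentiableAt (by norm_num)) h0]
  simp_rw [D_D_log _ _ hf h0]
  rw [Finset.sum_sub_distrib, ← Finset.sum_div, ← Finset.sum_div]
  ring

theorem G_add_left {h : ℝ × E → ℝ} (hf : DifferentiableAt ℝ f p) (hg : DifferentiableAt ℝ g p) :
    G W (fun q => f q + g q) h p = G W f h p + G W g h p := by
  unfold G
  simp_rw [D_add _ hf hg, add_mul]
  rw [Finset.sum_add_distrib]

theorem G_mul_left {h : ℝ × E → ℝ} (hf : DifferentiableAt ℝ f p) (hg : DifferentiableAt ℝ g p) :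
    G W (fun q => f q * g q) h p = f p * G W g h p + g p * G W f h p := by
  unfold G
  simp_rw [D_mul _ hf hg, add_mul]
  rw [Finset.sum_add_distrib, Finset.mul_sum, Finset.mul_sum]
  congr 1 <;> exact Finset.sum_congr rfl fun c _ => by ring

theorem G_self_nonneg : 0 ≤ G W f f p := by
  unfold G; exact Finset.sum_nonneg fun c _ => mul_self_nonneg _

theorem G_congr_left {h : ℝ × E → ℝ} (hfg : f =ᶠ[𝓝 p] g) : G W f h p = G W g h p := by
  unfold G
  exact Finset.sum_congr rfl fun c _ => by rw [D_congr _ hfg]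

/-- **The key inequality**: `V = (F - l)/l²`, `L l = -1`, `|∇l|² = F`, `L F = -S²` with
`|∇F|² ≤ F S²`. -/
theorem L_V_le {l Fn V : ℝ × E → ℝ} {SS : ℝ}
    (hl : ContDiffAt ℝ 2 l p) (hV : ContDiffAt ℝ 2 V p) (hl0 : 0 < l p) (hF0 : 0 < Fn p)
    (hFV : Fn =ᶠ[𝓝 p] fun q => l q + V q * (l q) ^ 2)
    (hLl : L W l p = -1) (hG : G W l l p = Fn p) (hLF : L W Fn p = -SS)
    (hS : G W Fn Fn p ≤ Fn p * SS) :
    L W V p ≤ -2 * (V p) ^ 2 + 2 * G W V l p / Fn p := by
  have dl : DifferentiableAt ℝ l p := hl.differentiableAt (by norm_num)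
  have dV : DifferentiableAt ℝ V p := hV.differentiableAt (by norm_num)
  have hll : ContDiffAt ℝ 2 (fun q => l q * l q) p := hl.mul hl
  have dll : DifferentiableAt ℝ (fun q => l q * l q) p := hll.differentiableAt (by norm_num)
  have hVll : ContDiffAt ℝ 2 (fun q => V q * (l q * l q)) p := hV.mul hll
  have dVll : DifferentiableAt ℝ (fun q => V q * (l q * l q)) p :=
    hVll.differentiableAt (by norm_num)
  have hFV' : Fn =ᶠ[𝓝 p] fun q => l q + V q * (l q * l q) := by
    filter_upwards [hFV] with q hq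
    rw [hq]; ring
  have hFp : Fn p = l p + V p * (l p * l p) := hFV'.self_of_nhds
  -- gradient
  have g1 : ∀ h : ℝ × E → ℝ, G W Fn h p
      = (1 + 2 * V p * l p) * G W l h p + l p * l p * G W V h p := by
    intro h
    rw [G_congr_left hFV', G_add_left dl dVll, G_mul_left dV dll, G_mul_left dl dl]
    ring
  have g2 : G W Fn Fn p = (1 + 2 * V p * l p) ^ 2 * Fn p
      + 2 * (1 + 2 * V p * l p) * (l p * l p) * G W V l p
      + (l p * l p) ^ 2 * G W V V p := by
    rw [g1, G_comm, g1, G_comm (f := V) (g := Fn), g1, hG, G_comm (f := l) (g := V)]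
    ring
  have gVV : 0 ≤ G W V V p := G_self_nonneg
  -- the operator
  have l1 : L W Fn p = -1 + (V p * (l p * (-1) + l p * (-1) - 2 * Fn p)
      + (l p * l p) * L W V p - 2 * (l p * G W V l p + l p * G W V l p)) := by
    rw [L_congr hFV', L_add hl hVll, L_mul hV hll, L_mul hl hl, hLl, hG,
      G_comm (f := V) (g := fun q => l q * l q), G_mul_left dl dl, G_comm (f := l) (g := V)]
  rw [hLF] at l1
  set v := V p
  set a := l p
  set X := G W V l p
  set Y := G W V V p
  set f := Fn p
  set Lv := L W V p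
  have hf : f = a + v * (a * a) := hFp
  rw [g2] at hS
  -- f * SS ≥ ..., SS = 1 - ... 
  have hSS : SS = 1 + 2 * v * (a + f) - a * a * Lv + 4 * a * X := by linarith
  have h1 : (1 + 2 * v * a) ^ 2 * f + 2 * (1 + 2 * v * a) * (a * a) * X ≤ f * SS := by
    have : 0 ≤ (a * a) ^ 2 * Y := by positivity
    linarith
  rw [hSS] at h1
  -- conclude
  have h2 : a * a * (f * Lv) ≤ a * a * (-2 * v ^ 2 * f + 2 * X) := by
    have e : a * a * (-2 * v ^ 2 * f + 2 * X) =
        f * (1 + 2 * v * (a + f) + 4 * a * X)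
          - ((1 + 2 * v * a) ^ 2 * f + 2 * (1 + 2 * v * a) * (a * a) * X) := by
      rw [hf]; ring
    rw [e]; nlinarith
  have h3 : f * Lv ≤ -2 * v ^ 2 * f + 2 * X := le_of_mul_le_mul_left h2 (by positivity)
  rw [← sub_nonneg] at h3 ⊢
  have : -2 * v ^ 2 + 2 * X / f - Lv = (-2 * v ^ 2 * f + 2 * X - f * Lv) / f := by
    field_simp
  rw [this]
  positivity

end Pool.Agent.ToricKRF.LC
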