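import Mathlib

/-!
# Directional derivatives and smooth complete fans
-/

open scoped ContDiff ENNReal

namespace Pool.Agent.ToricKRF

/-- The directional derivative of `f` in the direction `w`. -/
noncomputable def D {V : Type*} [NormedAddCommGroup V] [NormedSpace ℝ V] (w : V) (f : V → ℝ) :
    V → ℝ :=
  fun p => fderiv ℝ f p w

/-- A smooth complete fan in `ℝ^n`, with rays indexed by `ι`; it is the fan of a compact toric
manifold of complex dimension `n`. -/
structure SmoothCompleteFan (n : ℕ) (ι : Type) where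
  /-- The primitive generators of the rays. -/
  ray : ι → Fin n → ℤ
  /-- The maximal cones, each given by the list of the `n` rays that span it. -/
  cones : Set (Fin n → ι)
  /-- The generators of each maximal cone form a basis of `ℤ^n`. -/
  unimodular : ∀ σ ∈ cones, IsUnit (Matrix.of fun k j => ray (σ k) j).det
  /-- Two maximal cones meet in the cone spanned by their common rays. -/
  inter : ∀ σ ∈ cones, ∀ τ ∈ cones, ∀ c d : Fin n → ℝ, (∀ k, 0 ≤ c k) → (∀ k, 0 ≤ d k) →
    (∀ j, ∑ k, c k * (ray (σ k) j : ℝ) = ∑ k, d k * (ray (τ k) j : ℝ)) →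
    ∀ k, 0 < c k → σ k ∈ Set.range τ
  /-- The maximal cones cover `ℝ^n`. -/
  complete : ∀ x : Fin n → ℝ, ∃ σ ∈ cones, ∃ c : Fin n → ℝ, (∀ k, 0 ≤ c k) ∧
    ∀ j, x j = ∑ k, c k * (ray (σ k) j : ℝ)
  /-- Each ray belongs to some maximal cone. -/
  used : ∀ i, ∃ σ ∈ cones, i ∈ Set.range σ

/-- The ray `i` as a real vector. -/
def SmoothCompleteFan.vec {n : ℕ} {ι : Type} (F : SmoothCompleteFan n ι) (i : ι) : Fin n → ℝ :=
  fun j => (F.ray i j : ℝ)

/-- The point `∑ k, y_k ν_{σ k}` of `ℝ^n`, whose logarithmic coordinates in the chart of `σ`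
are `y`. -/
def SmoothCompleteFan.pt {n : ℕ} {ι : Type} (F : SmoothCompleteFan n ι) (σ : Fin n → ι)
    (y : Fin n → ℝ) : Fin n → ℝ :=
  ∑ k, y k • F.vec (σ k)

end Pool.Agent.ToricKRF
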