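import Pool.Agent.Work.MP_a2bf38_gt.Chart1

/-!
# The charts of a toric Kähler family: the affine functions `l_i`
-/

open scoped ContDiff
open Set Filter Topology

namespace Pool.Agent.ToricKRF

variable {n : ℕ} {ι : Type}

namespace ChartData

variable {F : SmoothCompleteFan n ι} {T : ℝ} {φ : ℝ × (Fin n → ℝ) → ℝ} {σ : Fin n → ι}
  (d : ChartData F T φ σ)

/-- The smooth extension of `-v_k(t)`. -/
noncomputable def lam (k : Fin n) (t : ℝ) : ℝ :=
  dx k d.ψ (t, fun _ => 1) - D (0, F.vec (σ k)) φ (t, 0)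

theorem lam_eq {t : ℝ} (ht : t ∈ Ico 0 T) (k : Fin n) : d.lam k t = -d.v t k := by
  have h := d.D_vec ht 0 k
  simp only [F.pt_zero, Pi.zero_apply, Real.exp_zero, one_mul] at h
  simp only [lam, h]
  ring

/-- The values of `D_{ν_i} φ` tend to `v_k` along the ray `-s ν_i`, `i = σ k`. -/
theorem tendsto_v {t : ℝ} (ht : t ∈ Ico 0 T) (k : Fin n) :
    Tendsto (fun s : ℝ => D (0, F.vec (σ k)) φ (t, (-s) • F.vec (σ k))) atTop (𝓝 (d.v t k)) := by
  classical
  have h1 : ∀ s : ℝ, D (0, F.vec (σ k)) φ (t, (-s) • F.vec (σ k)) =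
      d.v t k + Real.exp (-s) * dx k d.ψ (t, Function.update (fun _ => 1) k (Real.exp (-s))) := by
    intro s
    have := d.D_vec ht (Pi.single k (-s)) k
    rw [F.pt_single, Pi.single_eq_same] at this
    rw [this]
    congr 4
    ext j
    by_cases hj : j = k
    · subst hj; simp
    · simp [Pi.single_eq_of_ne hj, Function.update_of_ne hj]
  simp only [h1]
  have h2 : Tendsto (fun s : ℝ => Real.exp (-s)) atTop (𝓝 0) :=
    Real.tendsto_exp_neg_atTop_nhds_zero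
  have h3 : Tendsto (fun s : ℝ => ((t, Function.update (fun _ => (1 : ℝ)) k (Real.exp (-s))) :
      ℝ × (Fin n → ℝ))) atTop (𝓝 (t, Function.update (fun _ => (1 : ℝ)) k 0)) := by
    refine tendsto_const_nhds.prodMk_nhds ?_
    have h6 : Continuous fun s : ℝ => Function.update (fun _ : Fin n => (1 : ℝ)) k s :=
      continuous_const.update k continuous_id
    exact (h6.tendsto (0 : ℝ)).comp h2
  have h4 : ContinuousAt (dx k d.ψ) (t, Function.update (fun _ => (1 : ℝ)) k 0) := by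
    refine (diffAt_of_contDiffOn d.isOpen_W (d.smooth_ψ1 k) (d.mem_W ht ?_)).continuousAt
    intro j
    by_cases hj : j = k
    · subst hj; simp
    · simp [Function.update_of_ne hj]
  have h5 := h2.mul (h4.tendsto.comp h3)
  simpa using h5.const_add (d.v t k)

end ChartData

/-- A chart for each maximal cone, with a common domain for `φ`. -/
structure Atlas (F : SmoothCompleteFan n ι) (T : ℝ) (φ : ℝ × (Fin n → ℝ) → ℝ) where
  U₀ : Set (ℝ × (Fin n → ℝ))
  isOpen_U₀ : IsOpen U₀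
  sub_U₀ : Ico 0 T ×ˢ univ ⊆ U₀
  smooth_φ : ContDiffOn ℝ ∞ φ U₀
  chart : ∀ σ ∈ F.cones, ChartData F T φ σ

theorem exists_atlas {F : SmoothCompleteFan n ι} {T : ℝ} {φ : ℝ × (Fin n → ℝ) → ℝ}
    (h : IsToricKahlerFamily F T φ) : Nonempty (Atlas F T φ) := by
  classical
  obtain ⟨U, hU, hsub, hφ⟩ := h.smooth
  choose c _ using fun σ (hσ : σ ∈ F.cones) => exists_chartData h hU hsub hφ hσ
  exact ⟨⟨U, hU, hsub, hφ, c⟩⟩

namespace Atlas

variable {F : SmoothCompleteFan n ι} {T : ℝ} {φ : ℝ × (Fin n → ℝ) → ℝ} (A : Atlas F T φ)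

/-- A chosen cone through the ray `i`. -/
noncomputable def cone (_ : Atlas F T φ) (i : ι) : Fin n → ι := (F.used i).choose

theorem cone_mem (i : ι) : A.cone i ∈ F.cones := (F.used i).choose_spec.1

/-- The place of `i` in the chosen cone. -/
noncomputable def idx (_ : Atlas F T φ) (i : ι) : Fin n := (F.used i).choose_spec.2.choose

theorem cone_idx (i : ι) : A.cone i (A.idx i) = i := (F.used i).choose_spec.2.choose_spec

/-- The constants `λ_i(t)`. -/
noncomputable def lam (i : ι) (t : ℝ) : ℝ := (A.chart (A.cone i) (A.cone_mem i)).lam (A.idx i) t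

/-- The function `l_i`. -/
noncomputable def l (i : ι) (p : ℝ × (Fin n → ℝ)) : ℝ := D (0, F.vec i) φ p + A.lam i p.1

/-- The constant `v_k(t)` of any chart through `i = σ k` is `-λ_i(t)`. -/
theorem v_eq {σ : Fin n → ι} (hσ : σ ∈ F.cones) {t : ℝ} (ht : t ∈ Ico 0 T) (k : Fin n) :
    (A.chart σ hσ).v t k = -A.lam (σ k) t := by
  have h1 := (A.chart σ hσ).tendsto_v ht k
  have h2 := (A.chart (A.cone (σ k)) (A.cone_mem (σ k))).tendsto_v ht (A.idx (σ k))
  rw [A.cone_idx] at h2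
  have h3 := tendsto_nhds_unique h1 h2
  rw [h3, lam, ChartData.lam_eq _ ht, neg_neg]

/-- `l_i` in a chart through `i`. -/
theorem l_eq {σ : Fin n → ι} (hσ : σ ∈ F.cones) {t : ℝ} (ht : t ∈ Ico 0 T) (k : Fin n)
    (y : Fin n → ℝ) : A.l (σ k) (t, F.pt σ y) =
      Real.exp (y k) * dx k (A.chart σ hσ).ψ (t, fun k => Real.exp (y k)) := by
  rw [l, (A.chart σ hσ).D_vec ht, A.v_eq hσ ht]
  ring

theorem l_pos (i : ι) {t : ℝ} (ht : t ∈ Ico 0 T) (x : Fin n → ℝ) : 0 < A.l i (t, x) := by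
  obtain ⟨σ, hσ, k, rfl⟩ := F.used i
  obtain ⟨y, rfl⟩ := F.exists_pt hσ x
  rw [A.l_eq hσ ht]
  exact mul_pos (Real.exp_pos _) ((A.chart σ hσ).psi_pos ht (fun j => (Real.exp_pos _).le) k)

/-- `l_i` in an arbitrary chart. -/
theorem l_eq' {σ : Fin n → ι} (hσ : σ ∈ F.cones) {t : ℝ} (ht : t ∈ Ico 0 T) {i : ι}
    {a : Fin n → ℝ} (ha : F.pt σ a = F.vec i) (y : Fin n → ℝ) :
    A.l i (t, F.pt σ y) = ∑ k, a k * (-A.lam (σ k) t +
      Real.exp (y k) * dx k (A.chart σ hσ).ψ (t, fun k => Real.exp (y k))) + A.lam i t := by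
  rw [l, ← ha, (A.chart σ hσ).D_φ ht]
  congr 1
  refine Finset.sum_congr rfl fun k _ => ?_
  rw [A.v_eq hσ ht]

/-- The smooth extension of `l_i` to the closed chart. -/
noncomputable def ell {σ : Fin n → ι} (hσ : σ ∈ F.cones) (i : ι) (a : Fin n → ℝ)
    (p : ℝ × (Fin n → ℝ)) : ℝ :=
  ∑ k, a k * (-A.lam (σ k) p.1 + p.2 k * dx k (A.chart σ hσ).ψ p) + A.lam i p.1

theorem l_eq_ell {σ : Fin n → ι} (hσ : σ ∈ F.cones) {t : ℝ} (ht : t ∈ Ico 0 T) {i : ι}
    {a : Fin n → ℝ} (ha : F.pt σ a = F.vec i) (y : Fin n → ℝ) :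
    A.l i (t, F.pt σ y) = A.ell hσ i a (t, fun k => Real.exp (y k)) := by
  rw [A.l_eq' hσ ht ha, ell]

theorem continuousAt_lam (i : ι) {t : ℝ} (ht : t ∈ Ico 0 T) : ContinuousAt (A.lam i) t := by
  have h1 : ContinuousAt (dx (A.idx i) (A.chart (A.cone i) (A.cone_mem i)).ψ) (t, fun _ => 1) :=
    (diffAt_of_contDiffOn (A.chart _ (A.cone_mem i)).isOpen_W
      ((A.chart _ (A.cone_mem i)).smooth_ψ1 _)
      ((A.chart _ (A.cone_mem i)).mem_W ht (fun _ => zero_le_one))).continuousAt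
  have h2 : ContinuousAt (D (0, F.vec (A.cone i (A.idx i))) φ) (t, 0) :=
    (diffAt_of_contDiffOn A.isOpen_U₀ (contDiffOn_D A.isOpen_U₀ A.smooth_φ _)
      (A.sub_U₀ ⟨ht, mem_univ _⟩)).continuousAt
  have h3 : ContinuousAt (fun t : ℝ => ((t, fun _ => 1) : ℝ × (Fin n → ℝ))) t :=
    (continuous_id.prodMk continuous_const).continuousAt
  have h4 : ContinuousAt (fun t : ℝ => ((t, 0) : ℝ × (Fin n → ℝ))) t :=
    (continuous_id.prodMk continuous_const).continuousAt
  exact (ContinuousAt.comp (f := fun t : ℝ => ((t, fun _ => 1) : ℝ × (Fin n → ℝ))) h1 h3).sub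
    (ContinuousAt.comp (f := fun t : ℝ => ((t, 0) : ℝ × (Fin n → ℝ))) h2 h4)

theorem continuousAt_ell {σ : Fin n → ι} (hσ : σ ∈ F.cones) (i : ι) (a : Fin n → ℝ) {t : ℝ}
    (ht : t ∈ Ico 0 T) {r : Fin n → ℝ} (hr : ∀ k, 0 ≤ r k) :
    ContinuousAt (A.ell hσ i a) (t, r) := by
  have h1 : ∀ j, ContinuousAt (fun p : ℝ × (Fin n → ℝ) => A.lam j p.1) (t, r) := fun j =>
    ContinuousAt.comp (f := fun p : ℝ × (Fin n → ℝ) => p.1) (A.continuousAt_lam j ht)
      continuousAt_fst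
  have h2 : ∀ k, ContinuousAt (dx k (A.chart σ hσ).ψ) (t, r) := fun k =>
    (diffAt_of_contDiffOn (A.chart σ hσ).isOpen_W ((A.chart σ hσ).smooth_ψ1 _)
      ((A.chart σ hσ).mem_W ht hr)).continuousAt
  unfold ell
  refine ContinuousAt.add ?_ (h1 i)
  refine tendsto_finsetSum _ fun k _ => ?_
  refine ContinuousAt.mul continuousAt_const (((h1 (σ k)).neg).add (ContinuousAt.mul ?_ (h2 k)))
  exact ((continuous_apply k).comp continuous_snd).continuousAt

end Atlas

end Pool.Agent.ToricKRF
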