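import Pool.Agent.Work.MP_a2bf38_gt.Chart2

/-!
# The charts of a toric Kähler family: positivity of `l_i` on closed charts not meeting the facet
-/

open scoped ContDiff
open Set Filter Topology

namespace Pool.Agent.ToricKRF

variable {n : ℕ} {ι : Type}

namespace Atlas

variable {F : SmoothCompleteFan n ι} {T : ℝ} {φ : ℝ × (Fin n → ℝ) → ℝ} (A : Atlas F T φ)

theorem ell_nonneg {σ : Fin n → ι} (hσ : σ ∈ F.cones) {i : ι} {a : Fin n → ℝ}
    (ha : F.pt σ a = F.vec i) {t : ℝ} (ht : t ∈ Ico 0 T) {r : Fin n → ℝ} (hr : ∀ k, 0 ≤ r k) :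
    0 ≤ A.ell hσ i a (t, r) := by
  have h1 : Tendsto (fun η : ℝ => A.ell hσ i a (t, fun k => r k + η)) (𝓝[>] 0)
      (𝓝 (A.ell hσ i a (t, r))) := by
    have h2 : Tendsto (fun η : ℝ => ((t, fun k => r k + η) : ℝ × (Fin n → ℝ))) (𝓝[>] 0)
        (𝓝 (t, r)) := by
      have h3 : Continuous fun η : ℝ => ((t, fun k => r k + η) : ℝ × (Fin n → ℝ)) := by
        fun_prop
      have h4 := (h3.tendsto 0).mono_left (nhdsWithin_le_nhds (s := Ioi (0 : ℝ)))
      simpa using h4
    exact (A.continuousAt_ell hσ i a ht hr).tendsto.comp h2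
  refine ge_of_tendsto h1 ?_
  filter_upwards [self_mem_nhdsWithin] with η hη
  have h5 : (fun k => Real.exp (Real.log (r k + η))) = fun k => r k + η := by
    funext k
    exact Real.exp_log (by have := hr k; have : (0 : ℝ) < η := hη; linarith)
  have h6 := A.l_eq_ell hσ ht ha (fun k => Real.log (r k + η))
  rw [h5] at h6
  rw [← h6]
  exact (A.l_pos i ht _).le

/-- The derivative of `ell` along the flow of `-ν_i`. -/
theorem hasDerivAt_ell {σ : Fin n → ι} (hσ : σ ∈ F.cones) (i : ι) (a : Fin n → ℝ)
    {t : ℝ} (ht : t ∈ Ico 0 T) {r : Fin n → ℝ} (hr : ∀ k, 0 ≤ r k) (s : ℝ) :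
    HasDerivAt (fun s : ℝ => A.ell hσ i a (t, fun k => r k * Real.exp (-(s * a k))))
      (-∑ k, ∑ l, (a k * √(r k * Real.exp (-(s * a k)))) * (a l * √(r l * Real.exp (-(s * a l)))) *
        chartMetric (A.chart σ hσ).ψ t (fun k => √(r k * Real.exp (-(s * a k)))) k l) s := by
  classical
  set d := A.chart σ hσ
  have hR : ∀ k, 0 ≤ r k * Real.exp (-(s * a k)) := fun k => mul_nonneg (hr k) (Real.exp_pos _).le
  have hrk : ∀ k, HasDerivAt (fun s : ℝ => r k * Real.exp (-(s * a k)))
      (-(a k * (r k * Real.exp (-(s * a k))))) s := by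
    intro k
    have h1 : HasDerivAt (fun s : ℝ => -(s * a k)) (-(1 * a k)) s :=
      ((hasDerivAt_id s).mul_const (a k)).neg
    have h2 := (h1.exp).const_mul (r k)
    have h3 : -(a k * (r k * Real.exp (-(s * a k)))) =
        r k * (Real.exp (-(s * a k)) * -(1 * a k)) := by ring
    rw [h3]
    exact h2
  have hcurve : HasDerivAt (fun s : ℝ => ((t, fun k => r k * Real.exp (-(s * a k))) :
      ℝ × (Fin n → ℝ))) ((0 : ℝ), fun k => -(a k * (r k * Real.exp (-(s * a k))))) s :=
    (hasDerivAt_const s t).prodMk (hasDerivAt_pi.2 hrk)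
  have hψ : ∀ k, HasDerivAt (fun s : ℝ => dx k d.ψ (t, fun k => r k * Real.exp (-(s * a k))))
      (∑ l, (-(a l * (r l * Real.exp (-(s * a l))))) *
        dx l (dx k d.ψ) (t, fun k => r k * Real.exp (-(s * a k)))) s := by
    intro k
    have h1 : DifferentiableAt ℝ (dx k d.ψ) (t, fun k => r k * Real.exp (-(s * a k))) :=
      diffAt_of_contDiffOn d.isOpen_W (d.smooth_ψ1 k) (d.mem_W ht hR)
    have h2 := h1.hasFDerivAt.comp_hasDerivAt s hcurve
    have h3 : (fun k => -(a k * (r k * Real.exp (-(s * a k))))) =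
        ∑ l, (-(a l * (r l * Real.exp (-(s * a l))))) • Pi.single l (1 : ℝ) := by
      ext j
      simp [Finset.sum_apply, Pi.single_apply]
    have h4 : fderiv ℝ (dx k d.ψ) (t, fun k => r k * Real.exp (-(s * a k)))
        ((0 : ℝ), fun k => -(a k * (r k * Real.exp (-(s * a k))))) =
        ∑ l, (-(a l * (r l * Real.exp (-(s * a l))))) *
        dx l (dx k d.ψ) (t, fun k => r k * Real.exp (-(s * a k))) := by
      have h5 := D_dir_sum_snd Finset.univ (dx k d.ψ)
        (t, fun k => r k * Real.exp (-(s * a k)))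
        (fun l => -(a l * (r l * Real.exp (-(s * a l))))) (fun l => Pi.single l (1 : ℝ))
      rw [← h3] at h5
      exact h5
    rw [← h4]
    exact h2
  have hmain : HasDerivAt (fun s : ℝ => A.ell hσ i a (t, fun k => r k * Real.exp (-(s * a k))))
      (∑ k, a k * (-(a k * (r k * Real.exp (-(s * a k)))) *
          dx k d.ψ (t, fun k => r k * Real.exp (-(s * a k))) +
        (r k * Real.exp (-(s * a k))) * ∑ l, (-(a l * (r l * Real.exp (-(s * a l))))) *
        dx l (dx k d.ψ) (t, fun k => r k * Real.exp (-(s * a k))))) s := by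
    change HasDerivAt (fun s : ℝ => (∑ k, a k * (-A.lam (σ k) t + (r k * Real.exp (-(s * a k))) *
      dx k d.ψ (t, fun k => r k * Real.exp (-(s * a k))))) + A.lam i t) _ s
    apply HasDerivAt.add_const
    apply HasDerivAt.fun_sum
    intro k _
    apply HasDerivAt.const_mul
    apply HasDerivAt.const_add
    exact (hrk k).fun_mul (hψ k)
  convert hmain using 1
  have hsq : (fun j => √(r j * Real.exp (-(s * a j))) ^ 2) = fun j => r j * Real.exp (-(s * a j)) := by
    funext j
    exact Real.sq_sqrt (hR j)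
  rw [← Finset.sum_neg_distrib]
  refine Finset.sum_congr rfl fun k _ => ?_
  have hcomm : ∀ l, dx k (dx l d.ψ) (t, fun k => r k * Real.exp (-(s * a k))) =
      dx l (dx k d.ψ) (t, fun k => r k * Real.exp (-(s * a k))) := fun l =>
    D_comm d.isOpen_W d.smooth_ψ (d.mem_W ht hR) _ _
  simp only [chartMetric, Matrix.of_apply, hsq, hcomm]
  have hsplit : ∀ l, a k * √(r k * Real.exp (-(s * a k))) * (a l * √(r l * Real.exp (-(s * a l)))) *
      ((if k = l then dx k d.ψ (t, fun k => r k * Real.exp (-(s * a k))) else 0) +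
        √(r k * Real.exp (-(s * a k))) * √(r l * Real.exp (-(s * a l))) *
          dx l (dx k d.ψ) (t, fun k => r k * Real.exp (-(s * a k)))) =
      (if k = l then a k * a k * (r k * Real.exp (-(s * a k))) *
        dx k d.ψ (t, fun k => r k * Real.exp (-(s * a k))) else 0) +
      a k * (r k * Real.exp (-(s * a k))) * (a l * (r l * Real.exp (-(s * a l))) *
        dx l (dx k d.ψ) (t, fun k => r k * Real.exp (-(s * a k)))) := by
    intro l
    have e1 := Real.mul_self_sqrt (hR k)
    have e2 := Real.mul_self_sqrt (hR l)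
    by_cases h : k = l
    · subst h
      simp only [if_true]
      linear_combination (a k * a k * dx k d.ψ (t, fun k => r k * Real.exp (-(s * a k))) +
        a k * a k * (√(r k * Real.exp (-(s * a k))) * √(r k * Real.exp (-(s * a k))) +
          r k * Real.exp (-(s * a k))) *
          dx k (dx k d.ψ) (t, fun k => r k * Real.exp (-(s * a k)))) * e1
    · simp only [if_neg h]
      linear_combination (a k * a l * dx l (dx k d.ψ) (t, fun k => r k * Real.exp (-(s * a k))) *
        (√(r l * Real.exp (-(s * a l))) * √(r l * Real.exp (-(s * a l))))) * e1 +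
        (a k * a l * dx l (dx k d.ψ) (t, fun k => r k * Real.exp (-(s * a k))) *
        (r k * Real.exp (-(s * a k)))) * e2
  rw [Finset.sum_congr rfl fun l _ => hsplit l, Finset.sum_add_distrib, Finset.sum_ite_eq]
  simp only [Finset.mem_univ, if_true]
  rw [← Finset.mul_sum]
  have hneg : ∑ l, -(a l * (r l * Real.exp (-(s * a l)))) *
      dx l (dx k d.ψ) (t, fun k => r k * Real.exp (-(s * a k))) =
      -∑ l, (a l * (r l * Real.exp (-(s * a l)))) *
      dx l (dx k d.ψ) (t, fun k => r k * Real.exp (-(s * a k))) := by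
    rw [← Finset.sum_neg_distrib]
    exact Finset.sum_congr rfl fun l _ => by ring
  rw [hneg]
  ring

/-- `l_i` is positive on the closed chart of a cone that does not contain the ray `i`. -/
theorem ell_pos {σ : Fin n → ι} (hσ : σ ∈ F.cones) {i : ι} (hi : i ∉ range σ) {a : Fin n → ℝ}
    (ha : F.pt σ a = F.vec i) {t : ℝ} (ht : t ∈ Ico 0 T) {r : Fin n → ℝ} (hr : ∀ k, 0 ≤ r k) :
    0 < A.ell hσ i a (t, r) := by
  classical
  set d := A.chart σ hσ
  by_cases hcase : ∃ k, a k * r k ≠ 0
  · -- move in the direction `-ν_i`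
    have hanti : StrictAntiOn (fun s : ℝ => A.ell hσ i a (t, fun k => r k * Real.exp (-(s * a k))))
        (Icc 0 1) := by
      apply strictAntiOn_of_deriv_neg (convex_Icc 0 1)
      · intro s _
        exact (A.hasDerivAt_ell hσ i a ht hr s).continuousAt.continuousWithinAt
      · intro s _
        rw [(A.hasDerivAt_ell hσ i a ht hr s).deriv, neg_lt_zero]
        apply d.quad_pos ht
        obtain ⟨k, hk⟩ := hcase
        intro h0
        have h1 := congrFun h0 k
        simp only [Pi.zero_apply] at h1
        have hak : a k ≠ 0 := left_ne_zero_of_mul hk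
        have hrk : 0 < r k := lt_of_le_of_ne (hr k) (Ne.symm (right_ne_zero_of_mul hk))
        have : 0 < √(r k * Real.exp (-(s * a k))) :=
          Real.sqrt_pos.2 (mul_pos hrk (Real.exp_pos _))
        rcases mul_eq_zero.1 h1 with h | h
        · exact hak h
        · exact this.ne' h
    have h1 := hanti (left_mem_Icc.2 zero_le_one) (right_mem_Icc.2 zero_le_one) zero_lt_one
    have h2 : 0 ≤ A.ell hσ i a (t, fun k => r k * Real.exp (-(1 * a k))) :=
      A.ell_nonneg hσ ha ht (fun k => mul_nonneg (hr k) (Real.exp_pos _).le)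
    have h3 : (fun k => r k * Real.exp (-(0 * a k))) = r := by
      funext k
      simp
    simp only [h3] at h1
    exact lt_of_le_of_lt h2 h1
  · push Not at hcase
    have hell : A.ell hσ i a (t, r) = A.ell hσ i a (t, 0) := by
      simp only [ell]
      congr 1
      refine Finset.sum_congr rfl fun k _ => ?_
      have := hcase k
      have h1 : a k * (-A.lam (σ k) t + r k * dx k (A.chart σ hσ).ψ (t, r)) =
        a k * -A.lam (σ k) t + (a k * r k) * dx k (A.chart σ hσ).ψ (t, r) := by ring
      rw [h1, this]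
      simp
    have h0 : 0 ≤ A.ell hσ i a (t, 0) := A.ell_nonneg hσ ha ht (fun _ => le_rfl)
    rcases h0.lt_or_eq with h0 | h0
    · rwa [hell]
    · exfalso
      apply hi
      apply F.mem_range_of_mem_cone hσ (c := a) ?_ ha
      intro k
      by_contra hk
      push Not at hk
      have h1 : 0 ≤ A.ell hσ i a (t, Pi.single k 1) := by
        apply A.ell_nonneg hσ ha ht
        intro j
        by_cases hj : j = k
        · subst hj; simp
        · simp [Pi.single_eq_of_ne hj]
      have h2 : A.ell hσ i a (t, Pi.single k 1) = A.ell hσ i a (t, 0) +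
          a k * dx k (A.chart σ hσ).ψ (t, Pi.single k 1) := by
        simp only [ell]
        have h3 : ∀ j, a j * (-A.lam (σ j) t + (Pi.single k (1 : ℝ) : Fin n → ℝ) j *
            dx j (A.chart σ hσ).ψ (t, Pi.single k 1)) =
            a j * (-A.lam (σ j) t + (0 : Fin n → ℝ) j * dx j (A.chart σ hσ).ψ (t, 0)) +
            (if j = k then a k * dx k (A.chart σ hσ).ψ (t, Pi.single k 1) else 0) := by
          intro j
          by_cases hj : j = k
          · subst hj; simp; ring
          · simp [Pi.single_eq_of_ne hj, if_neg hj]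
        rw [Finset.sum_congr rfl fun j _ => h3 j, Finset.sum_add_distrib, Finset.sum_ite_eq']
        simp
        ring
      have h3 : 0 < dx k (A.chart σ hσ).ψ (t, Pi.single k 1) := by
        apply (A.chart σ hσ).psi_pos ht
        intro j
        by_cases hj : j = k
        · subst hj; simp
        · simp [Pi.single_eq_of_ne hj]
      rw [h2, ← h0, zero_add] at h1
      have := mul_neg_of_neg_of_pos hk h3
      linarith

end Atlas

end Pool.Agent.ToricKRF
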