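import Pool.Agent.Work.MP_a2bf38_gt.Chart3

/-!
# Bounds on compact time intervals
-/

open scoped ContDiff
open Set Filter Topology

namespace Pool.Agent.ToricKRF

variable {n : ℕ} {ι : Type}

/-- The compact set `[0,t'] × [0,1]^n`. -/
def box (n : ℕ) (t' : ℝ) : Set (ℝ × (Fin n → ℝ)) := Icc 0 t' ×ˢ Icc 0 1

theorem isCompact_box (t' : ℝ) : IsCompact (box n t') := isCompact_Icc.prod isCompact_Icc

theorem bound_box {t' : ℝ} {f : ℝ × (Fin n → ℝ) → ℝ} (hf : ContinuousOn f (box n t')) :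
    ∃ C : ℝ, 0 < C ∧ ∀ t ∈ Icc 0 t', ∀ z : Fin n → ℝ, (∀ k, 0 ≤ z k) → (∀ k, z k ≤ 1) →
      f (t, z) ≤ C := by
  obtain ⟨C, hC⟩ := (isCompact_box t').exists_bound_of_continuousOn hf
  refine ⟨|C| + 1, by positivity, fun t ht z h0 h1 => ?_⟩
  have := hC (t, z) ⟨ht, h0, h1⟩
  rw [Real.norm_eq_abs] at this
  have h2 := le_abs_self (f (t, z))
  have h3 := le_abs_self C
  linarith

/-- `(t, z) ↦ f (t, z²)` is continuous on the box. -/
theorem continuousOn_sq {t' T : ℝ} (ht' : t' < T) {f : ℝ × (Fin n → ℝ) → ℝ}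
    (hf : ∀ t ∈ Ico 0 T, ∀ r : Fin n → ℝ, (∀ k, 0 ≤ r k) → ContinuousAt f (t, r)) :
    ContinuousOn (fun p : ℝ × (Fin n → ℝ) => f (p.1, fun k => p.2 k ^ 2)) (box n t') := by
  rintro ⟨t, z⟩ ⟨ht, _⟩
  have h1 : Continuous fun p : ℝ × (Fin n → ℝ) => ((p.1, fun k => p.2 k ^ 2) : ℝ × (Fin n → ℝ)) := by
    fun_prop
  have h2 : ContinuousAt f (t, fun k => z k ^ 2) :=
    hf t ⟨ht.1, lt_of_le_of_lt ht.2 ht'⟩ _ (fun k => sq_nonneg _)
  exact (ContinuousAt.comp (f := fun p : ℝ × (Fin n → ℝ) =>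
    ((p.1, fun k => p.2 k ^ 2) : ℝ × (Fin n → ℝ))) h2 h1.continuousAt).continuousWithinAt

/-- `(t, z) ↦ f (0, z²)` is continuous on the box. -/
theorem continuousOn_sq0 {t' T : ℝ} (hT : 0 < T) {f : ℝ × (Fin n → ℝ) → ℝ}
    (hf : ∀ t ∈ Ico 0 T, ∀ r : Fin n → ℝ, (∀ k, 0 ≤ r k) → ContinuousAt f (t, r)) :
    ContinuousOn (fun p : ℝ × (Fin n → ℝ) => f (0, fun k => p.2 k ^ 2)) (box n t') := by
  rintro ⟨t, z⟩ ⟨ht, _⟩
  have h1 : Continuous fun p : ℝ × (Fin n → ℝ) => ((0, fun k => p.2 k ^ 2) : ℝ × (Fin n → ℝ)) := by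
    fun_prop
  have h2 : ContinuousAt f (0, fun k => z k ^ 2) :=
    hf 0 ⟨le_rfl, hT⟩ _ (fun k => sq_nonneg _)
  exact (ContinuousAt.comp (f := fun p : ℝ × (Fin n → ℝ) =>
    ((0, fun k => p.2 k ^ 2) : ℝ × (Fin n → ℝ))) h2 h1.continuousAt).continuousWithinAt

namespace ChartData

variable {F : SmoothCompleteFan n ι} {T : ℝ} {φ : ℝ × (Fin n → ℝ) → ℝ} {σ : Fin n → ι}
  (d : ChartData F T φ σ)

theorem continuousAt_ψ1 (k : Fin n) : ∀ t ∈ Ico 0 T, ∀ r : Fin n → ℝ, (∀ k, 0 ≤ r k) →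
    ContinuousAt (dx k d.ψ) (t, r) := fun _ ht _ hr =>
  (diffAt_of_contDiffOn d.isOpen_W (d.smooth_ψ1 k) (d.mem_W ht hr)).continuousAt

theorem continuousAt_ψ2 (k l : Fin n) : ∀ t ∈ Ico 0 T, ∀ r : Fin n → ℝ, (∀ k, 0 ≤ r k) →
    ContinuousAt (dx k (dx l d.ψ)) (t, r) := fun _ ht _ hr =>
  (diffAt_of_contDiffOn d.isOpen_W (d.smooth_ψ2 k l) (d.mem_W ht hr)).continuousAt

theorem continuousOn_metric {t' : ℝ} (ht' : t' < T) (k l : Fin n) :
    ContinuousOn (fun p : ℝ × (Fin n → ℝ) => chartMetric d.ψ p.1 p.2 k l) (box n t') := by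
  simp only [chartMetric, Matrix.of_apply]
  refine ContinuousOn.add ?_ (ContinuousOn.mul ?_ (continuousOn_sq ht' (d.continuousAt_ψ2 k l)))
  · by_cases h : k = l
    · simp only [if_pos h]
      exact continuousOn_sq ht' (d.continuousAt_ψ1 k)
    · simp only [if_neg h]
      exact continuousOn_const
  · fun_prop

theorem continuousOn_metric0 {t' : ℝ} (hT : 0 < T) (k l : Fin n) :
    ContinuousOn (fun p : ℝ × (Fin n → ℝ) => chartMetric d.ψ 0 p.2 k l) (box n t') := by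
  simp only [chartMetric, Matrix.of_apply]
  refine ContinuousOn.add ?_ (ContinuousOn.mul ?_ (continuousOn_sq0 hT (d.continuousAt_ψ2 k l)))
  · by_cases h : k = l
    · simp only [if_pos h]
      exact continuousOn_sq0 hT (d.continuousAt_ψ1 k)
    · simp only [if_neg h]
      exact continuousOn_const
  · fun_prop

/-- Comparison of the metrics at the times `0` and `t` in a chart. -/
theorem metric_compare {t' : ℝ} (h0 : 0 ≤ t') (ht' : t' < T) :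
    ∃ C : ℝ, 0 < C ∧ ∀ t ∈ Icc 0 t', ∀ z : Fin n → ℝ, (∀ k, 0 ≤ z k) → (∀ k, z k ≤ 1) →
      ∀ ξ : Fin n → ℝ, ∑ k, ∑ l, ξ k * ξ l * chartMetric d.ψ 0 z k l ≤
        C * ∑ k, ∑ l, ξ k * ξ l * chartMetric d.ψ t z k l := by
  have hT : 0 < T := lt_of_le_of_lt h0 ht'
  -- the compact set of `(t, z, ξ)` with `‖ξ‖ = 1`
  set K : Set ((ℝ × (Fin n → ℝ)) × (Fin n → ℝ)) := box n t' ×ˢ Metric.sphere 0 1 with hK
  have hKc : IsCompact K := (isCompact_box t').prod (isCompact_sphere _ _)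
  have hf1 : ContinuousOn (fun q : (ℝ × (Fin n → ℝ)) × (Fin n → ℝ) =>
      ∑ k, ∑ l, q.2 k * q.2 l * chartMetric d.ψ 0 q.1.2 k l) K := by
    refine continuousOn_finsetSum _ fun k _ => continuousOn_finsetSum _ fun l _ => ?_
    refine ContinuousOn.mul (by fun_prop) ?_
    exact (d.continuousOn_metric0 (t' := t') hT k l).comp continuousOn_fst (fun q hq => hq.1)
  have hf2 : ContinuousOn (fun q : (ℝ × (Fin n → ℝ)) × (Fin n → ℝ) =>
      ∑ k, ∑ l, q.2 k * q.2 l * chartMetric d.ψ q.1.1 q.1.2 k l) K := by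
    refine continuousOn_finsetSum _ fun k _ => continuousOn_finsetSum _ fun l _ => ?_
    refine ContinuousOn.mul (by fun_prop) ?_
    exact (d.continuousOn_metric ht' k l).comp continuousOn_fst (fun q hq => hq.1)
  have hpos : ∀ q ∈ K, 0 < ∑ k, ∑ l, q.2 k * q.2 l * chartMetric d.ψ q.1.1 q.1.2 k l := by
    rintro ⟨⟨t, z⟩, ξ⟩ ⟨⟨ht, hz⟩, hξ⟩
    apply d.quad_pos ⟨ht.1, lt_of_le_of_lt ht.2 ht'⟩
    intro h
    simp only at h
    rw [h] at hξ
    simp at hξ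
  obtain ⟨C, hC⟩ := hKc.exists_bound_of_continuousOn (hf1.div hf2 fun q hq => (hpos q hq).ne')
  refine ⟨|C| + 1, by positivity, fun t ht z hz0 hz1 ξ => ?_⟩
  by_cases hξ : ξ = 0
  · subst hξ; simp
  · have hnorm : 0 < ‖ξ‖ := norm_pos_iff.2 hξ
    set η : Fin n → ℝ := ‖ξ‖⁻¹ • ξ with hη
    have hmem : ((t, z), η) ∈ K := by
      refine ⟨⟨ht, hz0, hz1⟩, ?_⟩
      rw [mem_sphere_zero_iff_norm, hη, norm_smul, norm_inv, norm_norm,
        inv_mul_cancel₀ hnorm.ne']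
    have h1 := hC _ hmem
    have h2 := hpos _ hmem
    simp only [Pi.div_apply] at h1
    rw [Real.norm_eq_abs] at h1
    have h3 : ∑ k, ∑ l, η k * η l * chartMetric d.ψ 0 z k l ≤
        (|C| + 1) * ∑ k, ∑ l, η k * η l * chartMetric d.ψ t z k l := by
      rw [← div_le_iff₀ h2]
      have h4 := (le_abs_self _).trans h1
      have h5 := le_abs_self C
      linarith
    have hscale : ∀ s, ∑ k, ∑ l, ξ k * ξ l * chartMetric d.ψ s z k l =
        ‖ξ‖ ^ 2 * ∑ k, ∑ l, η k * η l * chartMetric d.ψ s z k l := by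
      intro s
      rw [Finset.mul_sum]
      refine Finset.sum_congr rfl fun k _ => ?_
      rw [Finset.mul_sum]
      refine Finset.sum_congr rfl fun l _ => ?_
      simp only [hη, Pi.smul_apply, smul_eq_mul]
      field_simp
    rw [hscale 0, hscale t]
    have h6 : 0 ≤ ‖ξ‖ ^ 2 := sq_nonneg _
    calc _ ≤ ‖ξ‖ ^ 2 * ((|C| + 1) * ∑ k, ∑ l, η k * η l * chartMetric d.ψ t z k l) :=
          mul_le_mul_of_nonneg_left h3 h6
      _ = _ := by ring

end ChartData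

namespace Atlas

variable {F : SmoothCompleteFan n ι} {T : ℝ} {φ : ℝ × (Fin n → ℝ) → ℝ} (A : Atlas F T φ)

/-- The bounds for `l_i`, `F_i` at a point. -/
def PtBound (i : ι) (C : ℝ) (t : ℝ) (x : Fin n → ℝ) : Prop :=
  A.l i (t, x) ≤ C ∧ A.l i (0, x) ≤ C * A.l i (t, x) ∧
    D (0, F.vec i) (D (0, F.vec i) φ) (t, x) - A.l i (t, x) ≤ C * A.l i (t, x) ^ 2

theorem PtBound.mono {i : ι} {C C' : ℝ} (h : C ≤ C') {t : ℝ} (ht : t ∈ Ico 0 T) {x : Fin n → ℝ}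
    (hb : A.PtBound i C t x) : A.PtBound i C' t x := by
  obtain ⟨h1, h2, h3⟩ := hb
  have := A.l_pos i ht x
  exact ⟨h1.trans h, h2.trans (mul_le_mul_of_nonneg_right h this.le),
    h3.trans (mul_le_mul_of_nonneg_right h (sq_nonneg _))⟩

theorem exp_half_sq (y : Fin n → ℝ) :
    (fun j => Real.exp (y j / 2) ^ 2) = fun j => Real.exp (y j) := by
  funext j
  rw [← Real.exp_nat_mul]
  congr 1
  push_cast
  ring

/-- The bounds in a chart through `i`. -/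
theorem bounds_mem {σ : Fin n → ι} (hσ : σ ∈ F.cones) (k : Fin n) {t' : ℝ} (h0 : 0 ≤ t')
    (ht' : t' < T) : ∃ C : ℝ, 0 < C ∧ ∀ t ∈ Icc 0 t', ∀ y : Fin n → ℝ, (∀ j, y j ≤ 0) →
      A.PtBound (σ k) C t (F.pt σ y) ∧
      Real.log (A.l (σ k) (t, F.pt σ y)) ≤ C + y k := by
  set d := A.chart σ hσ
  have hT : 0 < T := lt_of_le_of_lt h0 ht'
  have hmem : ∀ q ∈ box n t', q.1 ∈ Ico 0 T := fun q hq => ⟨hq.1.1, lt_of_le_of_lt hq.1.2 ht'⟩
  have c1 := continuousOn_sq ht' (d.continuousAt_ψ1 k)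
  have c0 := continuousOn_sq0 (t' := t') hT (d.continuousAt_ψ1 k)
  have c2 := continuousOn_sq ht' (d.continuousAt_ψ2 k k)
  have p1 : ∀ q ∈ box n t', 0 < dx k d.ψ (q.1, fun k => q.2 k ^ 2) := fun q hq =>
    d.psi_pos (hmem q hq) (fun j => sq_nonneg _) k
  obtain ⟨C1, hC1, b1⟩ := bound_box c1
  obtain ⟨C2, hC2, b2⟩ := bound_box (c0.div c1 fun q hq => (p1 q hq).ne')
  obtain ⟨C3, hC3, b3⟩ := bound_box (c2.div (c1.pow 2) fun q hq => (pow_pos (p1 q hq) 2).ne')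
  obtain ⟨C4, hC4, b4⟩ := bound_box (c1.log fun q hq => (p1 q hq).ne')
  refine ⟨C1 + C2 + C3 + C4, by positivity, fun t ht y hy => ?_⟩
  have htT : t ∈ Ico 0 T := ⟨ht.1, lt_of_le_of_lt ht.2 ht'⟩
  have h0T : (0 : ℝ) ∈ Ico 0 T := ⟨le_rfl, hT⟩
  have hz0 : ∀ j, 0 ≤ Real.exp (y j / 2) := fun j => (Real.exp_pos _).le
  have hz1 : ∀ j, Real.exp (y j / 2) ≤ 1 := fun j => by
    rw [Real.exp_le_one_iff]; linarith [hy j]
  have e1 := b1 t ht _ hz0 hz1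
  have e2 := b2 t ht _ hz0 hz1
  have e3 := b3 t ht _ hz0 hz1
  have e4 := b4 t ht _ hz0 hz1
  simp only [Pi.div_apply, Pi.pow_apply, exp_half_sq] at e1 e2 e3 e4
  have hψ : 0 < dx k d.ψ (t, fun j => Real.exp (y j)) := d.psi_pos htT (fun j => (Real.exp_pos _).le) k
  have hexp : 0 < Real.exp (y k) := Real.exp_pos _
  have hexp1 : Real.exp (y k) ≤ 1 := by rw [Real.exp_le_one_iff]; exact hy k
  rw [div_le_iff₀ hψ] at e2
  rw [div_le_iff₀ (pow_pos hψ 2)] at e3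
  have hle1 : C1 ≤ C1 + C2 + C3 + C4 := by linarith
  have hle2 : C2 ≤ C1 + C2 + C3 + C4 := by linarith
  have hle3 : C3 ≤ C1 + C2 + C3 + C4 := by linarith
  have hle4 : C4 ≤ C1 + C2 + C3 + C4 := by linarith
  have l1 := A.l_eq hσ htT k y
  have l0 := A.l_eq hσ h0T k y
  have hF := d.DD_vec htT y k k
  refine ⟨⟨?_, ?_, ?_⟩, ?_⟩
  · rw [l1]
    calc Real.exp (y k) * dx k d.ψ (t, fun j => Real.exp (y j)) ≤ 1 * C1 :=
          mul_le_mul hexp1 e1 hψ.le zero_le_one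
      _ ≤ _ := by linarith
  · rw [l1, l0]
    have : dx k d.ψ (0, fun j => Real.exp (y j)) ≤
        (C1 + C2 + C3 + C4) * dx k d.ψ (t, fun j => Real.exp (y j)) :=
      e2.trans (mul_le_mul_of_nonneg_right hle2 hψ.le)
    calc Real.exp (y k) * dx k d.ψ (0, fun j => Real.exp (y j)) ≤
        Real.exp (y k) * ((C1 + C2 + C3 + C4) * dx k d.ψ (t, fun j => Real.exp (y j))) :=
          mul_le_mul_of_nonneg_left this hexp.le
      _ = _ := by ring
  · rw [l1, hF]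
    simp only [chartMetric, Matrix.of_apply, if_true, exp_half_sq]
    have hh : Real.exp (y k / 2) * Real.exp (y k / 2) = Real.exp (y k) := by
      rw [← Real.exp_add]; congr 1; ring
    have h5 : Real.exp (y k / 2) * Real.exp (y k / 2) *
        (dx k d.ψ (t, fun j => Real.exp (y j)) +
        Real.exp (y k / 2) * Real.exp (y k / 2) * dx k (dx k d.ψ) (t, fun j => Real.exp (y j))) -
        Real.exp (y k) * dx k d.ψ (t, fun j => Real.exp (y j)) =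
        Real.exp (y k) ^ 2 * dx k (dx k d.ψ) (t, fun j => Real.exp (y j)) := by
      rw [hh]; ring
    rw [h5]
    have h6 : dx k (dx k d.ψ) (t, fun j => Real.exp (y j)) ≤
        (C1 + C2 + C3 + C4) * dx k d.ψ (t, fun j => Real.exp (y j)) ^ 2 :=
      e3.trans (mul_le_mul_of_nonneg_right hle3 (sq_nonneg _))
    calc Real.exp (y k) ^ 2 * dx k (dx k d.ψ) (t, fun j => Real.exp (y j)) ≤
        Real.exp (y k) ^ 2 * ((C1 + C2 + C3 + C4) * dx k d.ψ (t, fun j => Real.exp (y j)) ^ 2) :=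
          mul_le_mul_of_nonneg_left h6 (sq_nonneg _)
      _ = _ := by ring
  · rw [l1, Real.log_mul hexp.ne' hψ.ne', Real.log_exp]
    linarith

/-- The bounds in a chart not through `i`. -/
theorem bounds_not_mem {σ : Fin n → ι} (hσ : σ ∈ F.cones) {i : ι} (hi : i ∉ range σ) {t' : ℝ}
    (h0 : 0 ≤ t') (ht' : t' < T) : ∃ C : ℝ, 0 < C ∧ ∀ t ∈ Icc 0 t', ∀ y : Fin n → ℝ,
      (∀ j, y j ≤ 0) → A.PtBound i C t (F.pt σ y) ∧
      Real.log (A.l i (t, F.pt σ y)) ≤ C := by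
  set d := A.chart σ hσ
  obtain ⟨a, ha⟩ := F.exists_pt hσ (F.vec i)
  have hT : 0 < T := lt_of_le_of_lt h0 ht'
  have hmem : ∀ q ∈ box n t', q.1 ∈ Ico 0 T := fun q hq => ⟨hq.1.1, lt_of_le_of_lt hq.1.2 ht'⟩
  have hcell : ∀ t ∈ Ico 0 T, ∀ r : Fin n → ℝ, (∀ k, 0 ≤ r k) →
      ContinuousAt (A.ell hσ i a) (t, r) := fun t ht r hr => A.continuousAt_ell hσ i a ht hr
  have c1 := continuousOn_sq ht' hcell
  have c0 := continuousOn_sq0 (t' := t') hT hcell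
  have c2 : ContinuousOn (fun q : ℝ × (Fin n → ℝ) => ∑ k, ∑ l, a k * a l * (q.2 k * q.2 l *
      chartMetric d.ψ q.1 q.2 k l)) (box n t') := by
    refine continuousOn_finsetSum _ fun k _ => continuousOn_finsetSum _ fun l _ => ?_
    refine ContinuousOn.mul continuousOn_const (ContinuousOn.mul (by fun_prop) ?_)
    exact d.continuousOn_metric ht' k l
  have p1 : ∀ q ∈ box n t', 0 < A.ell hσ i a (q.1, fun k => q.2 k ^ 2) := fun q hq =>
    A.ell_pos hσ hi ha (hmem q hq) (fun j => sq_nonneg _)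
  obtain ⟨C1, hC1, b1⟩ := bound_box c1
  obtain ⟨C2, hC2, b2⟩ := bound_box (c0.div c1 fun q hq => (p1 q hq).ne')
  obtain ⟨C3, hC3, b3⟩ := bound_box (c2.div (c1.pow 2) fun q hq => (pow_pos (p1 q hq) 2).ne')
  obtain ⟨C4, hC4, b4⟩ := bound_box (c1.log fun q hq => (p1 q hq).ne')
  refine ⟨C1 + C2 + C3 + C4, by positivity, fun t ht y hy => ?_⟩
  have htT : t ∈ Ico 0 T := ⟨ht.1, lt_of_le_of_lt ht.2 ht'⟩
  have h0T : (0 : ℝ) ∈ Ico 0 T := ⟨le_rfl, hT⟩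
  have hz0 : ∀ j, 0 ≤ Real.exp (y j / 2) := fun j => (Real.exp_pos _).le
  have hz1 : ∀ j, Real.exp (y j / 2) ≤ 1 := fun j => by
    rw [Real.exp_le_one_iff]; linarith [hy j]
  have e1 := b1 t ht _ hz0 hz1
  have e2 := b2 t ht _ hz0 hz1
  have e3 := b3 t ht _ hz0 hz1
  have e4 := b4 t ht _ hz0 hz1
  simp only [Pi.div_apply, Pi.pow_apply, exp_half_sq] at e1 e2 e3 e4
  have l1 := A.l_eq_ell hσ htT ha y
  have l0 := A.l_eq_ell hσ h0T ha y
  have hF := d.DD_φ htT y a a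
  rw [ha] at hF
  rw [← l1] at e1 e2 e3 e4
  rw [← l0] at e2
  have hl := A.l_pos i htT (F.pt σ y)
  rw [div_le_iff₀ hl] at e2
  rw [div_le_iff₀ (pow_pos hl 2), ← hF] at e3
  have hle2 : C2 ≤ C1 + C2 + C3 + C4 := by linarith
  have hle3 : C3 ≤ C1 + C2 + C3 + C4 := by linarith
  refine ⟨⟨by linarith, e2.trans (mul_le_mul_of_nonneg_right hle2 hl.le), ?_⟩, by linarith⟩
  have h7 := e3.trans (mul_le_mul_of_nonneg_right hle3 (sq_nonneg (A.l i (t, F.pt σ y))))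
  linarith

end Atlas

end Pool.Agent.ToricKRF
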