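import Pool.Agent.Work.MP_a2bf38_gt.Chart4

/-!
# Bounds on compact time intervals, all charts together
-/

open scoped ContDiff
open Set Filter Topology

namespace Pool.Agent.ToricKRF

variable {n : ℕ} {ι : Type}

namespace Atlas

variable {F : SmoothCompleteFan n ι} {T : ℝ} {φ : ℝ × (Fin n → ℝ) → ℝ} (A : Atlas F T φ)

theorem bounds_each {σ : Fin n → ι} (hσ : σ ∈ F.cones) {t' : ℝ}
    (h0 : 0 ≤ t') (ht' : t' < T) [DecidableEq ι] (i : ι) : ∃ C : ℝ, 0 < C ∧ ∀ t ∈ Icc 0 t',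
      ∀ y : Fin n → ℝ, (∀ j, y j ≤ 0) → A.PtBound i C t (F.pt σ y) ∧
      Real.log (A.l i (t, F.pt σ y)) ≤ C + ∑ k, if σ k = i then y k else 0 := by
  by_cases hi : i ∈ range σ
  · obtain ⟨k, rfl⟩ := hi
    obtain ⟨C, hC, h⟩ := A.bounds_mem hσ k h0 ht'
    refine ⟨C, hC, fun t ht y hy => ⟨(h t ht y hy).1, ?_⟩⟩
    have h1 : (∑ j, if σ j = σ k then y j else 0) = y k := by
      rw [Finset.sum_eq_single k]
      · simp
      · intro b _ hb
        rw [if_neg]
        intro h2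
        exact hb (F.injective_of_mem hσ h2)
      · simp
    rw [h1]
    exact (h t ht y hy).2
  · obtain ⟨C, hC, h⟩ := A.bounds_not_mem hσ hi h0 ht'
    refine ⟨C, hC, fun t ht y hy => ⟨(h t ht y hy).1, ?_⟩⟩
    have h1 : (∑ j, if σ j = i then y j else 0) = 0 := by
      apply Finset.sum_eq_zero
      intro j _
      rw [if_neg]
      intro h2
      exact hi ⟨j, h2⟩
    rw [h1, add_zero]
    exact (h t ht y hy).2

/-- All bounds at a point. -/
def AllBound [Fintype ι] (C : ℝ) (t : ℝ) (x : Fin n → ℝ) : Prop :=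
  (∀ i, A.PtBound i C t x) ∧
  (∀ w : Fin n → ℝ, D (0, w) (D (0, w) φ) (0, x) ≤ C * D (0, w) (D (0, w) φ) (t, x)) ∧
  (∀ e : (Fin n → ℝ) →L[ℝ] ℝ, e x + ∑ i, max (-e (F.vec i)) 0 * Real.log (A.l i (t, x)) ≤
    C * ∑ i, |e (F.vec i)|)

theorem chart_bounds [Fintype ι] {σ : Fin n → ι} (hσ : σ ∈ F.cones) {t' : ℝ}
    (h0 : 0 ≤ t') (ht' : t' < T) : ∃ C : ℝ, 0 < C ∧ ∀ t ∈ Icc 0 t', ∀ y : Fin n → ℝ,
      (∀ j, y j ≤ 0) → A.AllBound C t (F.pt σ y) := by
  classical
  have hT : 0 < T := lt_of_le_of_lt h0 ht'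
  have h0T : (0 : ℝ) ∈ Ico 0 T := ⟨le_rfl, hT⟩
  choose C hC h using fun i => A.bounds_each hσ h0 ht' i
  obtain ⟨M, hM, hm⟩ := (A.chart σ hσ).metric_compare h0 ht'
  have hle : ∀ i, C i ≤ ∑ i, C i + M := fun i => by
    have := Finset.single_le_sum (f := C) (fun j _ => (hC j).le) (Finset.mem_univ i)
    linarith
  have hS : 0 ≤ ∑ i, C i := Finset.sum_nonneg fun i _ => (hC i).le
  refine ⟨∑ i, C i + M, by linarith, fun t ht y hy => ⟨fun i => ?_, fun w => ?_, fun e => ?_⟩⟩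
  · exact (h i t ht y hy).1.mono A (hle i) ⟨ht.1, lt_of_le_of_lt ht.2 ht'⟩
  · have htT : t ∈ Ico 0 T := ⟨ht.1, lt_of_le_of_lt ht.2 ht'⟩
    obtain ⟨a, rfl⟩ := F.exists_pt hσ w
    have hz0 : ∀ j, 0 ≤ Real.exp (y j / 2) := fun j => (Real.exp_pos _).le
    have hz1 : ∀ j, Real.exp (y j / 2) ≤ 1 := fun j => by
      rw [Real.exp_le_one_iff]; linarith [hy j]
    have h1 := hm t ht _ hz0 hz1 (fun k => a k * Real.exp (y k / 2))
    rw [(A.chart σ hσ).DD_quad h0T, (A.chart σ hσ).DD_quad htT]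
    refine h1.trans (mul_le_mul_of_nonneg_right (by linarith) ?_)
    rw [← (A.chart σ hσ).DD_quad htT]
    by_cases hw : F.pt σ a = 0
    · rw [hw]
      have : ((0 : ℝ), (0 : Fin n → ℝ)) = 0 := rfl
      rw [this, D_dir_zero]
    · exact ((A.chart σ hσ).hess_pos htT _ hw).le
  · have htT : t ∈ Ico 0 T := ⟨ht.1, lt_of_le_of_lt ht.2 ht'⟩
    set m : ι → ℝ := fun i => max (-e (F.vec i)) 0 with hmdef
    have hm0 : ∀ i, 0 ≤ m i := fun i => le_max_right _ _
    have hm1 : ∀ i, m i ≤ |e (F.vec i)| := fun i =>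
      max_le (neg_le_abs _) (abs_nonneg _)
    have h1 : ∑ i, m i * Real.log (A.l i (t, F.pt σ y)) ≤
        ∑ i, m i * ((∑ i, C i + M) + ∑ k, if σ k = i then y k else 0) := by
      refine Finset.sum_le_sum fun i _ => mul_le_mul_of_nonneg_left ?_ (hm0 i)
      have := (h i t ht y hy).2
      have := hle i
      linarith
    have h2 : ∑ i, m i * ((∑ i, C i + M) + ∑ k, if σ k = i then y k else 0) =
        (∑ i, C i + M) * ∑ i, m i + ∑ k, m (σ k) * y k := by
      have h2' : ∀ i, m i * ((∑ i, C i + M) + ∑ k, if σ k = i then y k else 0) =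
          m i * (∑ i, C i + M) + m i * ∑ k, if σ k = i then y k else 0 := fun i => mul_add _ _ _
      rw [Finset.sum_congr rfl fun i _ => h2' i, Finset.sum_add_distrib]
      congr 1
      · rw [Finset.mul_sum]
        exact Finset.sum_congr rfl fun i _ => mul_comm _ _
      · simp only [Finset.mul_sum]
        rw [Finset.sum_comm]
        refine Finset.sum_congr rfl fun k _ => ?_
        rw [Finset.sum_eq_single (σ k)]
        · simp
        · intro b _ hb
          rw [if_neg (Ne.symm hb), mul_zero]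
        · simp
    have h3 : e (F.pt σ y) = ∑ k, y k * e (F.vec (σ k)) := by
      simp [SmoothCompleteFan.pt, map_sum, map_smul]
    have h4 : ∑ k, y k * e (F.vec (σ k)) + ∑ k, m (σ k) * y k ≤ 0 := by
      rw [← Finset.sum_add_distrib]
      apply Finset.sum_nonpos
      intro k _
      have h5 : 0 ≤ e (F.vec (σ k)) + m (σ k) := by
        have := le_max_left (-e (F.vec (σ k))) 0
        simp only [hmdef]
        linarith
      have h6 := mul_nonpos_of_nonpos_of_nonneg (hy k) h5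
      linarith
    have h5 : (∑ i, C i + M) * ∑ i, m i ≤ (∑ i, C i + M) * ∑ i, |e (F.vec i)| :=
      mul_le_mul_of_nonneg_left (Finset.sum_le_sum fun i _ => hm1 i) (by linarith)
    rw [h3]
    linarith

theorem AllBound.mono [Fintype ι] {C C' : ℝ} (h : C ≤ C') {t : ℝ} (ht : t ∈ Ico 0 T)
    {x : Fin n → ℝ} (hb : A.AllBound C t x) : A.AllBound C' t x := by
  obtain ⟨h1, h2, h3⟩ := hb
  refine ⟨fun i => (h1 i).mono A h ht, fun w => ?_, fun e => ?_⟩
  · refine (h2 w).trans (mul_le_mul_of_nonneg_right h ?_)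
    obtain ⟨σ, hσ, _⟩ := F.complete 0
    by_cases hw : w = 0
    · subst hw
      have : ((0 : ℝ), (0 : Fin n → ℝ)) = 0 := rfl
      rw [this, D_dir_zero]
    · exact ((A.chart σ hσ).hess_pos ht _ hw).le
  · exact (h3 e).trans (mul_le_mul_of_nonneg_right h (Finset.sum_nonneg fun i _ => abs_nonneg _))

theorem all_bounds [Fintype ι] {t' : ℝ} (ht' : t' ∈ Ico 0 T) :
    ∃ C : ℝ, 0 < C ∧ ∀ t ∈ Icc 0 t', ∀ x, A.AllBound C t x := by
  classical
  have hfin : F.cones.Finite := Set.toFinite _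
  choose! C hC h using fun (σ : Fin n → ι) (hσ : σ ∈ F.cones) => A.chart_bounds hσ ht'.1 ht'.2
  set S : Finset (Fin n → ι) := hfin.toFinset with hS
  have hpos : 0 ≤ ∑ σ ∈ S, C σ := Finset.sum_nonneg fun σ hσ => (hC σ (hfin.mem_toFinset.1 hσ)).le
  refine ⟨∑ σ ∈ S, C σ + 1, by linarith, fun t ht x => ?_⟩
  obtain ⟨σ, hσ, y, hy, rfl⟩ := F.exists_neg_cone x
  refine (h σ hσ t ht y hy).mono A ?_ ⟨ht.1, lt_of_le_of_lt ht.2 ht'.2⟩
  have := Finset.single_le_sum (f := C) (s := S)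
    (fun j hj => (hC j (hfin.mem_toFinset.1 hj)).le) (hfin.mem_toFinset.2 hσ : σ ∈ S)
  linarith

end Atlas

end Pool.Agent.ToricKRF
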