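import Pool.Agent.Work.MP_a2bf38_gt.Calc

/-!
# Orthonormal frames for the Hessian
-/

open scoped ContDiff ENNReal
open Set

namespace Pool.Agent.ToricKRF

section Basic

variable {n : ℕ} {φ : ℝ × (Fin n → ℝ) → ℝ} {U : Set (ℝ × (Fin n → ℝ))}

theorem snd_eq_sum (w : Fin n → ℝ) : w = ∑ k, w k • (Pi.single k (1:ℝ) : Fin n → ℝ) := by
  ext j
  simp [Finset.sum_apply, Pi.single_apply]

/-- The second directional derivatives in terms of the Hessian matrix. -/
theorem D_D_eq_hess (hU : IsOpen U) (hφ : ContDiffOn ℝ ∞ φ U) {p : ℝ × (Fin n → ℝ)} (hp : p ∈ U)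
    (v w : Fin n → ℝ) :
    D (0, v) (D (0, w) φ) p = ∑ k, ∑ l, v k * (w l * hess φ p k l) := by
  have h1 : D ((0:ℝ), w) φ = fun q => ∑ l, w l * D ((0:ℝ), (Pi.single l (1:ℝ) : Fin n → ℝ)) φ q := by
    funext q
    conv_lhs => rw [snd_eq_sum w]
    exact D_dir_sum_snd _ _ _ _ _
  conv_lhs => rw [snd_eq_sum v]
  rw [D_dir_sum_snd]
  refine Finset.sum_congr rfl fun k _ => ?_
  rw [h1, D_sum]
  · rw [Finset.mul_sum]
    refine Finset.sum_congr rfl fun l _ => ?_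
    rw [D_const_mul _ (diffAt_of_contDiffOn hU (contDiffOn_D hU hφ _) hp)]
    rfl
  · intro l _
    exact (diffAt_of_contDiffOn hU (contDiffOn_D hU hφ _) hp).const_mul _

theorem hess_symm (hU : IsOpen U) (hφ : ContDiffOn ℝ ∞ φ U) {p : ℝ × (Fin n → ℝ)} (hp : p ∈ U)
    (k l : Fin n) : hess φ p k l = hess φ p l k := D_comm hU hφ hp _ _

theorem hess_posDef (hU : IsOpen U) (hφ : ContDiffOn ℝ ∞ φ U) {p : ℝ × (Fin n → ℝ)} (hp : p ∈ U)
    (hpos : ∀ w : Fin n → ℝ, w ≠ 0 → 0 < D (0, w) (D (0, w) φ) p) :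
    (hess φ p).PosDef := by
  refine Matrix.PosDef.of_dotProduct_mulVec_pos ?_ ?_
  · ext k l
    simp only [Matrix.conjTranspose_apply, star_trivial]
    exact hess_symm hU hφ hp l k
  · intro x hx
    have h := hpos x hx
    rw [D_D_eq_hess hU hφ hp] at h
    refine lt_of_lt_of_eq h ?_
    simp only [dotProduct, Matrix.mulVec, star_trivial]
    refine Finset.sum_congr rfl fun k _ => ?_
    rw [Finset.mul_sum]
    exact Finset.sum_congr rfl fun l _ => by ring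

/-- the matrix of a frame -/
theorem isFrame_iff (hU : IsOpen U) (hφ : ContDiffOn ℝ ∞ φ U) {p : ℝ × (Fin n → ℝ)} (hp : p ∈ U)
    (W : Fin n → Fin n → ℝ) :
    IsFrame φ p W ↔ Matrix.of W * hess φ p * (Matrix.of W).transpose = 1 := by
  constructor
  · intro h
    ext c d
    have := h c d
    rw [D_D_eq_hess hU hφ hp] at this
    simp only [Matrix.mul_apply, Matrix.of_apply, Matrix.transpose_apply, Matrix.one_apply]
    rw [← this, Finset.sum_comm]
    refine Finset.sum_congr rfl fun k _ => ?_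
    rw [Finset.sum_mul]
    exact Finset.sum_congr rfl fun l _ => by ring
  · intro h c d
    rw [D_D_eq_hess hU hφ hp]
    have := congrFun (congrFun h c) d
    simp only [Matrix.mul_apply, Matrix.of_apply, Matrix.transpose_apply, Matrix.one_apply] at this
    rw [← this, Finset.sum_comm]
    refine Finset.sum_congr rfl fun k _ => ?_
    rw [Finset.sum_mul]
    exact Finset.sum_congr rfl fun l _ => by ring

end Basic

theorem exists_frame {n : ℕ} {φ : ℝ × (Fin n → ℝ) → ℝ} {U : Set (ℝ × (Fin n → ℝ))}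
    (hU : IsOpen U) (hφ : ContDiffOn ℝ ∞ φ U) {p : ℝ × (Fin n → ℝ)} (hp : p ∈ U)
    (hpos : ∀ w : Fin n → ℝ, w ≠ 0 → 0 < D (0, w) (D (0, w) φ) p) :
    ∃ W, IsFrame φ p W := by
  open scoped MatrixOrder in
  have hA := hess_posDef hU hφ hp hpos
  obtain ⟨y, hy⟩ := CStarAlgebra.nonneg_iff_eq_star_mul_self.mp hA.posSemidef.nonneg
  have hy' : hess φ p = y.transpose * y := by
    rw [hy, Matrix.star_eq_conjTranspose]
    congr 1
  have hdet : IsUnit y.det := by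
    have h1 : IsUnit (hess φ p).det := (Matrix.isUnit_iff_isUnit_det _).mp hA.isUnit
    rw [hy', Matrix.det_mul] at h1
    exact isUnit_of_mul_isUnit_right h1
  refine ⟨fun c a => (y⁻¹) a c, ?_⟩
  rw [isFrame_iff hU hφ hp, hy']
  have e1 : (Matrix.of fun c a => (y⁻¹) a c) = (y⁻¹).transpose := rfl
  rw [e1, Matrix.transpose_transpose, Matrix.mul_assoc, Matrix.mul_assoc,
    Matrix.mul_nonsing_inv _ hdet, Matrix.mul_one, ← Matrix.transpose_mul,
    Matrix.mul_nonsing_inv _ hdet, Matrix.transpose_one]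

theorem frame_mul {n : ℕ} {φ : ℝ × (Fin n → ℝ) → ℝ} {U : Set (ℝ × (Fin n → ℝ))}
    (hU : IsOpen U) (hφ : ContDiffOn ℝ ∞ φ U) {p : ℝ × (Fin n → ℝ)} (hp : p ∈ U)
    {W : Fin n → Fin n → ℝ} (hW : IsFrame φ p W) :
    (Matrix.of W).transpose * Matrix.of W * hess φ p = 1 := by
  rw [isFrame_iff hU hφ hp, Matrix.mul_assoc] at hW
  have h2 := mul_eq_one_comm.mp hW
  -- `h2 : A * Wᵀ * W = 1`
  have h3 : hess φ p * ((Matrix.of W).transpose * Matrix.of W) = 1 := by
    rw [← Matrix.mul_assoc]; exact h2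
  exact mul_eq_one_comm.mp h3

theorem frame_expand {n : ℕ} {φ : ℝ × (Fin n → ℝ) → ℝ} {U : Set (ℝ × (Fin n → ℝ))}
    (hU : IsOpen U) (hφ : ContDiffOn ℝ ∞ φ U) {p : ℝ × (Fin n → ℝ)} (hp : p ∈ U)
    {W : Fin n → Fin n → ℝ} (hW : IsFrame φ p W) (ξ : Fin n → ℝ) :
    ξ = ∑ c, D (0, W c) (D (0, ξ) φ) p • W c := by
  have h := frame_mul hU hφ hp hW
  have h2 : ((Matrix.of W).transpose * Matrix.of W * hess φ p).mulVec ξ = ξ := by
    rw [h, Matrix.one_mulVec]
  conv_lhs => rw [← h2]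
  ext a
  simp only [Matrix.mul_assoc, ← Matrix.mulVec_mulVec]
  simp only [Matrix.mulVec, dotProduct, Matrix.transpose_apply, Matrix.of_apply,
    Finset.sum_apply, Pi.smul_apply, smul_eq_mul]
  refine Finset.sum_congr rfl fun c _ => ?_
  rw [D_D_eq_hess hU hφ hp, mul_comm]
  congr 1
  refine Finset.sum_congr rfl fun k _ => ?_
  rw [Finset.mul_sum]
  exact Finset.sum_congr rfl fun l _ => by ring

/-- `A⁻¹ = ∑_c W_c W_cᵀ` -/
theorem frame_inv {n : ℕ} {φ : ℝ × (Fin n → ℝ) → ℝ} {U : Set (ℝ × (Fin n → ℝ))}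
    (hU : IsOpen U) (hφ : ContDiffOn ℝ ∞ φ U) {p : ℝ × (Fin n → ℝ)} (hp : p ∈ U)
    {W : Fin n → Fin n → ℝ} (hW : IsFrame φ p W) (a b : Fin n) :
    (hess φ p)⁻¹ a b = ∑ c, W c a * W c b := by
  have h := frame_mul hU hφ hp hW
  rw [Matrix.inv_eq_left_inv h]
  simp [Matrix.mul_apply, Matrix.transpose_apply]

end Pool.Agent.ToricKRF
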