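import Pool.Agent.Work.MP_a2bf38_gt.Chart5
import Pool.Agent.Work.MP_a2bf38_gt.Frame

/-!
# The flow equation for `l_i`: identification of the drift at infinity
-/

open scoped ContDiff
open Set Filter Topology

namespace Pool.Agent.ToricKRF

variable {n : ℕ} {ι : Type}

namespace ChartData

variable {F : SmoothCompleteFan n ι} {T : ℝ} {φ : ℝ × (Fin n → ℝ) → ℝ} {σ : Fin n → ι}
  (d : ChartData F T φ σ)

/-- The determinant of the metric of the open orbit in a chart. -/
theorem det_hess {t : ℝ} (ht : t ∈ Ico 0 T) (y : Fin n → ℝ) :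
    (hess φ (t, F.pt σ y)).det = (∏ k, Real.exp (y k / 2)) ^ 2 *
      (chartMetric d.ψ t (fun k => Real.exp (y k / 2))).det := by
  classical
  have h1 : F.mat σ * hess φ (t, F.pt σ y) * (F.mat σ).transpose =
      Matrix.diagonal (fun k => Real.exp (y k / 2)) *
        chartMetric d.ψ t (fun k => Real.exp (y k / 2)) *
        Matrix.diagonal (fun k => Real.exp (y k / 2)) := by
    ext k l
    rw [Matrix.mul_diagonal, Matrix.diagonal_mul]
    have h2 := d.DD_vec ht y k l
    have h3 := D_D_eq_hess d.isOpen_U d.smooth_φ (d.mem_U ht (F.pt σ y)) (F.vec (σ k))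
      (F.vec (σ l))
    rw [h2] at h3
    have h4 : (F.mat σ * hess φ (t, F.pt σ y) * (F.mat σ).transpose) k l =
        ∑ a, ∑ b, F.vec (σ k) a * (F.vec (σ l) b * hess φ (t, F.pt σ y) a b) := by
      simp only [Matrix.mul_apply, Matrix.transpose_apply, SmoothCompleteFan.mat, Matrix.of_apply,
        Finset.sum_mul]
      rw [Finset.sum_comm]
      refine Finset.sum_congr rfl fun a _ => Finset.sum_congr rfl fun b _ => ?_
      ring
    rw [h4, ← h3]
    ring
  have h5 := congrArg Matrix.det h1
  rw [Matrix.det_mul, Matrix.det_mul, Matrix.det_mul, Matrix.det_mul, Matrix.det_transpose,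
    Matrix.det_diagonal] at h5
  have h6 := F.det_mat_sq d.mem
  have h7 : (F.mat σ).det * (hess φ (t, F.pt σ y)).det * (F.mat σ).det =
      (F.mat σ).det ^ 2 * (hess φ (t, F.pt σ y)).det := by ring
  rw [h7, h6, one_mul] at h5
  rw [h5]
  ring

include d in
/-- Along the ray `-s ν_i` the logarithm of the determinant is `-s` plus a bounded function. -/
theorem tendsto_logdet {t : ℝ} (ht : t ∈ Ico 0 T) (k : Fin n) : ∃ c : ℝ,
    Tendsto (fun s : ℝ => Real.log (hess φ (t, (-s) • F.vec (σ k))).det + s) atTop (𝓝 c) := by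
  classical
  set z : ℝ → Fin n → ℝ := fun s => Function.update (fun _ => 1) k (Real.exp (-s / 2)) with hz
  have hzy : ∀ s : ℝ, (fun j => Real.exp ((Pi.single k (-s) : Fin n → ℝ) j / 2)) = z s := by
    intro s
    ext j
    by_cases hj : j = k
    · subst hj; simp [hz]
    · simp [hz, Pi.single_eq_of_ne hj, Function.update_of_ne hj]
  have h1 : ∀ s : ℝ, Real.log (hess φ (t, (-s) • F.vec (σ k))).det + s =
      Real.log (chartMetric d.ψ t (z s)).det := by
    intro s
    have h2 := d.det_hess ht (Pi.single k (-s))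
    rw [F.pt_single] at h2
    rw [h2]
    have h3 : ∏ j, Real.exp ((Pi.single k (-s) : Fin n → ℝ) j / 2) = Real.exp (-s / 2) := by
      rw [Finset.prod_eq_single k]
      · simp
      · intro b _ hb
        simp [Pi.single_eq_of_ne hb]
      · simp
    rw [h3, hzy, Real.log_mul (by positivity) (d.pos t ht _).det_pos.ne', Real.log_pow, Real.log_exp]
    push_cast
    ring
  have hzt : Tendsto z atTop (𝓝 (Function.update (fun _ => 1) k 0)) := by
    have h2 : Tendsto (fun s : ℝ => Real.exp (-s / 2)) atTop (𝓝 0) := by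
      have h3 : (fun s : ℝ => Real.exp (-s / 2)) = fun s : ℝ => Real.exp (-(s / 2)) := by
        funext s; congr 1; ring
      rw [h3]
      exact Real.tendsto_exp_neg_atTop_nhds_zero.comp (tendsto_id.atTop_div_const (by norm_num))
    have h6 : Continuous fun s : ℝ => Function.update (fun _ : Fin n => (1 : ℝ)) k s :=
      continuous_const.update k continuous_id
    exact (h6.tendsto (0 : ℝ)).comp h2
  refine ⟨Real.log (chartMetric d.ψ t (Function.update (fun _ => 1) k 0)).det, ?_⟩
  simp only [h1]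
  have hcont : ContinuousAt (fun z => (chartMetric d.ψ t z).det)
      (Function.update (fun _ => 1) k 0) := by
    have h4 : ContinuousAt (fun z => chartMetric d.ψ t z) (Function.update (fun _ => 1) k 0) := by
      refine continuousAt_pi.2 fun a => continuousAt_pi.2 fun b => ?_
      have hsq : ContinuousAt (fun z : Fin n → ℝ => ((t, fun j => z j ^ 2) : ℝ × (Fin n → ℝ)))
          (Function.update (fun _ => 1) k 0) := by
        have : Continuous (fun z : Fin n → ℝ => ((t, fun j => z j ^ 2) : ℝ × (Fin n → ℝ))) := by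
          fun_prop
        exact this.continuousAt
      have e1 : ContinuousAt (fun z : Fin n → ℝ => dx a d.ψ (t, fun j => z j ^ 2))
          (Function.update (fun _ => 1) k 0) :=
        ContinuousAt.comp (f := fun z : Fin n → ℝ => ((t, fun j => z j ^ 2) : ℝ × (Fin n → ℝ)))
          (d.continuousAt_ψ1 a t ht _ (fun j => sq_nonneg _)) hsq
      have e2 : ContinuousAt (fun z : Fin n → ℝ => dx a (dx b d.ψ) (t, fun j => z j ^ 2))
          (Function.update (fun _ => 1) k 0) :=
        ContinuousAt.comp (f := fun z : Fin n → ℝ => ((t, fun j => z j ^ 2) : ℝ × (Fin n → ℝ)))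
          (d.continuousAt_ψ2 a b t ht _ (fun j => sq_nonneg _)) hsq
      change ContinuousAt (fun z : Fin n → ℝ => (if a = b then dx a d.ψ (t, fun j => z j ^ 2) else 0)
        + z a * z b * dx a (dx b d.ψ) (t, fun j => z j ^ 2)) _
      refine ContinuousAt.add ?_ (ContinuousAt.mul (by fun_prop) e2)
      by_cases h : a = b
      · simp only [if_pos h]; exact e1
      · simp only [if_neg h]; exact continuousAt_const
    have h5 : Continuous fun M : Matrix (Fin n) (Fin n) ℝ => M.det := continuous_id.matrix_det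
    exact h5.continuousAt.comp h4
  exact (hcont.tendsto.comp hzt).log (d.pos t ht _).det_pos.ne'

/-- The time derivative of `φ` along the ray `-s ν_i`. -/
theorem dt_ray {t : ℝ} (ht : t ∈ Ioo 0 T) (k : Fin n) {L : ℝ} (hL : HasDerivAt (d.lam k) L t) :
    ∃ c : ℝ, Tendsto (fun s : ℝ => D (1, 0) φ (t, (-s) • F.vec (σ k)) - s * L) atTop (𝓝 c) := by
  classical
  set ρ : ℝ → Fin n → ℝ := fun s => Function.update (fun _ => 1) k (Real.exp (-s)) with hρ
  have ht' : t ∈ Ico 0 T := ⟨ht.1.le, ht.2⟩
  have hρ0 : ∀ s j, 0 ≤ ρ s j := by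
    intro s j
    by_cases hj : j = k
    · subst hj; simp [hρ, (Real.exp_pos _).le]
    · simp [hρ, Function.update_of_ne hj]
  have hlinet : ∀ (x : Fin n → ℝ) (r : ℝ), ((t, x) : ℝ × (Fin n → ℝ)) + r • ((1 : ℝ), (0 : Fin n → ℝ))
      = (t + r, x) := by
    intro x r
    ext1 <;> simp
  have h1 : ∀ s : ℝ, D (1, 0) φ (t, (-s) • F.vec (σ k)) = s * L + D (1, 0) d.ψ (t, ρ s) := by
    intro s
    -- the identity near `t`
    have hev : (fun r : ℝ => φ ((t, (-s) • F.vec (σ k)) + r • ((1 : ℝ), (0 : Fin n → ℝ))))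
        =ᶠ[𝓝 0] fun r : ℝ => s * d.lam k (t + r) +
          d.ψ ((t, ρ s) + r • ((1 : ℝ), (0 : Fin n → ℝ))) := by
      have hI : ∀ᶠ r : ℝ in 𝓝 0, t + r ∈ Ioo 0 T := by
        have : ContinuousAt (fun r : ℝ => t + r) 0 := by fun_prop
        have h7 : Ioo 0 T ∈ 𝓝 (t + 0) := by
          rw [add_zero]
          exact isOpen_Ioo.mem_nhds ht
        exact this.eventually_mem h7
      filter_upwards [hI] with r hr
      have hr' : t + r ∈ Ico 0 T := ⟨hr.1.le, hr.2⟩
      rw [hlinet, hlinet]
      have h2 := d.eqn (t + r) hr' (Pi.single k (-s))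
      rw [F.pt_single] at h2
      rw [h2, d.lam_eq hr']
      have h3 : ∑ j, d.v (t + r) j * (Pi.single k (-s) : Fin n → ℝ) j = -s * d.v (t + r) k := by
        rw [Finset.sum_eq_single k]
        · simp [mul_comm]
        · intro b _ hb
          simp [Pi.single_eq_of_ne hb]
        · simp
      have h4 : (fun j => Real.exp ((Pi.single k (-s) : Fin n → ℝ) j)) = ρ s := by
        ext j
        by_cases hj : j = k
        · subst hj; simp [hρ]
        · simp [hρ, Pi.single_eq_of_ne hj, Function.update_of_ne hj]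
      rw [h3, h4]
      ring
    have hφd : DifferentiableAt ℝ φ ((t, (-s) • F.vec (σ k)) + (0 : ℝ) • ((1 : ℝ), (0 : Fin n → ℝ))) := by
      rw [hlinet, add_zero]
      exact diffAt_of_contDiffOn d.isOpen_U d.smooth_φ (d.mem_U ht' _)
    have hψd : DifferentiableAt ℝ d.ψ ((t, ρ s) + (0 : ℝ) • ((1 : ℝ), (0 : Fin n → ℝ))) := by
      rw [hlinet, add_zero]
      exact diffAt_of_contDiffOn d.isOpen_W d.smooth_ψ (d.mem_W ht' (hρ0 s))
    have e1 := hasDerivAt_line hφd
    have e2 := hasDerivAt_line hψd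
    rw [hlinet, add_zero] at e1 e2
    have e3 : HasDerivAt (fun r : ℝ => s * d.lam k (t + r)) (s * L) 0 := by
      have h5 : HasDerivAt (fun r : ℝ => d.lam k (t + r)) L 0 := by
        have h6 : HasDerivAt (d.lam k) L (t + 0) := by rwa [add_zero]
        exact h6.comp_const_add t 0
      exact h5.const_mul s
    have e4 := e3.fun_add e2
    exact (e1.congr_of_eventuallyEq hev.symm).unique e4
  have h2 : Tendsto (fun s : ℝ => D (1, 0) d.ψ (t, ρ s)) atTop
      (𝓝 (D (1, 0) d.ψ (t, Function.update (fun _ => 1) k 0))) := by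
    have h3 : Tendsto (fun s : ℝ => ((t, ρ s) : ℝ × (Fin n → ℝ))) atTop
        (𝓝 (t, Function.update (fun _ => (1 : ℝ)) k 0)) := by
      refine tendsto_const_nhds.prodMk_nhds ?_
      have h6 : Continuous fun s : ℝ => Function.update (fun _ : Fin n => (1 : ℝ)) k s :=
        continuous_const.update k continuous_id
      exact (h6.tendsto (0 : ℝ)).comp Real.tendsto_exp_neg_atTop_nhds_zero
    have h4 : ContinuousAt (D (1, 0) d.ψ) (t, Function.update (fun _ => (1 : ℝ)) k 0) := by
      refine (diffAt_of_contDiffOn d.isOpen_W (contDiffOn_D d.isOpen_W d.smooth_ψ _)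
        (d.mem_W ht' ?_)).continuousAt
      intro j
      by_cases hj : j = k
      · subst hj; simp
      · simp [Function.update_of_ne hj]
    exact h4.tendsto.comp h3
  refine ⟨_, h2.congr fun s => ?_⟩
  rw [h1 s]
  ring

/-- The drift: if `∂_t φ - log det D²φ` is `a + β x` at the time `t`, then
`β(ν_i) = -λ_i' - 1`. -/
theorem drift_eq {t : ℝ} (ht : t ∈ Ioo 0 T) (k : Fin n) {L : ℝ} (hL : HasDerivAt (d.lam k) L t)
    {a : ℝ} {β : (Fin n → ℝ) →L[ℝ] ℝ} (h : ∀ x : Fin n → ℝ,
      D (1, 0) φ (t, x) = Real.log (hess φ (t, x)).det + a + β x) :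
    β (F.vec (σ k)) + L = -1 := by
  obtain ⟨c1, h1⟩ := d.dt_ray ht k hL
  obtain ⟨c2, h2⟩ := d.tendsto_logdet ⟨ht.1.le, ht.2⟩ k
  have h3 : Tendsto (fun s : ℝ => s * (β (F.vec (σ k)) + L + 1)) atTop (𝓝 (c2 - c1 + a)) := by
    have h4 := (h2.sub h1).add_const a
    refine h4.congr fun s => ?_
    rw [h, map_smul, smul_eq_mul]
    ring
  have h4 : Tendsto (fun s : ℝ => s⁻¹ * (s * (β (F.vec (σ k)) + L + 1))) atTop
      (𝓝 (0 * (c2 - c1 + a))) := tendsto_inv_atTop_zero.mul h3
  have h5 : Tendsto (fun s : ℝ => s⁻¹ * (s * (β (F.vec (σ k)) + L + 1))) atTop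
      (𝓝 (β (F.vec (σ k)) + L + 1)) := by
    refine tendsto_const_nhds.congr' ?_
    filter_upwards [eventually_gt_atTop 0] with s hs
    field_simp
  have h6 := tendsto_nhds_unique h5 h4
  linarith

end ChartData

end Pool.Agent.ToricKRF
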