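import Pool.Agent.Work.MP_a2bf38_gt.Calc

/-!
# One chart: positivity
-/

open scoped ContDiff
open Set

namespace Pool.Agent.ToricKRF

section onechart

variable {n : ℕ} {ψ : ℝ × (Fin n → ℝ) → ℝ} {U : Set (ℝ × (Fin n → ℝ))}

theorem dx_apply (k : Fin n) (f : ℝ × (Fin n → ℝ) → ℝ) (p : ℝ × (Fin n → ℝ)) :
    dx k f p = D (0, Pi.single k 1) f p := rfl

/-- the derivative of `f` in the space direction `w`, in coordinates -/
theorem D_snd_eq_sum (f : ℝ × (Fin n → ℝ) → ℝ) (p : ℝ × (Fin n → ℝ)) (w : Fin n → ℝ) :
    D (0, w) f p = ∑ k, w k * dx k f p := by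
  have h := D_dir_sum_snd Finset.univ f p w (fun k => (Pi.single k (1 : ℝ) : Fin n → ℝ))
  have hw : w = ∑ k, w k • (Pi.single k (1 : ℝ) : Fin n → ℝ) := by
    conv_lhs => rw [← (Pi.basisFun ℝ (Fin n)).sum_repr w]
    simp
  rw [← hw] at h
  exact h

theorem contDiffOn_dx (hU : IsOpen U) (hψ : ContDiffOn ℝ ∞ ψ U) (k : Fin n) :
    ContDiffOn ℝ ∞ (dx k ψ) U := contDiffOn_D hU hψ _

/-- the quadratic form of the metric in the chart -/
theorem chartMetric_form (t : ℝ) (z w : Fin n → ℝ) :
    w ⬝ᵥ (chartMetric ψ t z).mulVec w = (∑ k, w k ^ 2 * dx k ψ (t, fun j => z j ^ 2)) +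
      ∑ k, ∑ l, (z k * w k) * (z l * w l) * dx k (dx l ψ) (t, fun j => z j ^ 2) := by
  simp only [dotProduct, Matrix.mulVec, chartMetric, Matrix.of_apply, add_mul,
    Finset.sum_add_distrib, mul_add, Finset.mul_sum]
  congr 1
  · refine Finset.sum_congr rfl fun k _ => ?_
    rw [Finset.sum_eq_single k]
    · simp only [if_true]; ring
    · intro l _ hl
      rw [if_neg (Ne.symm hl)]; ring
    · intro h; exact absurd (Finset.mem_univ k) h
  · refine Finset.sum_congr rfl fun k _ => Finset.sum_congr rfl fun l _ => ?_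
    ring

theorem chartMetric_form_pos {t : ℝ} {z : Fin n → ℝ} (h : (chartMetric ψ t z).PosDef)
    {w : Fin n → ℝ} (hw : w ≠ 0) : 0 < (∑ k, w k ^ 2 * dx k ψ (t, fun j => z j ^ 2)) +
      ∑ k, ∑ l, (z k * w k) * (z l * w l) * dx k (dx l ψ) (t, fun j => z j ^ 2) := by
  rw [← chartMetric_form]
  simpa using h.dotProduct_mulVec_pos hw

theorem diag_pos {t : ℝ} (hpos : ∀ z, (chartMetric ψ t z).PosDef) {r : Fin n → ℝ}
    (hr : ∀ k, 0 ≤ r k) (k : Fin n) : 0 < dx k ψ (t, r) + r k * dx k (dx k ψ) (t, r) := by
  have h1 := (hpos fun j => √(r j)).diag_pos (i := k)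
  have h2 : (fun j => √(r j) ^ 2) = r := by
    funext j
    exact Real.sq_sqrt (hr j)
  simp only [chartMetric, Matrix.of_apply, if_true, h2] at h1
  rwa [Real.mul_self_sqrt (hr k)] at h1

/-- B1: the first derivatives of the chart potential are positive. -/
theorem psi_pos (hU : IsOpen U) (hψ : ContDiffOn ℝ ∞ ψ U) {t : ℝ}
    (hsub : ∀ r : Fin n → ℝ, (∀ k, 0 ≤ r k) → (t, r) ∈ U)
    (hpos : ∀ z, (chartMetric ψ t z).PosDef) {r : Fin n → ℝ} (hr : ∀ k, 0 ≤ r k) (k : Fin n) :
    0 < dx k ψ (t, r) := by
  rcases (hr k).eq_or_lt with h0 | h0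
  · have := diag_pos hpos hr k
    rwa [← h0, zero_mul, add_zero] at this
  · set p : ℝ × (Fin n → ℝ) := (t, Function.update r k 0) with hp
    set w : ℝ × (Fin n → ℝ) := (0, Pi.single k 1) with hw
    have hline : ∀ s : ℝ, p + s • w = (t, Function.update r k s) := by
      intro s
      simp only [hp, hw, Prod.smul_mk, Prod.mk_add_mk, smul_zero, add_zero]
      congr 1
      funext j
      by_cases hj : j = k
      · subst hj
        simp
      · simp [Function.update_of_ne hj, Pi.single_eq_of_ne hj]
    have hnn : ∀ s : ℝ, 0 ≤ s → ∀ j, 0 ≤ Function.update r k s j := by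
      intro s hs j
      by_cases hj : j = k
      · subst hj
        simpa using hs
      · rw [Function.update_of_ne hj]
        exact hr j
    have hd : ∀ s : ℝ, 0 ≤ s → HasDerivAt (fun s : ℝ => s * dx k ψ (p + s • w))
        (dx k ψ (p + s • w) + s * dx k (dx k ψ) (p + s • w)) s := by
      intro s hs
      have hmem : p + s • w ∈ U := by
        rw [hline]
        exact hsub _ (hnn s hs)
      have h1 := hasDerivAt_line (f := dx k ψ) (p := p) (w := w) (s := s)
        (diffAt_of_contDiffOn hU (contDiffOn_dx hU hψ k) hmem)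
      have h2 := (hasDerivAt_id s).mul h1
      refine h2.congr_deriv ?_
      simp only [id, one_mul]
      rfl
    have hmono : StrictMonoOn (fun s : ℝ => s * dx k ψ (p + s • w)) (Ici 0) := by
      apply strictMonoOn_of_deriv_pos (convex_Ici 0)
      · exact fun s hs => (hd s hs).continuousAt.continuousWithinAt
      · intro s hs
        rw [interior_Ici] at hs
        have hs' : 0 ≤ s := le_of_lt hs
        rw [(hd s hs').deriv, hline]
        have := diag_pos hpos (hnn s hs') k
        rwa [Function.update_self] at this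
    have h1 := hmono (show (0 : ℝ) ∈ Ici (0 : ℝ) from le_refl (0 : ℝ))
      (show r k ∈ Ici (0 : ℝ) from h0.le) h0
    simp only [zero_mul] at h1
    rw [hline, Function.update_eq_self] at h1
    exact (pos_iff_pos_of_mul_pos h1).1 h0

/-- B2: positivity up to the boundary of the chart. -/
theorem L_pos (hU : IsOpen U) (hψ : ContDiffOn ℝ ∞ ψ U) {t : ℝ}
    (hsub : ∀ r : Fin n → ℝ, (∀ k, 0 ≤ r k) → (t, r) ∈ U)
    (hpos : ∀ z, (chartMetric ψ t z).PosDef) (a : ℝ) (c : Fin n → ℝ)
    (h0 : ∀ r : Fin n → ℝ, (∀ k, 0 < r k) → 0 ≤ a + ∑ k, c k * (r k * dx k ψ (t, r)))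
    (hc : ∃ k, c k < 0) {r : Fin n → ℝ} (hr : ∀ k, 0 ≤ r k) :
    0 < a + ∑ k, c k * (r k * dx k ψ (t, r)) := by
  classical
  set L : (Fin n → ℝ) → ℝ := fun r => a + ∑ k, c k * (r k * dx k ψ (t, r)) with hL
  have hdiff : ∀ r : Fin n → ℝ, (∀ k, 0 ≤ r k) → ∀ k, DifferentiableAt ℝ (dx k ψ) (t, r) :=
    fun r hr k => diffAt_of_contDiffOn hU (contDiffOn_dx hU hψ k) (hsub r hr)
  have hcont : ∀ r : Fin n → ℝ, (∀ k, 0 ≤ r k) → ContinuousAt L r := by
    intro r hr
    refine continuousAt_const.add (tendsto_finsetSum _ fun k _ => ?_)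
    have h1 : ContinuousAt (fun r : Fin n → ℝ => dx k ψ (t, r)) r :=
      ContinuousAt.comp (f := fun r : Fin n → ℝ => (t, r)) (hdiff r hr k).continuousAt
        (by fun_prop)
    exact continuousAt_const.mul ((continuous_apply k).continuousAt.mul h1)
  -- nonnegativity on the closed orthant
  have hnonneg : ∀ r : Fin n → ℝ, (∀ k, 0 ≤ r k) → 0 ≤ L r := by
    intro r hr
    have h1 : Filter.Tendsto (fun ε : ℝ => L (fun k => r k + ε)) (nhdsWithin 0 (Ioi 0))
        (nhds (L r)) := by
      have h2 : Filter.Tendsto (fun ε : ℝ => (fun k => r k + ε : Fin n → ℝ)) (nhds 0)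
          (nhds r) := by
        have : Continuous (fun ε : ℝ => (fun k => r k + ε : Fin n → ℝ)) := by fun_prop
        have h3 := this.tendsto 0
        simpa using h3
      exact ((hcont r hr).tendsto.comp h2).mono_left nhdsWithin_le_nhds
    refine ge_of_tendsto h1 ?_
    filter_upwards [self_mem_nhdsWithin] with ε hε
    exact h0 _ fun k => by have := hr k; have : 0 < ε := hε; linarith
  -- the vertex
  have ha : 0 < a := by
    obtain ⟨k, hk⟩ := hc
    have h1 := hnonneg 0 (fun _ => le_refl _)
    have h2 : L 0 = a := by simp [hL]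
    rw [h2] at h1
    rcases h1.eq_or_lt with h3 | h3
    · exfalso
      have h4 := hnonneg (Pi.single k 1) (fun j => by
        by_cases hj : j = k
        · subst hj; simp
        · simp [Pi.single_eq_of_ne hj])
      have h5 : L (Pi.single k 1) = c k * dx k ψ (t, Pi.single k 1) := by
        simp only [hL]
        rw [← h3, zero_add, Finset.sum_eq_single k]
        · simp
        · intro l _ hl
          simp [Pi.single_eq_of_ne hl]
        · intro h; exact absurd (Finset.mem_univ k) h
      rw [h5] at h4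
      have h6 := psi_pos hU hψ hsub hpos (r := Pi.single k 1) (fun j => by
        by_cases hj : j = k
        · subst hj; simp
        · simp [Pi.single_eq_of_ne hj]) k
      have h7 : c k * dx k ψ (t, Pi.single k 1) < 0 := mul_neg_of_neg_of_pos hk h6
      linarith
    · exact h3
  -- the general point
  rcases (hnonneg r hr).eq_or_lt with h1 | h1
  · exfalso
    -- the curve
    set p : ℝ × (Fin n → ℝ) := (t, r) with hp
    set u : Fin n → ℝ := fun k => r k * c k with hu
    set w : ℝ × (Fin n → ℝ) := (0, u) with hw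
    have hline : ∀ ε : ℝ, p + ε • w = (t, fun k => r k * (1 + ε * c k)) := by
      intro ε
      simp only [hp, hw, hu, Prod.smul_mk, Prod.mk_add_mk, smul_zero, add_zero]
      congr 1
      funext j
      simp only [Pi.add_apply, Pi.smul_apply, smul_eq_mul]
      ring
    have hline' : ∀ ε : ℝ, r + ε • u = fun k => r k * (1 + ε * c k) := by
      intro ε
      have := hline ε
      simp only [hp, hw, Prod.smul_mk, Prod.mk_add_mk] at this
      exact (Prod.mk.inj this).2
    have hd : HasDerivAt (fun ε : ℝ => a + ∑ k, c k * ((r k * (1 + ε * c k)) * dx k ψ (p + ε • w)))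
        (∑ k, c k * ((r k * c k) * dx k ψ p + r k * ∑ l, (r l * c l) * dx l (dx k ψ) p)) 0 := by
      have h2 : ∀ k ∈ Finset.univ, HasDerivAt
          (fun ε : ℝ => c k * ((r k * (1 + ε * c k)) * dx k ψ (p + ε • w)))
          (c k * ((r k * c k) * dx k ψ p + r k * ∑ l, (r l * c l) * dx l (dx k ψ) p)) 0 := by
        intro k _
        have h3 : HasDerivAt (fun ε : ℝ => dx k ψ (p + ε • w)) (D w (dx k ψ) p) 0 := by
          have := hasDerivAt_line (f := dx k ψ) (p := p) (w := w) (s := 0) (by
            rw [zero_smul, add_zero]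
            exact hdiff r hr k)
          rwa [zero_smul, add_zero] at this
        have h4 : HasDerivAt (fun ε : ℝ => r k * (1 + ε * c k)) (r k * c k) 0 := by
          have := (((hasDerivAt_id (0 : ℝ)).mul_const (c k)).const_add 1).const_mul (r k)
          simpa using this
        have h5 := (h4.mul h3).const_mul (c k)
        refine h5.congr_deriv ?_
        rw [hw, D_snd_eq_sum]
        simp only [zero_smul, add_zero, zero_mul, mul_one, hu]
      exact (HasDerivAt.fun_sum h2).const_add a
    have hmin : IsLocalMin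
        (fun ε : ℝ => a + ∑ k, c k * ((r k * (1 + ε * c k)) * dx k ψ (p + ε • w))) 0 := by
      have h2 : ∀ᶠ ε : ℝ in nhds 0, ∀ k, 0 ≤ 1 + ε * c k := by
        rw [Filter.eventually_all]
        intro k
        have h3 : Continuous (fun ε : ℝ => 1 + ε * c k) := by fun_prop
        have h4 : (fun ε : ℝ => 1 + ε * c k) 0 > 0 := by simp
        filter_upwards [h3.continuousAt.eventually (lt_mem_nhds h4)] with ε hε
        exact le_of_lt hε
      filter_upwards [h2] with ε hε
      have h5 : L r = a + ∑ k, c k * ((r k * (1 + 0 * c k)) * dx k ψ (p + (0 : ℝ) • w)) := by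
        simp [hL, hp]
      rw [← h5, ← h1]
      have h6 := hnonneg (fun k => r k * (1 + ε * c k)) (fun k => mul_nonneg (hr k) (hε k))
      simp only [hL] at h6
      rw [hline]
      exact h6
    have hzero := hmin.hasDerivAt_eq_zero hd
    -- the quadratic form
    set z : Fin n → ℝ := fun k => √(r k) with hz
    have hz2 : (fun j => z j ^ 2) = r := by
      funext j
      exact Real.sq_sqrt (hr j)
    by_cases hv : (fun k => z k * c k) = 0
    · -- all `r_k c_k` vanish
      have h2 : ∀ k, c k * (r k * dx k ψ (t, r)) = 0 := by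
        intro k
        have h3 := congrFun hv k
        simp only [Pi.zero_apply] at h3
        have h4 : r k * c k = 0 := by
          have : r k = z k * z k := (Real.mul_self_sqrt (hr k)).symm
          rw [this, mul_assoc, h3, mul_zero]
        calc c k * (r k * dx k ψ (t, r)) = (r k * c k) * dx k ψ (t, r) := by ring
          _ = 0 := by rw [h4, zero_mul]
      have h3 : L r = a := by
        simp only [hL]
        rw [Finset.sum_eq_zero fun k _ => h2 k, add_zero]
      rw [h3] at h1
      linarith
    · have h2 := chartMetric_form_pos (hpos z) hv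
      rw [hz2] at h2
      have h3 : (∑ k, (z k * c k) ^ 2 * dx k ψ (t, r)) +
          ∑ k, ∑ l, (z k * (z k * c k)) * (z l * (z l * c l)) * dx k (dx l ψ) (t, r) =
          ∑ k, c k * ((r k * c k) * dx k ψ p + r k * ∑ l, (r l * c l) * dx l (dx k ψ) p) := by
        have e1 : ∀ k, z k * z k = r k := fun k => Real.mul_self_sqrt (hr k)
        simp only [mul_add, Finset.sum_add_distrib]
        congr 1
        · refine Finset.sum_congr rfl fun k _ => ?_
          rw [← e1 k, hp]; ring
        · rw [Finset.sum_comm]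
          refine Finset.sum_congr rfl fun k _ => ?_
          rw [Finset.mul_sum, Finset.mul_sum]
          refine Finset.sum_congr rfl fun l _ => ?_
          rw [← e1 k, ← e1 l, hp]; ring
      rw [h3, hzero] at h2
      exact lt_irrefl _ h2
  · exact h1

end onechart

end Pool.Agent.ToricKRF
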