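import Pool.Agent.Work.MP_a2bf38_gt.Calc

/-!
# Chart coordinates: points and derivatives
-/

open scoped ContDiff ENNReal
open Set Filter Topology

namespace Pool.Agent.ToricKRF

variable {n : ℕ} {ι : Type} (F : SmoothCompleteFan n ι)

namespace SmoothCompleteFan

/-- Every point lies in the image of a closed unit polydisc of some chart. -/
theorem exists_chart (x : Fin n → ℝ) :
    ∃ σ ∈ F.cones, ∃ y : Fin n → ℝ, (∀ k, y k ≤ 0) ∧ F.pt σ y = x := by
  obtain ⟨σ, hσ, c, hc, hx⟩ := F.complete (-x)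
  refine ⟨σ, hσ, -c, fun k => by simpa using hc k, ?_⟩
  ext j
  have h1 := hx j
  unfold SmoothCompleteFan.pt SmoothCompleteFan.vec
  simp only [Finset.sum_apply, Pi.smul_apply, smul_eq_mul, Pi.neg_apply, neg_mul,
    Finset.sum_neg_distrib] at h1 ⊢
  linarith

/-- `F.pt σ` as a linear map -/
noncomputable def ptL (σ : Fin n → ι) : (Fin n → ℝ) →L[ℝ] (Fin n → ℝ) :=
  ∑ k, (ContinuousLinearMap.proj (R := ℝ) (φ := fun _ : Fin n => ℝ) k).smulRight (F.vec (σ k))

theorem ptL_apply (σ : Fin n → ι) (y : Fin n → ℝ) : ptL F σ y = F.pt σ y := by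
  unfold ptL SmoothCompleteFan.pt
  simp

theorem pt_add (σ : Fin n → ι) (y z : Fin n → ℝ) : F.pt σ (y + z) = F.pt σ y + F.pt σ z := by
  simp only [← ptL_apply, map_add]

theorem pt_smul (σ : Fin n → ι) (c : ℝ) (y : Fin n → ℝ) : F.pt σ (c • y) = c • F.pt σ y := by
  simp only [← ptL_apply, map_smul]

theorem pt_zero (σ : Fin n → ι) : F.pt σ 0 = 0 := by
  simp only [← ptL_apply, map_zero]

theorem pt_single (σ : Fin n → ι) (k : Fin n) : F.pt σ (Pi.single k 1) = F.vec (σ k) := by
  unfold SmoothCompleteFan.pt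
  rw [Finset.sum_eq_single k]
  · simp
  · intro j _ hj; simp [hj]
  · intro h; exact absurd (Finset.mem_univ k) h

/-- the matrix of `F.pt σ` -/
theorem pt_eq_vecMul (σ : Fin n → ι) (y : Fin n → ℝ) :
    F.pt σ y = Matrix.vecMul y (Matrix.of fun k j => (F.ray (σ k) j : ℝ)) := by
  ext j
  unfold SmoothCompleteFan.pt SmoothCompleteFan.vec
  simp [Matrix.vecMul, dotProduct]

theorem det_ne_zero {σ : Fin n → ι} (hσ : σ ∈ F.cones) :
    (Matrix.of fun k j => (F.ray (σ k) j : ℝ)).det ≠ 0 := by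
  have h1 := F.unimodular σ hσ
  have h2 : (Matrix.of fun k j => (F.ray (σ k) j : ℝ))
      = (Matrix.of fun k j => F.ray (σ k) j).map (Int.castRingHom ℝ) := by
    ext k j; simp
  have h3 : (Matrix.of fun k j => (F.ray (σ k) j : ℝ)).det
      = ((Matrix.of fun k j => F.ray (σ k) j).det : ℝ) := by
    rw [h2, ← RingHom.mapMatrix_apply, ← RingHom.map_det]; simp
  rw [h3]
  exact_mod_cast h1.ne_zero

theorem pt_injective {σ : Fin n → ι} (hσ : σ ∈ F.cones) : Function.Injective (F.pt σ) := by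
  have h := Matrix.vecMul_injective_iff_isUnit.mpr
    ((Matrix.isUnit_iff_isUnit_det _).mpr (isUnit_iff_ne_zero.mpr (det_ne_zero F hσ)))
  intro y z hyz
  rw [pt_eq_vecMul, pt_eq_vecMul] at hyz
  exact h hyz

theorem pt_surjective {σ : Fin n → ι} (hσ : σ ∈ F.cones) : Function.Surjective (F.pt σ) := by
  have h : Function.Injective (ptL F σ).toLinearMap := fun y z hyz =>
    pt_injective F hσ (by simpa [ptL_apply] using hyz)
  have h2 := LinearMap.injective_iff_surjective.mp h
  intro x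
  obtain ⟨y, hy⟩ := h2 x
  exact ⟨y, by rw [← ptL_apply]; exact hy⟩

theorem cone_injective {σ : Fin n → ι} (hσ : σ ∈ F.cones) : Function.Injective σ := by
  intro k l hkl
  by_contra hne
  have h1 : F.pt σ (Pi.single k 1) = F.pt σ (Pi.single l 1) := by
    rw [pt_single, pt_single, hkl]
  have h2 := pt_injective F hσ h1
  have h3 := congrFun h2 k
  simp [hne] at h3

end SmoothCompleteFan

/-! ### derivatives in a chart -/

section Deriv

variable {F} {T : ℝ} {φ ψ : ℝ × (Fin n → ℝ) → ℝ} {U U' : Set (ℝ × (Fin n → ℝ))}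
  {σ : Fin n → ι} {v : Fin n → ℝ} {t : ℝ}

/-- `∂_k` of a space-time function at a fixed time -/
theorem hasFDerivAt_slice {f : ℝ × (Fin n → ℝ) → ℝ} {x : Fin n → ℝ}
    (hf : DifferentiableAt ℝ f (t, x)) :
    HasFDerivAt (fun y => f (t, y))
      ((fderiv ℝ f (t, x)).comp (ContinuousLinearMap.inr ℝ ℝ (Fin n → ℝ))) x := by
  have h1 : HasFDerivAt (fun y : Fin n → ℝ => ((t, y) : ℝ × (Fin n → ℝ)))
      (ContinuousLinearMap.inr ℝ ℝ (Fin n → ℝ)) x := by
    exact (hasFDerivAt_const t x).prodMk (hasFDerivAt_id (𝕜 := ℝ) x)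
  exact hf.hasFDerivAt.comp x h1

theorem hasFDerivAt_exp (y : Fin n → ℝ) :
    HasFDerivAt (fun y : Fin n → ℝ => fun k => Real.exp (y k))
      (ContinuousLinearMap.pi fun k => Real.exp (y k) •
        ContinuousLinearMap.proj (R := ℝ) (φ := fun _ : Fin n => ℝ) k) y := by
  rw [hasFDerivAt_pi]
  intro k
  exact (hasFDerivAt_apply (𝕜 := ℝ) k y).exp

theorem diffAt_exp {f : ℝ × (Fin n → ℝ) → ℝ} {y : Fin n → ℝ}
    (hf : DifferentiableAt ℝ f (t, fun k => Real.exp (y k))) :
    DifferentiableAt ℝ (fun q : Fin n → ℝ => f (t, fun k => Real.exp (q k))) y := by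
  have h1 := (hasFDerivAt_slice hf).comp y (hasFDerivAt_exp y)
  exact h1.differentiableAt

/-- derivative of `y ↦ f (t, exp y)` -/
theorem D_exp {f : ℝ × (Fin n → ℝ) → ℝ} {y : Fin n → ℝ}
    (hf : DifferentiableAt ℝ f (t, fun k => Real.exp (y k))) (w : Fin n → ℝ) :
    D w (fun y : Fin n → ℝ => f (t, fun k => Real.exp (y k))) y
      = ∑ k, w k * (Real.exp (y k) * dx k f (t, fun k => Real.exp (y k))) := by
  have h1 := (hasFDerivAt_slice hf).comp y (hasFDerivAt_exp y)
  have h2 : (fun y : Fin n → ℝ => f (t, fun k => Real.exp (y k)))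
      = (fun y => f (t, y)) ∘ (fun y : Fin n → ℝ => fun k => Real.exp (y k)) := rfl
  simp only [D]
  rw [h2, h1.fderiv]
  have h3 : (fun k => Real.exp (y k) * w k)
      = ∑ k, (w k * Real.exp (y k)) • (Pi.single k (1:ℝ) : Fin n → ℝ) := by
    ext j; simp [Finset.sum_apply, Pi.single_apply, mul_comm]
  have h4 : (fderiv ℝ f (t, fun k => Real.exp (y k)))
      ((0:ℝ), fun k => Real.exp (y k) * w k)
      = D (0, ∑ k, (w k * Real.exp (y k)) • (Pi.single k (1:ℝ) : Fin n → ℝ)) f
        (t, fun k => Real.exp (y k)) := by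
    rw [← h3]; rfl
  have h5 : (((fderiv ℝ f (t, fun k => Real.exp (y k))).comp
      (ContinuousLinearMap.inr ℝ ℝ (Fin n → ℝ))).comp
      (ContinuousLinearMap.pi fun k => Real.exp (y k) •
        ContinuousLinearMap.proj (R := ℝ) (φ := fun _ : Fin n => ℝ) k)) w
      = (fderiv ℝ f (t, fun k => Real.exp (y k))) ((0:ℝ), fun k => Real.exp (y k) * w k) := by
    simp only [ContinuousLinearMap.comp_apply, ContinuousLinearMap.inr_apply]
    congr 1
  rw [h5, h4, D_dir_sum_snd]
  refine Finset.sum_congr rfl fun k _ => ?_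
  unfold dx
  ring

variable (hU : IsOpen U) (hφ : ContDiffOn ℝ ∞ φ U) (hUt : ∀ x, (t, x) ∈ U)
  (hU' : IsOpen U') (hψ : ContDiffOn ℝ ∞ ψ U')
  (hU't : ∀ r : Fin n → ℝ, (∀ k, 0 ≤ r k) → (t, r) ∈ U')
  (hid : ∀ y : Fin n → ℝ,
      φ (t, F.pt σ y) = ∑ k, v k * y k + ψ (t, fun k => Real.exp (y k)))

include hU hφ hUt hU' hψ hU't hid

/-- the first derivatives of the potential in a chart -/
theorem D_chart (w y : Fin n → ℝ) :
    D (0, F.pt σ w) φ (t, F.pt σ y)
      = ∑ k, w k * (v k + Real.exp (y k) * dx k ψ (t, fun k => Real.exp (y k))) := by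
  have hp : ∀ y : Fin n → ℝ, (t, fun k => Real.exp (y k)) ∈ U' := fun y =>
    hU't _ fun k => (Real.exp_pos _).le
  rw [D_slice (diffAt_of_contDiffOn hU hφ (hUt _))]
  have h1 : DifferentiableAt ℝ (fun x => φ (t, x)) (SmoothCompleteFan.ptL F σ y) :=
    (hasFDerivAt_slice (diffAt_of_contDiffOn hU hφ (hUt _))).differentiableAt
  have h2 := D_comp_linear (SmoothCompleteFan.ptL F σ) h1 w
  simp only [SmoothCompleteFan.ptL_apply] at h2
  rw [← h2]
  have h3 : (fun q : Fin n → ℝ => φ (t, F.pt σ q))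
      = fun q => ∑ k, v k * q k + ψ (t, fun k => Real.exp (q k)) := funext hid
  have h4 : DifferentiableAt ℝ (fun q : Fin n → ℝ => ∑ k, v k * q k) y := by fun_prop
  have h5 : DifferentiableAt ℝ (fun q : Fin n → ℝ => ψ (t, fun k => Real.exp (q k))) y :=
    diffAt_exp (diffAt_of_contDiffOn hU' hψ (hp y))
  rw [h3, D_add h4 h5, D_exp (diffAt_of_contDiffOn hU' hψ (hp y))]
  have h6 : D w (fun q : Fin n → ℝ => ∑ k, v k * q k) y = ∑ k, v k * w k := by
    rw [D_sum _ (fun k _ => by fun_prop)]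
    refine Finset.sum_congr rfl fun k _ => ?_
    rw [D_const_mul _ (by fun_prop)]
    congr 1
    simp only [D]
    rw [(hasFDerivAt_apply (𝕜 := ℝ) k y).fderiv]
    simp
  rw [h6, ← Finset.sum_add_distrib]
  exact Finset.sum_congr rfl fun k _ => by ring

/-- the second derivatives of the potential in a chart -/
theorem D_D_chart (w w' y : Fin n → ℝ) :
    D (0, F.pt σ w) (D (0, F.pt σ w') φ) (t, F.pt σ y)
      = ∑ k, ∑ l, w k * w' l *
        ((if k = l then Real.exp (y k) * dx k ψ (t, fun k => Real.exp (y k)) else 0) +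
          Real.exp (y k) * Real.exp (y l) * dx k (dx l ψ) (t, fun k => Real.exp (y k))) := by
  have hp : ∀ y : Fin n → ℝ, (t, fun k => Real.exp (y k)) ∈ U' := fun y =>
    hU't _ fun k => (Real.exp_pos _).le
  have hDφ := contDiffOn_D hU hφ ((0:ℝ), F.pt σ w')
  rw [D_slice (diffAt_of_contDiffOn hU hDφ (hUt _))]
  have h1 : DifferentiableAt ℝ (fun x => D (0, F.pt σ w') φ (t, x))
      (SmoothCompleteFan.ptL F σ y) :=
    (hasFDerivAt_slice (diffAt_of_contDiffOn hU hDφ (hUt _))).differentiableAt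
  have h2 := D_comp_linear (SmoothCompleteFan.ptL F σ) h1 w
  simp only [SmoothCompleteFan.ptL_apply] at h2
  rw [← h2]
  have h3 : (fun q : Fin n → ℝ => D (0, F.pt σ w') φ (t, F.pt σ q))
      = fun q => ∑ l, w' l * (v l + Real.exp (q l) * dx l ψ (t, fun k => Real.exp (q k))) :=
    funext fun q => D_chart hU hφ hUt hU' hψ hU't hid w' q
  have hψl : ∀ l, ContDiffOn ℝ ∞ (dx l ψ) U' := fun l => contDiffOn_D hU' hψ _
  have h5 : ∀ l, DifferentiableAt ℝ
      (fun q : Fin n → ℝ => dx l ψ (t, fun k => Real.exp (q k))) y := fun l =>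
    diffAt_exp (diffAt_of_contDiffOn hU' (hψl l) (hp y))
  have h6 : ∀ l : Fin n, DifferentiableAt ℝ (fun q : Fin n → ℝ => Real.exp (q l)) y := fun l =>
    by fun_prop
  have h7 : ∀ l : Fin n, D w (fun q : Fin n → ℝ => Real.exp (q l)) y = Real.exp (y l) * w l := by
    intro l
    simp only [D]
    rw [((hasFDerivAt_apply (𝕜 := ℝ) l y).exp).fderiv]
    simp
  rw [h3, D_sum _ (fun l _ => ((((h6 l).fun_mul (h5 l)).const_add (v l)).const_mul (w' l)))]
  have h8 : ∀ l, D w (fun q : Fin n → ℝ => w' l * (v l + Real.exp (q l) *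
      dx l ψ (t, fun k => Real.exp (q k)))) y
      = ∑ k, w k * w' l *
        ((if k = l then Real.exp (y k) * dx k ψ (t, fun k => Real.exp (y k)) else 0) +
          Real.exp (y k) * Real.exp (y l) * dx k (dx l ψ) (t, fun k => Real.exp (y k))) := by
    intro l
    rw [D_const_mul _ (((h6 l).fun_mul (h5 l)).const_add (v l)),
      D_add (differentiableAt_const _) ((h6 l).fun_mul (h5 l)), D_const, zero_add,
      D_mul (h6 l) (h5 l), h7, D_exp (diffAt_of_contDiffOn hU' (hψl l) (hp y))]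
    have e1 : ∑ k, w k * w' l *
        ((if k = l then Real.exp (y k) * dx k ψ (t, fun k => Real.exp (y k)) else 0) +
          Real.exp (y k) * Real.exp (y l) * dx k (dx l ψ) (t, fun k => Real.exp (y k)))
        = w l * w' l * (Real.exp (y l) * dx l ψ (t, fun k => Real.exp (y k)))
          + ∑ k, w k * w' l * (Real.exp (y k) * Real.exp (y l) *
            dx k (dx l ψ) (t, fun k => Real.exp (y k))) := by
      simp_rw [mul_add]
      rw [Finset.sum_add_distrib]
      congr 1
      rw [Finset.sum_eq_single l]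
      · simp
      · intro k _ hk; simp [hk]
      · intro h; exact absurd (Finset.mem_univ l) h
    rw [e1, mul_add, Finset.mul_sum, Finset.mul_sum, add_comm]
    congr 1
    · ring
    · exact Finset.sum_congr rfl fun k _ => by ring
  simp_rw [h8]
  rw [Finset.sum_comm]

theorem D_D_chart_metric (w w' y : Fin n → ℝ) :
    D (0, F.pt σ w) (D (0, F.pt σ w') φ) (t, F.pt σ y)
      = ∑ k, ∑ l, (w k * Real.exp (y k / 2)) * (w' l * Real.exp (y l / 2)) *
        chartMetric ψ t (fun k => Real.exp (y k / 2)) k l := by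
  rw [D_D_chart hU hφ hUt hU' hψ hU't hid]
  have hr : (fun j => Real.exp (y j / 2) ^ 2) = fun j => Real.exp (y j) := by
    funext j
    rw [← Real.exp_nat_mul]; congr 1; push_cast; ring
  have hr' : ∀ j, Real.exp (y j) = Real.exp (y j / 2) * Real.exp (y j / 2) := by
    intro j; rw [← Real.exp_add]; congr 1; ring
  refine Finset.sum_congr rfl fun k _ => Finset.sum_congr rfl fun l _ => ?_
  unfold chartMetric
  simp only [Matrix.of_apply]
  rw [hr]
  by_cases h : k = l
  · subst h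
    simp only [if_true]
    rw [hr' k]; ring
  · simp only [h, if_false]
    rw [hr' k, hr' l]; ring

end Deriv

end Pool.Agent.ToricKRF
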