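import Pool.Agent.Work.MP_a2bf38_gt.Base

/-!
# Torus-invariant Kähler-Ricci flows on compact toric manifolds: definitions

A compact toric manifold of complex dimension `n` is given by a smooth complete fan in `ℝ^n`
(`SmoothCompleteFan`).  Its open orbit is `(ℂ^*)^n`; we write a point of it as
`(exp (x_j / 2 + i θ_j))_j` with `x, θ : Fin n → ℝ`, `θ` modulo `2π ℤ^n`.  The chart `ℂ^n` of the
maximal cone `σ`, spanned by the rays `ν_{σ k}`, has the coordinates `z_k` with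
`|z_k|^2 = exp y_k` for `x = ∑ k, y_k ν_{σ k}`.

A torus-invariant family of Kähler metrics, `t ∈ [0,T)`, is `ω(t) = i ∂ ∂bar φ(t, x)` on the open
orbit, so that `g_{j kbar} = ∂_j ∂_k φ` in the coordinates `w = x / 2 + i θ`; it extends to a Kähler
metric on the compact manifold, smoothly in `t`, exactly if for each maximal cone `σ`
`φ(t, ∑ y_k ν_{σ k}) = ∑ v_k(t) y_k + ψ(t, exp y)` with `ψ = ψ(t, r)` smooth for `t ∈ [0,T)`,
`r ∈ [0,∞)^n`, and `∂_{r_k} ψ δ_{kl} + z_k z_l ∂_{r_k} ∂_{r_l} ψ`, taken at `r = z^2`, positive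
definite for all real `z` (this matrix is the metric in the chart of `σ`, at a point whose
coordinates have been made real by an element of the compact torus).
-/

open scoped ContDiff ENNReal

namespace Pool.Agent.ToricKRF

/-- The time derivative of a function of `(t, x)`. -/
noncomputable def dt {n : ℕ} (f : ℝ × (Fin n → ℝ) → ℝ) : ℝ × (Fin n → ℝ) → ℝ :=
  D (1, 0) f

/-- The partial derivative in the `k`-th space variable of a function of `(t, x)`. -/
noncomputable def dx {n : ℕ} (k : Fin n) (f : ℝ × (Fin n → ℝ) → ℝ) : ℝ × (Fin n → ℝ) → ℝ :=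
  D (0, Pi.single k 1) f

/-- `f` is smooth on `[0,T) × S`, up to the boundary: it is smooth on an open set containing
`[0,T) × S`. -/
def SmoothOn {n : ℕ} (T : ℝ) (S : Set (Fin n → ℝ)) (f : ℝ × (Fin n → ℝ) → ℝ) : Prop :=
  ∃ U : Set (ℝ × (Fin n → ℝ)), IsOpen U ∧ Set.Ico 0 T ×ˢ S ⊆ U ∧ ContDiffOn ℝ ∞ f U

/-- The matrix `∂_k ∂_l φ` of the metric on the open orbit. -/
noncomputable def hess {n : ℕ} (φ : ℝ × (Fin n → ℝ) → ℝ) (p : ℝ × (Fin n → ℝ)) :
    Matrix (Fin n) (Fin n) ℝ :=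
  Matrix.of fun k l => dx k (dx l φ) p

/-- The matrix of the metric in a chart `ℂ^n`, at a point with real coordinates `z`, for a
potential `ψ(t, r)` with `r_k = |z_k|^2`. -/
noncomputable def chartMetric {n : ℕ} (ψ : ℝ × (Fin n → ℝ) → ℝ) (t : ℝ) (z : Fin n → ℝ) :
    Matrix (Fin n) (Fin n) ℝ :=
  Matrix.of fun k l => (if k = l then dx k ψ (t, fun j => z j ^ 2) else 0) +
    z k * z l * dx k (dx l ψ) (t, fun j => z j ^ 2)

/-- `φ(t, x)`, `t ∈ [0,T)`, is the potential on the open orbit of a smooth family of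
torus-invariant Kähler metrics on the compact toric manifold of the fan `F`. -/
structure IsToricKahlerFamily {n : ℕ} {ι : Type} (F : SmoothCompleteFan n ι) (T : ℝ)
    (φ : ℝ × (Fin n → ℝ) → ℝ) : Prop where
  smooth : SmoothOn T Set.univ φ
  extends_chart : ∀ σ ∈ F.cones, ∃ (v : ℝ → Fin n → ℝ) (ψ : ℝ × (Fin n → ℝ) → ℝ),
    SmoothOn T {r | ∀ k, 0 ≤ r k} ψ ∧
    (∀ t ∈ Set.Ico 0 T, ∀ y : Fin n → ℝ,
      φ (t, F.pt σ y) = ∑ k, v t k * y k + ψ (t, fun k => Real.exp (y k))) ∧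
    ∀ t ∈ Set.Ico 0 T, ∀ z : Fin n → ℝ, (chartMetric ψ t z).PosDef

/-- `φ(t, x)`, `t ∈ [0,T)`, is the potential on the open orbit of a torus-invariant solution of the
Kähler-Ricci flow `∂ω/∂t = -Ric(ω) = i ∂ ∂bar log det g` on the compact toric manifold of `F`. -/
structure IsToricKRF {n : ℕ} {ι : Type} (F : SmoothCompleteFan n ι) (T : ℝ)
    (φ : ℝ × (Fin n → ℝ) → ℝ) : Prop extends IsToricKahlerFamily F T φ where
  flow : ∀ t ∈ Set.Ioo 0 T, ∀ (x : Fin n → ℝ) (k l : Fin n),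
    dt (fun p => hess φ p k l) (t, x) = dx k (dx l (fun p => Real.log (hess φ p).det)) (t, x)

/-- The squared length, for the Riemannian metric at time `t`, of the tangent vector of the open
orbit with the `x`-component `u` and the `θ`-component `η`, at a point with the coordinate `x`:
`2 ∑ g_{j kbar} w_j wbar_k` for `w = u / 2 + i η`. -/
noncomputable def normSq {n : ℕ} (φ : ℝ × (Fin n → ℝ) → ℝ) (t : ℝ) (x u η : Fin n → ℝ) : ℝ :=
  (1 / 2) * ∑ k, ∑ l, hess φ (t, x) k l * u k * u l + 2 * ∑ k, ∑ l, hess φ (t, x) k l * η k * η l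

/-- The length at time `t` of the curve `γ : [0,1] → ℝ^n × ℝ^n`, `γ = (x, θ)`. -/
noncomputable def length {n : ℕ} (φ : ℝ × (Fin n → ℝ) → ℝ) (t : ℝ)
    (γ : ℝ → (Fin n → ℝ) × (Fin n → ℝ)) : ℝ :=
  ∫ s in (0 : ℝ)..1, √(normSq φ t (γ s).1 (deriv γ s).1 (deriv γ s).2)

/-- `γ` is a `C^1` curve on `[0,1]` in the open orbit from `p` to `q`, points `(x, θ)` with `θ`
modulo `2π ℤ^n`. -/
def Joins {n : ℕ} (γ : ℝ → (Fin n → ℝ) × (Fin n → ℝ)) (p q : (Fin n → ℝ) × (Fin n → ℝ)) : Prop :=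
  ContDiffOn ℝ 1 γ (Set.Icc 0 1) ∧ γ 0 = p ∧
    ∃ m : Fin n → ℤ, γ 1 = (q.1, fun j => q.2 j + 2 * Real.pi * m j)

/-- The distance at time `t` of two points of the open orbit: the infimum of the lengths of the
`C^1` curves in the open orbit that join them. -/
noncomputable def orbitDist {n : ℕ} (φ : ℝ × (Fin n → ℝ) → ℝ) (t : ℝ)
    (p q : (Fin n → ℝ) × (Fin n → ℝ)) : ℝ≥0∞ :=
  ⨅ (γ : ℝ → (Fin n → ℝ) × (Fin n → ℝ)) (_ : Joins γ p q), ENNReal.ofReal (length φ t γ)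

/-- The diameter at time `t`. -/
noncomputable def diam {n : ℕ} (φ : ℝ × (Fin n → ℝ) → ℝ) (t : ℝ) : ℝ≥0∞ :=
  ⨆ (p : (Fin n → ℝ) × (Fin n → ℝ)) (q : (Fin n → ℝ) × (Fin n → ℝ)), orbitDist φ t p q

end Pool.Agent.ToricKRF
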