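import Mathlib

/-!
# The gradient map of a strictly convex function

For `f : E → ℝ` of class `C^2` with positive definite second derivative, the derivative
`fderiv ℝ f : E → E →L[ℝ] ℝ` is injective, its range contains the segment between any two of its
values, and the preimage of such a segment is a `C^1` path.
-/

namespace Pool.Agent.ToricKRF

open Set Filter Topology

variable {E : Type*} [NormedAddCommGroup E] [NormedSpace ℝ E]

section Lines

variable {f : E → ℝ} (hf : ContDiff ℝ 2 f)

include hf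

theorem contDiff_fderiv_one : ContDiff ℝ 1 (fderiv ℝ f) :=
  hf.fderiv_right (by norm_num)

theorem hasFDerivAt_fderiv (x : E) :
    HasFDerivAt (fderiv ℝ f) (fderiv ℝ (fderiv ℝ f) x) x :=
  ((contDiff_fderiv_one hf).differentiable (by norm_num) x).hasFDerivAt

theorem hasDerivAt_fun_line (x v : E) (s : ℝ) :
    HasDerivAt (fun s : ℝ => f (x + s • v)) (fderiv ℝ f (x + s • v) v) s := by
  have h1 : HasFDerivAt f (fderiv ℝ f (x + s • v)) (x + s • v) :=
    (hf.differentiable (by norm_num) _).hasFDerivAt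
  have h2 : HasDerivAt (fun s : ℝ => x + s • v) v s := by
    simpa using ((hasDerivAt_id s).smul_const v).const_add x
  exact h1.comp_hasDerivAt s h2

theorem hasDerivAt_grad_line (x v w : E) (s : ℝ) :
    HasDerivAt (fun s : ℝ => fderiv ℝ f (x + s • v) w)
      (fderiv ℝ (fderiv ℝ f) (x + s • v) v w) s := by
  have h1 := hasFDerivAt_fderiv hf (x + s • v)
  have h2 : HasDerivAt (fun s : ℝ => x + s • v) v s := by
    simpa using ((hasDerivAt_id s).smul_const v).const_add x
  have h3 : HasDerivAt (fun s : ℝ => fderiv ℝ f (x + s • v))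
      (fderiv ℝ (fderiv ℝ f) (x + s • v) v) s := h1.comp_hasDerivAt s h2
  have h4 := h3.clm_apply (hasDerivAt_const s w)
  simpa using h4

end Lines

section Convex

variable {f : E → ℝ} (hf : ContDiff ℝ 2 f)
  (hpos : ∀ x v : E, v ≠ 0 → 0 < fderiv ℝ (fderiv ℝ f) x v v)

include hf hpos

/-- `f` lies strictly above its tangent planes. -/
theorem tangent_lt {x y : E} (hxy : x ≠ y) : f x + fderiv ℝ f x (y - x) < f y := by
  set v := y - x with hv
  have hv0 : v ≠ 0 := sub_ne_zero.2 hxy.symm
  -- the derivative along the line is strictly increasing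
  have hmono : StrictMono (fun s : ℝ => fderiv ℝ f (x + s • v) v) := by
    apply strictMono_of_deriv_pos
    intro s
    rw [(hasDerivAt_grad_line hf x v v s).deriv]
    exact hpos _ _ hv0
  have hmono2 : StrictMonoOn (fun s : ℝ => f (x + s • v) - s * fderiv ℝ f x v) (Ici 0) := by
    apply strictMonoOn_of_deriv_pos (convex_Ici 0)
    · refine Continuous.continuousOn ?_
      have h1 : Continuous (fun s : ℝ => f (x + s • v)) := by
        have := hf.continuous
        fun_prop
      exact h1.sub (by fun_prop)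
    · intro s hs
      rw [interior_Ici] at hs
      have h1 := (hasDerivAt_fun_line hf x v s).sub ((hasDerivAt_id s).mul_const (fderiv ℝ f x v))
      have h2 : deriv (fun s : ℝ => f (x + s • v) - s * fderiv ℝ f x v) s =
          fderiv ℝ f (x + s • v) v - 1 * fderiv ℝ f x v := h1.deriv
      rw [h2, one_mul, sub_pos]
      have h3 := hmono (show (0 : ℝ) < s from hs)
      simpa using h3
  have h := hmono2 (show (0 : ℝ) ∈ Ici (0 : ℝ) from le_refl (0 : ℝ))
    (show (1 : ℝ) ∈ Ici (0 : ℝ) from zero_le_one (α := ℝ)) zero_lt_one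
  simp only [zero_smul, add_zero, zero_mul, sub_zero, one_smul, one_mul] at h
  have hxv : x + v = y := by rw [hv]; abel
  rw [hxv] at h
  linarith

theorem tangent_le (x y : E) : f x + fderiv ℝ f x (y - x) ≤ f y := by
  by_cases h : x = y
  · subst h
    simp
  · exact (tangent_lt hf hpos h).le

/-- the gradient map is injective. -/
theorem fderiv_injective : Function.Injective (fderiv ℝ f) := by
  intro x y hxy
  by_contra hne
  have h1 := tangent_lt hf hpos hne
  have h2 := tangent_lt hf hpos (Ne.symm hne)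
  rw [← hxy] at h2
  have h3 : fderiv ℝ f x (x - y) = - fderiv ℝ f x (y - x) := by
    rw [← map_neg, neg_sub]
  linarith

/-- `f` minus a tangent functional grows at least linearly. -/
theorem coercive [FiniteDimensional ℝ E] (x0 : E) :
    ∃ c : ℝ, 0 < c ∧ ∃ C : ℝ, ∀ x, c * ‖x‖ - C ≤ f x - fderiv ℝ f x0 x := by
  set k : E → ℝ := fun x => f x - f x0 - fderiv ℝ f x0 (x - x0) with hk
  have hk0 : ∀ x, 0 ≤ k x := by
    intro x
    have := tangent_le hf hpos x0 x
    simp only [hk]
    linarith
  have hkc : Continuous k := by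
    have := hf.continuous
    fun_prop
  -- a positive lower bound on the unit sphere
  obtain ⟨c, hc, hcS⟩ : ∃ c : ℝ, 0 < c ∧ ∀ u ∈ Metric.sphere x0 1, c ≤ k u := by
    rcases (Metric.sphere x0 (1 : ℝ)).eq_empty_or_nonempty with h | h
    · exact ⟨1, one_pos, by simp [h]⟩
    · have : ProperSpace E := FiniteDimensional.proper_real E
      obtain ⟨u, hu, hmin⟩ := (isCompact_sphere x0 1).exists_isMinOn h hkc.continuousOn
      refine ⟨k u, ?_, fun w hw => hmin hw⟩
      have hne : x0 ≠ u := by
        rintro rfl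
        simp at hu
      have := tangent_lt hf hpos hne
      simp only [hk]
      linarith
  -- linear growth of `k`
  have hgrow : ∀ x, c * ‖x - x0‖ - c ≤ k x := by
    intro x
    by_cases hr : ‖x - x0‖ ≤ 1
    · have := hk0 x
      nlinarith
    · push Not at hr
      set r := ‖x - x0‖ with hrdef
      have hr0 : 0 < r := lt_trans one_pos hr
      set u : E := x0 + r⁻¹ • (x - x0) with hu
      have huS : u ∈ Metric.sphere x0 1 := by
        rw [mem_sphere_iff_norm, hu, add_sub_cancel_left, norm_smul, norm_inv, Real.norm_of_nonneg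
          hr0.le, ← hrdef, inv_mul_cancel₀ hr0.ne']
      have h1 := tangent_le hf hpos u x
      have h2 := tangent_le hf hpos u x0
      have h3 := hcS u huS
      have e1 : x - u = (1 - r⁻¹) • (x - x0) := by
        rw [hu, sub_smul, one_smul]; abel
      have e2 : x0 - u = - (r⁻¹ • (x - x0)) := by
        rw [hu]; abel
      have e3 : u - x0 = r⁻¹ • (x - x0) := by
        rw [hu]; abel
      have hkx : k u ≤ r⁻¹ * k x := by
        simp only [hk]
        rw [e3, map_smul, smul_eq_mul]
        rw [e1, map_smul, smul_eq_mul] at h1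
        rw [e2, map_neg, map_smul, smul_eq_mul] at h2
        have hri : 0 < r⁻¹ := inv_pos.2 hr0
        have hri1 : r⁻¹ < 1 := inv_lt_one_of_one_lt₀ hr
        nlinarith
      have h4 : c ≤ r⁻¹ * k x := h3.trans hkx
      have h5 : c * r ≤ k x := by
        have := mul_le_mul_of_nonneg_right h4 hr0.le
        rwa [mul_comm (r⁻¹) (k x), mul_assoc, inv_mul_cancel₀ hr0.ne', mul_one] at this
      linarith
  refine ⟨c, hc, c * ‖x0‖ + c - f x0 + fderiv ℝ f x0 x0, fun x => ?_⟩
  have h1 := hgrow x
  simp only [hk, map_sub] at h1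
  have h2 : ‖x‖ ≤ ‖x - x0‖ + ‖x0‖ := by
    have := norm_add_le (x - x0) x0
    rwa [sub_add_cancel] at this
  nlinarith

/-- The range of the gradient map is convex. -/
theorem exists_fderiv_eq [FiniteDimensional ℝ E] (x0 x1 : E) {s : ℝ} (h0 : 0 ≤ s) (h1 : s ≤ 1) :
    ∃ x, fderiv ℝ f x = (1 - s) • fderiv ℝ f x0 + s • fderiv ℝ f x1 := by
  have : ProperSpace E := FiniteDimensional.proper_real E
  obtain ⟨c0, hc0, C0, hC0⟩ := coercive hf hpos x0
  obtain ⟨c1, hc1, C1, hC1⟩ := coercive hf hpos x1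
  set y : E →L[ℝ] ℝ := (1 - s) • fderiv ℝ f x0 + s • fderiv ℝ f x1 with hy
  set h : E → ℝ := fun x => f x - y x with hh
  have hlow : ∀ x, min c0 c1 * ‖x‖ - ((1 - s) * C0 + s * C1) ≤ h x := by
    intro x
    have e : h x = (1 - s) * (f x - fderiv ℝ f x0 x) + s * (f x - fderiv ℝ f x1 x) := by
      simp only [hh, hy, add_apply, smul_apply,
        smul_eq_mul]
      ring
    have a0 := hC0 x
    have a1 := hC1 x
    have b0 : min c0 c1 * ‖x‖ ≤ c0 * ‖x‖ := mul_le_mul_of_nonneg_right (min_le_left _ _)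
      (norm_nonneg _)
    have b1 : min c0 c1 * ‖x‖ ≤ c1 * ‖x‖ := mul_le_mul_of_nonneg_right (min_le_right _ _)
      (norm_nonneg _)
    rw [e]
    have d0 : (1 - s) * (min c0 c1 * ‖x‖ - C0) ≤ (1 - s) * (f x - fderiv ℝ f x0 x) :=
      mul_le_mul_of_nonneg_left (by linarith) (by linarith)
    have d1 : s * (min c0 c1 * ‖x‖ - C1) ≤ s * (f x - fderiv ℝ f x1 x) :=
      mul_le_mul_of_nonneg_left (by linarith) h0
    nlinarith
  have hcpos : 0 < min c0 c1 := lt_min hc0 hc1
  have htends : Tendsto h (cocompact E) atTop := by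
    have h2 : Tendsto (fun x : E => min c0 c1 * ‖x‖ - ((1 - s) * C0 + s * C1)) (cocompact E)
        atTop := by
      apply tendsto_atTop_add_const_right
      exact (tendsto_norm_cocompact_atTop).const_mul_atTop hcpos
    exact tendsto_atTop_mono hlow h2
  have hcont : Continuous h := by
    have := hf.continuous
    fun_prop
  obtain ⟨x, hx⟩ := hcont.exists_forall_le htends
  refine ⟨x, ?_⟩
  have hmin : IsLocalMin h x := Eventually.of_forall hx
  have hd : HasFDerivAt h (fderiv ℝ f x - y) x :=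
    ((hf.differentiable (by norm_num) x).hasFDerivAt).sub y.hasFDerivAt
  have := hmin.hasFDerivAt_eq_zero hd
  exact sub_eq_zero.1 this

omit hf in
/-- the second derivative as a continuous linear equivalence. -/
theorem exists_equiv [FiniteDimensional ℝ E] (x : E) :
    ∃ e : E ≃L[ℝ] (E →L[ℝ] ℝ), (e : E →L[ℝ] (E →L[ℝ] ℝ)) = fderiv ℝ (fderiv ℝ f) x := by
  set H : E →L[ℝ] (E →L[ℝ] ℝ) := fderiv ℝ (fderiv ℝ f) x with hH
  have hinj : Function.Injective (H : E →ₗ[ℝ] (E →L[ℝ] ℝ)) := by
    rw [injective_iff_map_eq_zero]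
    intro v hv
    by_contra hne
    have h1 := hpos x v hne
    have h2 : H v = 0 := hv
    rw [← hH, h2] at h1
    simp at h1
  have hdim : Module.finrank ℝ E = Module.finrank ℝ (E →L[ℝ] ℝ) := by
    rw [← (LinearMap.toContinuousLinearMap (𝕜 := ℝ) (E := E) (F' := ℝ)).finrank_eq]
    exact (Subspace.dual_finrank_eq (K := ℝ) (V := E)).symm
  let e0 : E ≃ₗ[ℝ] (E →L[ℝ] ℝ) := LinearEquiv.ofInjectiveOfFinrankEq (H : E →ₗ[ℝ] (E →L[ℝ] ℝ))
    hinj hdim
  refine ⟨e0.toContinuousLinearEquiv, ?_⟩
  ext v w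
  rfl

/-- the path in `E` over a segment in the dual. -/
theorem exists_path [FiniteDimensional ℝ E] (x0 x1 : E) :
    ∃ x x' : ℝ → E, x 0 = x0 ∧ x 1 = x1 ∧ ContinuousOn x' (Icc 0 1) ∧
      ∀ s ∈ Icc (0 : ℝ) 1, ContDiffAt ℝ 1 x s ∧ HasDerivAt x (x' s) s ∧
        fderiv ℝ f (x s) = (1 - s) • fderiv ℝ f x0 + s • fderiv ℝ f x1 ∧
        fderiv ℝ (fderiv ℝ f) (x s) (x' s) = fderiv ℝ f x1 - fderiv ℝ f x0 := by
  classical
  have : CompleteSpace E := FiniteDimensional.complete ℝ E
  set G := fderiv ℝ f with hG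
  set y : ℝ → (E →L[ℝ] ℝ) := fun s => (1 - s) • G x0 + s • G x1 with hy
  set x : ℝ → E := fun s => if h : ∃ z, G z = y s then h.choose else 0 with hx
  have hxs : ∀ s, (∃ z, G z = y s) → G (x s) = y s := by
    intro s h
    simp only [hx, dif_pos h]
    exact h.choose_spec
  have hinj : Function.Injective G := fderiv_injective hf hpos
  have hGc : ContDiff ℝ 1 G := contDiff_fderiv_one hf
  have hyc : ContDiff ℝ 1 y := by
    have h1 : ContDiff ℝ 1 (fun s : ℝ => (1 - s)) := by fun_prop
    exact (h1.smul contDiff_const).add (contDiff_id.smul contDiff_const)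
  have hyd : ∀ s, HasDerivAt y (G x1 - G x0) s := by
    intro s
    have h1 : HasDerivAt (fun s : ℝ => (1 - s)) (-1) s := by
      simpa using (hasDerivAt_id s).const_sub 1
    have h2 := (h1.smul_const (G x0)).add ((hasDerivAt_id s).smul_const (G x1))
    refine h2.congr_deriv ?_
    rw [neg_smul, one_smul, one_smul]
    abel
  have hex : ∀ s ∈ Icc (0 : ℝ) 1, ∃ z, G z = y s := fun s hs =>
    exists_fderiv_eq hf hpos x0 x1 hs.1 hs.2
  -- `x` is `C^1` at each point of `[0,1]`
  have hC1 : ∀ s ∈ Icc (0 : ℝ) 1, ContDiffAt ℝ 1 x s := by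
    intro s hs
    have hGx := hxs s (hex s hs)
    obtain ⟨e, he⟩ := exists_equiv hpos (x s)
    have hfd : HasFDerivAt G (e : E →L[ℝ] (E →L[ℝ] ℝ)) (x s) := by
      rw [he]
      exact hasFDerivAt_fderiv hf (x s)
    have hca : ContDiffAt ℝ 1 G (x s) := hGc.contDiffAt
    have hinv := hca.to_localInverse hfd one_ne_zero
    set g := hca.localInverse hfd one_ne_zero with hg
    rw [hGx] at hinv
    have hright : ∀ᶠ z in 𝓝 (y s), G (g z) = z := by
      have := (hca.hasStrictFDerivAt' hfd one_ne_zero).eventually_right_inverse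
      rwa [hGx] at this
    have hev : ∀ᶠ r in 𝓝 s, G (g (y r)) = y r :=
      (hyc.continuous.tendsto s).eventually hright
    have hev2 : x =ᶠ[𝓝 s] fun r => g (y r) := by
      filter_upwards [hev] with r hr
      have h1 := hxs r ⟨_, hr⟩
      exact hinj (h1.trans hr.symm)
    exact (hinv.comp s hyc.contDiffAt).congr_of_eventuallyEq hev2
  refine ⟨x, deriv x, ?_, ?_, ?_, ?_⟩
  · have h1 := hxs 0 (hex 0 (by norm_num))
    apply hinj
    rw [h1, hy]
    simp
  · have h1 := hxs 1 (hex 1 (by norm_num))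
    apply hinj
    rw [h1, hy]
    simp
  · intro s hs
    have h1 : ContinuousAt (fderiv ℝ x) s :=
      ((hC1 s hs).fderiv_right (m := 0) (by norm_num)).continuousAt
    have h2 : ContinuousAt (fun s => fderiv ℝ x s 1) s := h1.clm_apply continuousAt_const
    exact h2.continuousWithinAt
  · intro s hs
    have hd : HasDerivAt x (deriv x s) s :=
      ((hC1 s hs).differentiableAt one_ne_zero).hasDerivAt
    refine ⟨hC1 s hs, hd, hxs s (hex s hs), ?_⟩
    have h1 : HasDerivAt (fun r => G (x r)) (fderiv ℝ G (x s) (deriv x s)) s :=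
      (hasFDerivAt_fderiv hf (x s)).comp_hasDerivAt s hd
    -- near `s`, `G (x r) = y r`
    have hev : ∀ᶠ r in 𝓝 s, G (x r) = y r := by
      have hGx := hxs s (hex s hs)
      obtain ⟨e, he⟩ := exists_equiv hpos (x s)
      have hfd : HasFDerivAt G (e : E →L[ℝ] (E →L[ℝ] ℝ)) (x s) := by
        rw [he]
        exact hasFDerivAt_fderiv hf (x s)
      have hca : ContDiffAt ℝ 1 G (x s) := hGc.contDiffAt
      have hright : ∀ᶠ z in 𝓝 (y s), G (hca.localInverse hfd one_ne_zero z) = z := by
        have := (hca.hasStrictFDerivAt' hfd one_ne_zero).eventually_right_inverse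
        rwa [hGx] at this
      have hev : ∀ᶠ r in 𝓝 s, G (hca.localInverse hfd one_ne_zero (y r)) = y r :=
        (hyc.continuous.tendsto s).eventually hright
      filter_upwards [hev] with r hr
      exact hxs r ⟨_, hr⟩
    have h2 : HasDerivAt (fun r => G (x r)) (G x1 - G x0) s :=
      (hyd s).congr_of_eventuallyEq hev
    exact h1.unique h2

end Convex

/-- The same with directional derivatives and `deriv`. -/
theorem exists_path' [FiniteDimensional ℝ E] {f : E → ℝ} (hf : ContDiff ℝ 2 f)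
    (hpos : ∀ x w : E, w ≠ 0 → 0 < fderiv ℝ (fun y => fderiv ℝ f y w) x w) (x0 x1 : E) :
    ∃ x : ℝ → E, x 0 = x0 ∧ x 1 = x1 ∧ ContinuousOn (deriv x) (Icc 0 1) ∧
      ∀ s ∈ Icc (0 : ℝ) 1, ContDiffAt ℝ 1 x s ∧ HasDerivAt x (deriv x s) s ∧
        fderiv ℝ f (x s) = (1 - s) • fderiv ℝ f x0 + s • fderiv ℝ f x1 ∧
        ∀ w, fderiv ℝ (fun y => fderiv ℝ f y w) (x s) (deriv x s) =
          (fderiv ℝ f x1 - fderiv ℝ f x0) w := by
  have key : ∀ x v w : E, fderiv ℝ (fun y => fderiv ℝ f y w) x v =
      fderiv ℝ (fderiv ℝ f) x v w := by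
    intro x v w
    have h := (hasFDerivAt_fderiv hf x).clm_apply (hasFDerivAt_const w x)
    rw [h.fderiv]
    simp
  obtain ⟨x, x', h0, h1, hc, hx⟩ := exists_path hf (fun x v hv => by
    have := hpos x v hv
    rwa [key] at this) x0 x1
  refine ⟨x, h0, h1, ?_, fun s hs => ?_⟩
  · refine hc.congr fun s hs => ?_
    exact (hx s hs).2.1.deriv
  · obtain ⟨a, b, c, d⟩ := hx s hs
    refine ⟨a, b.differentiableAt.hasDerivAt, c, fun w => ?_⟩
    rw [key, b.deriv, d]

end Pool.Agent.ToricKRF
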