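import Pool.Agent.Work.MP_a2bf38_gt.Frame
import Pool.Agent.Work.MP_a2bf38_gt.MaxP
import Pool.Agent.Work.MP_a2bf38_gt.LCalc
import Pool.Agent.Work.MP_a2bf38_gt.Grad

/-!
# The l-, V- and B-estimates of a toric flow
-/

open scoped ContDiff ENNReal
open Set Filter Topology

namespace Pool.Agent.ToricKRF

namespace TFlow

variable {n : ℕ} {ι : Type} [Fintype ι] {T : ℝ} (d : TFlow n ι T)

theorem mem_U {t : ℝ} (ht : t ∈ Ico 0 T) (x : Fin n → ℝ) : (t, x) ∈ d.U :=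
  d.sub_U ⟨ht, mem_univ _⟩

theorem slab_sub {t' : ℝ} (ht' : t' < T) : Icc 0 t' ×ˢ (univ : Set (Fin n → ℝ)) ⊆ d.U := by
  rintro ⟨t, x⟩ ⟨ht, -⟩
  exact d.mem_U ⟨ht.1, lt_of_le_of_lt ht.2 ht'⟩ x

theorem smooth_l (i : ι) : ContDiffOn ℝ ∞ (d.l i) d.U :=
  (contDiffOn_D d.isOpen_U d.smooth_φ _).add (d.smooth_lam i)

theorem smooth_F (i : ι) : ContDiffOn ℝ ∞ (d.F i) d.U :=
  contDiffOn_D d.isOpen_U (contDiffOn_D d.isOpen_U d.smooth_φ _) _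

theorem cda {f : ℝ × (Fin n → ℝ) → ℝ} (hf : ContDiffOn ℝ ∞ f d.U) {p : ℝ × (Fin n → ℝ)}
    (hp : p ∈ d.U) : ContDiffAt ℝ 2 f p :=
  (hf.contDiffAt (d.isOpen_U.mem_nhds hp)).of_le (by norm_cast)

theorem l_pos' (i : ι) {t : ℝ} (ht : t ∈ Ico 0 T) (x : Fin n → ℝ) : 0 < d.l i (t, x) :=
  d.l_pos i t ht x

theorem D_lam (i : ι) {p : ℝ × (Fin n → ℝ)} (hp : p ∈ d.U) (w : Fin n → ℝ) :
    D (0, w) (fun q : ℝ × (Fin n → ℝ) => d.lam i q.1) p = 0 := by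
  have h0 := diffAt_of_contDiffOn d.isOpen_U (d.smooth_lam i) hp
  have h1 := hasDerivAt_line (f := fun q : ℝ × (Fin n → ℝ) => d.lam i q.1)
    (p := p) (w := ((0:ℝ), w)) (s := 0) (by simpa using h0)
  have h2 : (fun r : ℝ => (fun q : ℝ × (Fin n → ℝ) => d.lam i q.1) (p + r • ((0:ℝ), w)))
      = fun _ => d.lam i p.1 := by
    funext r; simp
  rw [h2] at h1
  have h3 := h1.unique (hasDerivAt_const (0:ℝ) (d.lam i p.1))
  simpa using h3

theorem D_l (i : ι) {p : ℝ × (Fin n → ℝ)} (hp : p ∈ d.U) (w : Fin n → ℝ) :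
    D (0, w) (d.l i) p = D (0, w) (D (0, d.ν i) d.φ) p := by
  have h1 := diffAt_of_contDiffOn d.isOpen_U (contDiffOn_D d.isOpen_U d.smooth_φ (0, d.ν i)) hp
  have h2 := diffAt_of_contDiffOn d.isOpen_U (d.smooth_lam i) hp
  have := D_add h1 h2 (0, w)
  rw [d.D_lam i hp, add_zero] at this
  exact this

theorem D_nu_eq (i : ι) {p : ℝ × (Fin n → ℝ)} (hp : p ∈ d.U) {W : Fin n → Fin n → ℝ}
    (hW : IsFrame d.φ p W) (f : ℝ × (Fin n → ℝ) → ℝ) :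
    D (0, d.ν i) f p = ∑ c, D (0, W c) (d.l i) p * D (0, W c) f p := by
  conv_lhs => rw [frame_expand d.isOpen_U d.smooth_φ hp hW (d.ν i)]
  rw [D_dir_sum_snd]
  exact Finset.sum_congr rfl fun c _ => by rw [d.D_l i hp]

/-- `|∇l|² = F` -/
theorem G_l_l (i : ι) {p : ℝ × (Fin n → ℝ)} (hp : p ∈ d.U) {W : Fin n → Fin n → ℝ}
    (hW : IsFrame d.φ p W) : LC.G W (d.l i) (d.l i) p = d.F i p := by
  unfold LC.G F
  rw [d.D_nu_eq i hp hW]
  exact Finset.sum_congr rfl fun c _ => by rw [d.D_l i hp]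

theorem L_l (i : ι) {t : ℝ} (ht : t ∈ Ioo 0 T) (x : Fin n → ℝ) {W : Fin n → Fin n → ℝ}
    (hW : IsFrame d.φ (t, x) W) : LC.L W (d.l i) (t, x) = -1 := by
  have := d.flow_l i t ht x W hW
  unfold LC.L
  change D (1, 0) (d.l i) (t, x) = ∑ c, D (0, W c) (D (0, W c) (d.l i)) (t, x) - 1 at this
  rw [this]; ring

/-- `|∇F|² ≤ F |S|²` -/
theorem G_F_F_le (i : ι) {p : ℝ × (Fin n → ℝ)} (hp : p ∈ d.U) {W : Fin n → Fin n → ℝ}
    (hW : IsFrame d.φ p W) : LC.G W (d.F i) (d.F i) p ≤ d.F i p *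
      ∑ c, ∑ e, (D (0, W c) (D (0, W e) (D (0, d.ν i) d.φ)) p) ^ 2 := by
  have hν := contDiffOn_D d.isOpen_U d.smooth_φ (0, d.ν i)
  have h1 : ∀ c, D (0, W c) (d.F i) p
      = ∑ e, D (0, W e) (d.l i) p * D (0, W e) (D (0, W c) (D (0, d.ν i) d.φ)) p := by
    intro c
    have := D_comm d.isOpen_U hν hp (0, W c) (0, d.ν i)
    unfold F
    rw [this, d.D_nu_eq i hp hW]
  have hFG : d.F i p = ∑ e, (D (0, W e) (d.l i) p) ^ 2 := by
    rw [← d.G_l_l i hp hW]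
    unfold LC.G
    exact Finset.sum_congr rfl fun c _ => by ring
  unfold LC.G
  rw [Finset.sum_comm, Finset.mul_sum]
  refine Finset.sum_le_sum fun c _ => ?_
  rw [h1 c, hFG, ← sq]
  exact Finset.sum_mul_sq_le_sq_mul_sq _ _ _

theorem L_F (i : ι) {t : ℝ} (ht : t ∈ Ioo 0 T) (x : Fin n → ℝ) {W : Fin n → Fin n → ℝ}
    (hW : IsFrame d.φ (t, x) W) : LC.L W (d.F i) (t, x) =
      -∑ c, ∑ e, (D (0, W c) (D (0, W e) (D (0, d.ν i) d.φ)) (t, x)) ^ 2 := by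
  have := d.flow_F i t ht x W hW
  unfold LC.L F
  rw [this]; ring

/-! ### The barrier -/

/-- the barrier function -/
noncomputable def bar : (Fin n → ℝ) → ℝ := fun x =>
  d.φ (0, x) - d.φ (0, 0) - fderiv ℝ (fun y => d.φ (0, y)) 0 x

variable (hT : 0 < T)
include hT

theorem smooth_slice : ContDiff ℝ ∞ (fun y : Fin n → ℝ => d.φ (0, y)) := by
  rw [contDiff_iff_contDiffAt]
  intro x
  have h1 : ContDiffAt ℝ ∞ d.φ (0, x) :=
    d.smooth_φ.contDiffAt (d.isOpen_U.mem_nhds (d.mem_U ⟨le_rfl, hT⟩ x))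
  exact h1.comp x (contDiffAt_const.prodMk contDiffAt_id)

theorem smooth_bar : ContDiff ℝ ∞ d.bar := by
  unfold bar
  exact ((d.smooth_slice hT).sub contDiff_const).sub (ContinuousLinearMap.contDiff _)

theorem D_slice_φ (w x : Fin n → ℝ) :
    D w (fun y => d.φ (0, y)) x = D (0, w) d.φ (0, x) :=
  (D_slice (diffAt_of_contDiffOn d.isOpen_U d.smooth_φ (d.mem_U ⟨le_rfl, hT⟩ x)) w).symm

theorem D_bar (w x : Fin n → ℝ) :
    D w d.bar x = D (0, w) d.φ (0, x) - D (0, w) d.φ (0, 0) := by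
  have h1 : Differentiable ℝ (fun y : Fin n → ℝ => d.φ (0, y)) :=
    (d.smooth_slice hT).differentiable (by simp)
  have h2 : D w (fun x => fderiv ℝ (fun y => d.φ (0, y)) 0 x) x
      = D w (fun y => d.φ (0, y)) 0 := by
    simp only [D]
    rw [ContinuousLinearMap.fderiv]
  unfold bar
  rw [D_sub ((h1 x).sub_const _) (ContinuousLinearMap.differentiableAt _), h2,
    D_sub (h1 x) (differentiableAt_const _), D_const, sub_zero,
    d.D_slice_φ hT, d.D_slice_φ hT]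

theorem D_D_bar (w x : Fin n → ℝ) :
    D w (D w d.bar) x = D (0, w) (D (0, w) d.φ) (0, x) := by
  have h1 : D w d.bar = fun x => D (0, w) d.φ (0, x) - D (0, w) d.φ (0, 0) := by
    funext x; exact d.D_bar hT w x
  have hc := contDiffOn_D d.isOpen_U d.smooth_φ ((0:ℝ), w)
  have h2 := D_slice (diffAt_of_contDiffOn d.isOpen_U hc (d.mem_U ⟨le_rfl, hT⟩ x)) w
  have h3 : DifferentiableAt ℝ (fun x : Fin n → ℝ => D (0, w) d.φ (0, x)) x := by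
    have h4 : DifferentiableAt ℝ (D (0, w) d.φ) (0, x) :=
      diffAt_of_contDiffOn d.isOpen_U hc (d.mem_U ⟨le_rfl, hT⟩ x)
    exact h4.comp x ((differentiableAt_const _).prodMk differentiableAt_id)
  rw [h1, D_sub h3 (differentiableAt_const _), D_const, sub_zero, h2]

theorem D_nu_bar (i : ι) (x : Fin n → ℝ) :
    D (d.ν i) d.bar x = d.l i (0, x) - d.l i (0, 0) := by
  rw [d.D_bar hT]; unfold l; simp

theorem slice_pos (x w : Fin n → ℝ) (hw : w ≠ 0) :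
    0 < fderiv ℝ (fderiv ℝ (fun y => d.φ (0, y))) x w w := by
  have h1 := d.hess_pos 0 ⟨le_rfl, hT⟩ x w hw
  rw [← d.D_D_bar hT] at h1
  have h2 : D w d.bar = fun x => fderiv ℝ (fun y => d.φ (0, y)) x w
      - fderiv ℝ (fun y => d.φ (0, y)) 0 w := by
    funext x
    rw [d.D_bar hT, ← d.D_slice_φ hT, ← d.D_slice_φ hT]; rfl
  have h3 : DifferentiableAt ℝ (fderiv ℝ (fun y : Fin n → ℝ => d.φ (0, y))) x := by
    have := (d.smooth_slice hT).contDiffAt (x := x)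
    exact (this.fderiv_right (m := 1) (by norm_cast)).differentiableAt (by norm_num)
  have h4 := (h3.hasFDerivAt.clm_apply (hasFDerivAt_const w x)).sub
    (hasFDerivAt_const (fderiv ℝ (fun y => d.φ (0, y)) 0 w) x)
  have h5 : D w (D w d.bar) x = fderiv ℝ (fderiv ℝ (fun y => d.φ (0, y))) x w w := by
    rw [h2]
    simp only [D]
    have h6 := h4.fderiv
    rw [show ((fun y => (fderiv ℝ (fun y => d.φ (0, y)) y) w) - fun _ =>
      (fderiv ℝ (fun y => d.φ (0, y)) 0) w) = (fun x => fderiv ℝ (fun y => d.φ (0, y)) x w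
      - fderiv ℝ (fun y => d.φ (0, y)) 0 w) from rfl] at h6
    rw [h6]; simp
  rwa [h5] at h1

theorem bar_nonneg (x : Fin n → ℝ) : 0 ≤ d.bar x := by
  have := tangent_le ((d.smooth_slice hT).of_le (by norm_cast)) (d.slice_pos hT) 0 x
  simp only [sub_zero] at this
  unfold bar
  linarith

theorem bar_proper (c : ℝ) : ∃ R : ℝ, ∀ x, d.bar x ≤ c → ‖x‖ ≤ R := by
  obtain ⟨a, ha, C, hC⟩ := coercive ((d.smooth_slice hT).of_le (by norm_cast))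
    (d.slice_pos hT) 0
  refine ⟨(c + C + d.φ (0, 0)) / a, fun x hx => ?_⟩
  have h1 := hC x
  unfold bar at hx
  rw [le_div_iff₀ ha]
  linarith

/-- the second-order bound at a critical point -/
theorem sum_DD_le {t' : ℝ} {C : ℝ}
    (hC : ∀ t ∈ Icc 0 t', ∀ x w : Fin n → ℝ,
      D (0, w) (D (0, w) d.φ) (0, x) ≤ C * D (0, w) (D (0, w) d.φ) (t, x))
    {t : ℝ} (ht : t ∈ Icc 0 t') {x : Fin n → ℝ} {W : Fin n → Fin n → ℝ}
    (hW : IsFrame d.φ (t, x) W) {u : ℝ × (Fin n → ℝ) → ℝ} {ε : ℝ} (hε : 0 ≤ ε)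
    (h2 : ∀ w, D (0, w) (D (0, w) u) (t, x) ≤ ε * D w (D w d.bar) x) :
    ∑ c, D (0, W c) (D (0, W c) u) (t, x) ≤ (n * C) * ε := by
  have h3 : ∀ c, D (0, W c) (D (0, W c) u) (t, x) ≤ C * ε := by
    intro c
    refine (h2 (W c)).trans ?_
    rw [d.D_D_bar hT]
    have h4 := hC t ht x (W c)
    rw [hW c c, if_pos rfl, mul_one] at h4
    nlinarith
  calc ∑ c, D (0, W c) (D (0, W c) u) (t, x) ≤ ∑ _c : Fin n, C * ε :=
        Finset.sum_le_sum fun c _ => h3 c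
    _ = (n * C) * ε := by simp; ring

omit hT in
theorem exists_frame' {t : ℝ} (ht : t ∈ Ico 0 T) (x : Fin n → ℝ) :
    ∃ W, IsFrame d.φ (t, x) W :=
  exists_frame d.isOpen_U d.smooth_φ (d.mem_U ht x) (fun w hw => d.hess_pos t ht x w hw)

/-! ### The l-estimate -/

theorem l_le : ∃ C, 0 < C ∧ ∀ i, ∀ t ∈ Ico 0 T, ∀ x : Fin n → ℝ, d.l i (t, x) ≤ C := by
  obtain ⟨C₀, hC₀, hb₀, -, -⟩ := d.bounds 0 ⟨le_rfl, hT⟩
  refine ⟨C₀, hC₀, fun i t' ht' x => ?_⟩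
  have h00 : ∀ x, d.l i (0, x) ≤ C₀ := fun x => (hb₀ 0 ⟨le_rfl, le_rfl⟩ x i).1
  rcases ht'.1.eq_or_lt with h | h
  · rw [← h]; exact h00 x
  obtain ⟨C, hC, hb, hb2, -⟩ := d.bounds t' ht'
  refine max_principle_barrier h d.isOpen_U (d.slab_sub ht'.2) (d.smooth_l i)
    ⟨C, fun t ht x => (hb t ht x i).1⟩ (d.smooth_bar hT) (d.bar_nonneg hT) (d.bar_proper hT)
    C₀ h00 ⟨n * C, fun ε hε t ht x h1 h2 _ => ?_⟩ t' ⟨h.le, le_rfl⟩ x
  have htI : t ∈ Ico 0 T := ⟨ht.1.le, lt_of_le_of_lt ht.2 ht'.2⟩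
  obtain ⟨W, hW⟩ := d.exists_frame' htI x
  have h3 := d.L_l i ⟨ht.1, htI.2⟩ x hW
  unfold LC.L at h3
  have h4 := d.sum_DD_le hT hb2 ⟨ht.1.le, ht.2⟩ hW hε.1.le h2
  linarith

/-! ### The V-estimate -/

/-- `V = (F - l) / l²` -/
noncomputable def V (i : ι) : ℝ × (Fin n → ℝ) → ℝ :=
  fun p => (d.F i p - d.l i p) / (d.l i p) ^ 2

omit hT in
theorem isOpen_Up : IsOpen {p | p ∈ d.U ∧ ∀ i, 0 < d.l i p} := by
  rw [isOpen_iff_mem_nhds]
  rintro p ⟨hp, hl⟩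
  have h1 : ∀ᶠ q in 𝓝 p, q ∈ d.U := d.isOpen_U.mem_nhds hp
  have h2 : ∀ᶠ q in 𝓝 p, ∀ i, 0 < d.l i q := by
    rw [eventually_all]
    intro i
    exact ((d.smooth_l i).continuousOn.continuousAt (d.isOpen_U.mem_nhds hp)).eventually
      (lt_mem_nhds (hl i))
  filter_upwards [h1, h2] with q a b
  exact ⟨a, b⟩

omit hT in
theorem slab_sub_Up {t' : ℝ} (ht' : t' < T) :
    Icc 0 t' ×ˢ (univ : Set (Fin n → ℝ)) ⊆ {p | p ∈ d.U ∧ ∀ i, 0 < d.l i p} := by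
  rintro ⟨t, x⟩ ⟨ht, -⟩
  have htI : t ∈ Ico 0 T := ⟨ht.1, lt_of_le_of_lt ht.2 ht'⟩
  exact ⟨d.mem_U htI x, fun i => d.l_pos' i htI x⟩

omit hT in
theorem smooth_V (i : ι) : ContDiffOn ℝ ∞ (d.V i) {p | p ∈ d.U ∧ ∀ i, 0 < d.l i p} := by
  have hs : {p | p ∈ d.U ∧ ∀ i, 0 < d.l i p} ⊆ d.U := fun p hp => hp.1
  unfold V
  refine ContDiffOn.div (((d.smooth_F i).mono hs).sub ((d.smooth_l i).mono hs))
    (((d.smooth_l i).mono hs).pow 2) ?_
  intro p hp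
  have := hp.2 i
  positivity

omit hT in
theorem F_eq (i : ι) {p : ℝ × (Fin n → ℝ)} (hp : 0 < d.l i p) :
    d.F i p = d.l i p + d.V i p * (d.l i p) ^ 2 := by
  unfold V
  field_simp
  ring

omit hT in
theorem D_nu_bar_frame (i : ι) {p : ℝ × (Fin n → ℝ)} (hp : p ∈ d.U) {W : Fin n → Fin n → ℝ}
    (hW : IsFrame d.φ p W) (f : (Fin n → ℝ) → ℝ) (x : Fin n → ℝ) :
    D (d.ν i) f x = ∑ c, D (0, W c) (d.l i) p * D (W c) f x := by
  conv_lhs => rw [frame_expand d.isOpen_U d.smooth_φ hp hW (d.ν i)]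
  rw [D_dir_sum]
  exact Finset.sum_congr rfl fun c _ => by rw [d.D_l i hp]

theorem V_le : ∃ K, 0 < K ∧ ∀ i, ∀ t ∈ Ico 0 T, ∀ x : Fin n → ℝ, d.V i (t, x) ≤ K := by
  obtain ⟨C₀, hC₀, hb₀, -, -⟩ := d.bounds 0 ⟨le_rfl, hT⟩
  refine ⟨C₀, hC₀, fun i t' ht' x => ?_⟩
  have hVb : ∀ C, ∀ t ∈ Ico 0 T, ∀ x : Fin n → ℝ,
      d.F i (t, x) - d.l i (t, x) ≤ C * (d.l i (t, x)) ^ 2 → d.V i (t, x) ≤ C := by
    intro C t ht x h
    have h1 := d.l_pos' i ht x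
    unfold V
    rw [div_le_iff₀ (by positivity)]
    exact h
  have h00 : ∀ x, d.V i (0, x) ≤ C₀ := fun x =>
    hVb C₀ 0 ⟨le_rfl, hT⟩ x (hb₀ 0 ⟨le_rfl, le_rfl⟩ x i).2.2
  rcases ht'.1.eq_or_lt with h | h
  · rw [← h]; exact h00 x
  obtain ⟨C, hC, hb, hb2, -⟩ := d.bounds t' ht'
  refine max_principle_barrier h d.isOpen_Up (d.slab_sub_Up ht'.2) (d.smooth_V i)
    ⟨C, fun t ht x => hVb C t ⟨ht.1, lt_of_le_of_lt ht.2 ht'.2⟩ x (hb t ht x i).2.2⟩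
    (d.smooth_bar hT) (d.bar_nonneg hT) (d.bar_proper hT)
    C₀ h00 ⟨2 * C + n * C, fun ε hε t ht x h1 h2 hV => ?_⟩ t' ⟨h.le, le_rfl⟩ x
  have htI : t ∈ Ico 0 T := ⟨ht.1.le, lt_of_le_of_lt ht.2 ht'.2⟩
  have hpU : ((t, x) : ℝ × (Fin n → ℝ)) ∈ d.U := d.mem_U htI x
  obtain ⟨W, hW⟩ := d.exists_frame' htI x
  have hl0 := d.l_pos' i htI x
  have hVpos : 0 < d.V i (t, x) := hC₀.trans hV
  have hFeq := d.F_eq i hl0
  have hF0 : d.l i (t, x) ≤ d.F i (t, x) := by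
    rw [hFeq]; nlinarith [mul_pos hVpos (pow_pos hl0 2)]
  have hF0' : 0 < d.F i (t, x) := hl0.trans_le hF0
  have hVcd : ContDiffAt ℝ 2 (d.V i) (t, x) :=
    ((d.smooth_V i).contDiffAt (d.isOpen_Up.mem_nhds
      (d.slab_sub_Up ht'.2 ⟨⟨ht.1.le, ht.2⟩, mem_univ _⟩))).of_le (by norm_cast)
  have hev : d.F i =ᶠ[𝓝 (t, x)] fun q => d.l i q + d.V i q * (d.l i q) ^ 2 := by
    filter_upwards [d.isOpen_Up.mem_nhds
      (d.slab_sub_Up ht'.2 ⟨⟨ht.1.le, ht.2⟩, mem_univ _⟩)] with q hq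
    exact d.F_eq i (hq.2 i)
  have key := LC.L_V_le (W := W) (d.cda (d.smooth_l i) hpU) hVcd hl0 hF0' hev
    (d.L_l i ⟨ht.1, htI.2⟩ x hW) (d.G_l_l i hpU hW) (d.L_F i ⟨ht.1, htI.2⟩ x hW)
    (d.G_F_F_le i hpU hW)
  have hG : LC.G W (d.V i) (d.l i) (t, x) = ε * (d.l i (0, x) - d.l i (0, 0)) := by
    rw [← d.D_nu_bar hT, d.D_nu_bar_frame i hpU hW, Finset.mul_sum]
    unfold LC.G
    refine Finset.sum_congr rfl fun c _ => ?_
    rw [h1 (W c)]; ring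
  have h4 := d.sum_DD_le hT hb2 ⟨ht.1.le, ht.2⟩ hW hε.1.le h2
  have h5 : LC.G W (d.V i) (d.l i) (t, x) / d.F i (t, x) ≤ C * ε := by
    rw [div_le_iff₀ hF0', hG]
    have h6 : d.l i (0, x) ≤ C * d.l i (t, x) := (hb t ⟨ht.1.le, ht.2⟩ x i).2.1
    have h7 := d.l_pos' i ⟨le_rfl, hT⟩ (0 : Fin n → ℝ)
    have h8 : C * d.l i (t, x) ≤ C * d.F i (t, x) := mul_le_mul_of_nonneg_left hF0 hC.le
    have h9 := hε.1
    have h10 : ε * (d.l i (0, x) - d.l i (0, 0)) ≤ ε * (C * d.F i (t, x)) :=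
      mul_le_mul_of_nonneg_left (by linarith) h9.le
    linarith
  unfold LC.L at key
  have h11 : 2 * LC.G W (d.V i) (d.l i) (t, x) / d.F i (t, x) =
    2 * (LC.G W (d.V i) (d.l i) (t, x) / d.F i (t, x)) := by ring
  rw [h11] at key
  have h12 := sq_nonneg (d.V i (t, x))
  linarith

/-! ### The B-estimate -/

omit hT in
theorem L_log_l (i : ι) {t : ℝ} (ht : t ∈ Ioo 0 T) (x : Fin n → ℝ) {W : Fin n → Fin n → ℝ}
    (hW : IsFrame d.φ (t, x) W) :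
    LC.L W (fun q => Real.log (d.l i q)) (t, x) = d.V i (t, x) := by
  have htI : t ∈ Ico 0 T := ⟨ht.1.le, ht.2⟩
  have hl0 := d.l_pos' i htI x
  rw [LC.L_log (d.cda (d.smooth_l i) (d.mem_U htI x)) hl0.ne', d.L_l i ht x hW,
    d.G_l_l i (d.mem_U htI x) hW]
  unfold V
  field_simp
  ring

theorem B_le : ∃ C, 0 < C ∧ ∀ t ∈ Ico 0 T, ∀ x : Fin n → ℝ, ∀ e : (Fin n → ℝ) →L[ℝ] ℝ,
    e x + ∑ i, max (-e (d.ν i)) 0 * Real.log (d.l i (t, x)) ≤ C * ∑ i, |e (d.ν i)| := by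
  obtain ⟨C₀, hC₀, -, -, hb₀⟩ := d.bounds 0 ⟨le_rfl, hT⟩
  obtain ⟨K, hK, hVK⟩ := d.V_le hT
  refine ⟨C₀ + K * T, by positivity, fun t' ht' x e => ?_⟩
  set S := ∑ i, |e (d.ν i)| with hS
  have hS0 : 0 ≤ S := Finset.sum_nonneg fun i _ => abs_nonneg _
  have h00 : ∀ x, e x + ∑ i, max (-e (d.ν i)) 0 * Real.log (d.l i (0, x)) ≤ C₀ * S :=
    fun x => hb₀ 0 ⟨le_rfl, le_rfl⟩ x e
  rcases ht'.1.eq_or_lt with h | h
  · rw [← h]
    refine (h00 x).trans ?_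
    have : 0 ≤ K * T * S := by positivity
    linarith
  obtain ⟨C, hC, hb, hb2, hb3⟩ := d.bounds t' ht'
  -- the test function
  set A : ℝ × (Fin n → ℝ) →L[ℝ] ℝ :=
    e.comp (ContinuousLinearMap.snd ℝ ℝ (Fin n → ℝ))
      - (K * S) • ContinuousLinearMap.fst ℝ ℝ (Fin n → ℝ) with hA
  set β : ι → ℝ := fun i => max (-e (d.ν i)) 0 with hβ
  set u : ℝ × (Fin n → ℝ) → ℝ := fun q => A q + ∑ i, β i * Real.log (d.l i q) with hu
  have hAv : ∀ t x, A (t, x) = e x - K * S * t := by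
    intro t x; simp [hA]
  have hs : {p | p ∈ d.U ∧ ∀ i, 0 < d.l i p} ⊆ d.U := fun p hp => hp.1
  have hlog : ∀ i, ContDiffOn ℝ ∞ (fun q => Real.log (d.l i q))
      {p | p ∈ d.U ∧ ∀ i, 0 < d.l i p} := fun i =>
    ((d.smooth_l i).mono hs).log fun p hp => (hp.2 i).ne'
  have husm : ContDiffOn ℝ ∞ u {p | p ∈ d.U ∧ ∀ i, 0 < d.l i p} := by
    refine A.contDiff.contDiffOn.add (ContDiffOn.sum fun i _ => ?_)
    exact contDiffOn_const.mul (hlog i)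
  have main := max_principle_barrier h d.isOpen_Up (d.slab_sub_Up ht'.2) husm
    ⟨C * S, fun t ht x => ?_⟩
    (d.smooth_bar hT) (d.bar_nonneg hT) (d.bar_proper hT)
    (C₀ * S) (fun x => ?_) ⟨n * C, fun ε hε t ht x h1 h2 hV => ?_⟩ t' ⟨h.le, le_rfl⟩ x
  · simp only [hu, hAv] at main
    have h1 : K * S * t' ≤ K * T * S := by
      have : t' * (K * S) ≤ T * (K * S) := mul_le_mul_of_nonneg_right ht'.2.le (by positivity)
      linarith
    linarith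
  · have h1 := hb3 t ht x e
    have h2 : 0 ≤ K * S * t := by have := ht.1; positivity
    simp only [hu, hAv]
    change e x + ∑ i, β i * Real.log (d.l i (t, x)) ≤ C * S at h1
    linarith
  · have h1 := h00 x
    simp only [hu, hAv]
    linarith
  · have htI : t ∈ Ico 0 T := ⟨ht.1.le, lt_of_le_of_lt ht.2 ht'.2⟩
    have hp : ((t, x) : ℝ × (Fin n → ℝ)) ∈ {p | p ∈ d.U ∧ ∀ i, 0 < d.l i p} :=
      d.slab_sub_Up ht'.2 ⟨⟨ht.1.le, ht.2⟩, mem_univ _⟩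
    obtain ⟨W, hW⟩ := d.exists_frame' htI x
    have h4 := d.sum_DD_le hT hb2 ⟨ht.1.le, ht.2⟩ hW hε.1.le h2
    have hlc : ∀ i, ContDiffAt ℝ 2 (fun q => Real.log (d.l i q)) (t, x) := fun i =>
      ((hlog i).contDiffAt (d.isOpen_Up.mem_nhds hp)).of_le (by norm_cast)
    have hL : LC.L W u (t, x) = -(K * S) + ∑ i, β i * d.V i (t, x) := by
      rw [hu, LC.L_add (A.contDiff.contDiffAt) (ContDiffAt.sum fun i _ =>
        contDiffAt_const.mul (hlc i)), LC.L_clm, LC.L_sum _ (fun i _ =>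
        contDiffAt_const.mul (hlc i)), hAv]
      congr 1
      · simp
      · refine Finset.sum_congr rfl fun i _ => ?_
        rw [LC.L_const_mul _ (hlc i), d.L_log_l i ⟨ht.1, htI.2⟩ x hW]
    have h5 : ∑ i, β i * d.V i (t, x) ≤ K * S := by
      rw [hS, Finset.mul_sum]
      refine Finset.sum_le_sum fun i _ => ?_
      have h6 : 0 ≤ β i := le_max_right _ _
      have h7 : β i ≤ |e (d.ν i)| := max_le (neg_le_abs _) (abs_nonneg _)
      have h8 := hVK i t htI x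
      calc β i * d.V i (t, x) ≤ β i * K := mul_le_mul_of_nonneg_left h8 h6
        _ ≤ |e (d.ν i)| * K := mul_le_mul_of_nonneg_right h7 hK.le
        _ = K * |e (d.ν i)| := mul_comm _ _
    unfold LC.L at hL
    linarith

end TFlow

theorem TFlow.uniform {n : ℕ} {ι : Type} [Fintype ι] {T : ℝ} (d : TFlow n ι T) :
    ∃ C : ℝ, 0 < C ∧ ∀ t ∈ Ico 0 T, GoodAt d.ν C d.φ (fun i => d.lam i t) t := by
  by_cases hT : 0 < T
  · obtain ⟨C₁, hC₁, h₁⟩ := d.l_le hT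
    obtain ⟨K, hK, h₂⟩ := d.V_le hT
    obtain ⟨C₃, hC₃, h₃⟩ := d.B_le hT
    refine ⟨C₁ + K * C₁ ^ 2 + C₃, by positivity, fun t ht => ⟨fun i x => d.l_pos i t ht x,
      fun i x => ?_, fun i x => ?_, fun x e => ?_⟩⟩
    · have := h₁ i t ht x
      have h : 0 ≤ K * C₁ ^ 2 := by positivity
      change d.l i (t, x) ≤ _
      linarith
    · have h4 := h₁ i t ht x
      have h5 := h₂ i t ht x
      have h6 := d.l_pos' i ht x
      change d.F i (t, x) ≤ _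
      rw [d.F_eq i h6]
      have h7 : d.V i (t, x) * d.l i (t, x) ^ 2 ≤ K * C₁ ^ 2 := by
        calc d.V i (t, x) * d.l i (t, x) ^ 2 ≤ K * d.l i (t, x) ^ 2 :=
              mul_le_mul_of_nonneg_right h5 (by positivity)
          _ ≤ K * C₁ ^ 2 := mul_le_mul_of_nonneg_left (pow_le_pow_left₀ h6.le h4 2) hK.le
      linarith
    · refine (h₃ t ht x e).trans ?_
      have h8 : 0 ≤ ∑ i, |e (d.ν i)| := Finset.sum_nonneg fun i _ => abs_nonneg _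
      have h9 : 0 ≤ K * C₁ ^ 2 := by positivity
      apply mul_le_mul_of_nonneg_right _ h8
      linarith
  · refine ⟨1, one_pos, fun t ht => ?_⟩
    exact absurd (ht.1.trans_lt ht.2) hT

end Pool.Agent.ToricKRF
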