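import Pool.Agent.Work.MP_a2bf38_gt.Path

/-!
# The Hessian as a quadratic form, and the length of the product curve
-/

namespace Pool.Agent.ToricKRF

open Set Filter Topology Real

variable {E : Type*} [NormedAddCommGroup E] [NormedSpace ℝ E]

section

variable {f : E → ℝ} (hf : ContDiff ℝ 2 f)

include hf

theorem hess_eq (x v w : E) :
    fderiv ℝ (fun y => fderiv ℝ f y w) x v = fderiv ℝ (fderiv ℝ f) x v w := by
  have h := (hasFDerivAt_fderiv hf x).clm_apply (hasFDerivAt_const w x)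
  rw [h.fderiv]
  simp

theorem hess_symm (x v w : E) :
    fderiv ℝ (fderiv ℝ f) x v w = fderiv ℝ (fderiv ℝ f) x w v :=
  second_derivative_symmetric (f := f) (f' := fderiv ℝ f) (f'' := fderiv ℝ (fderiv ℝ f) x)
    (fun y => (hf.differentiable (by norm_num) y).hasFDerivAt) (hasFDerivAt_fderiv hf x) v w

end

/-- for a symmetric nonnegative bilinear form `H`, `H(∑ v, ∑ v) ≤ N ∑ H(v,v)`. -/
theorem form_sum_le {κ : Type*} (s : Finset κ) (H : E →L[ℝ] (E →L[ℝ] ℝ))
    (hsymm : ∀ v w, H v w = H w v) (hpos : ∀ v, 0 ≤ H v v) (v : κ → E) :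
    H (∑ j ∈ s, v j) (∑ j ∈ s, v j) ≤ s.card * ∑ j ∈ s, H (v j) (v j) := by
  have h1 : H (∑ j ∈ s, v j) (∑ j ∈ s, v j) = ∑ i ∈ s, ∑ j ∈ s, H (v i) (v j) := by
    simp only [map_sum, sum_apply]
    exact Finset.sum_comm
  have h2 : ∀ i j, H (v i) (v j) ≤ (H (v i) (v i) + H (v j) (v j)) / 2 := by
    intro i j
    have h3 := hpos (v i - v j)
    have h4 : H (v i - v j) (v i - v j) =
        H (v i) (v i) - H (v i) (v j) - H (v j) (v i) + H (v j) (v j) := by
      simp only [map_sub, sub_apply]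
      ring
    rw [h4, hsymm (v j) (v i)] at h3
    linarith
  rw [h1]
  calc ∑ i ∈ s, ∑ j ∈ s, H (v i) (v j)
      ≤ ∑ i ∈ s, ∑ j ∈ s, (H (v i) (v i) + H (v j) (v j)) / 2 :=
        Finset.sum_le_sum fun i _ => Finset.sum_le_sum fun j _ => h2 i j
    _ = s.card * ∑ j ∈ s, H (v j) (v j) := by
        simp only [← Finset.sum_div, Finset.sum_add_distrib, Finset.sum_const, nsmul_eq_mul,
          ← Finset.mul_sum]
        ring

/-- length of the curve `(x(s), θ(s))` with `θ' = v` constant -/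
theorem curve_integral_le {q : ℝ → ℝ} {r : ℝ → ℝ} {a b L D : ℝ} (ha : 0 ≤ a) (hb : 0 ≤ b)
    (hq : ContinuousOn q (Icc 0 1)) (hr : ContinuousOn r (Icc 0 1))
    (hq0 : ∀ s ∈ Icc (0 : ℝ) 1, 0 ≤ q s) (hr0 : ∀ s ∈ Icc (0 : ℝ) 1, 0 ≤ r s)
    (hrD : ∀ s ∈ Icc (0 : ℝ) 1, r s ≤ D) (hqL : ∫ s in (0 : ℝ)..1, √(q s) ≤ L) :
    ∫ s in (0 : ℝ)..1, √(a * q s + b * r s) ≤ √a * L + √(b * D) := by
  have hint1 : IntervalIntegrable (fun s => √(a * q s + b * r s)) MeasureTheory.volume 0 1 := by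
    apply ContinuousOn.intervalIntegrable
    rw [uIcc_of_le zero_le_one]
    exact ((hq.const_mul a).add (hr.const_mul b)).sqrt
  have hint2 : IntervalIntegrable (fun s => √a * √(q s)) MeasureTheory.volume 0 1 := by
    apply ContinuousOn.intervalIntegrable
    rw [uIcc_of_le zero_le_one]
    exact (hq.sqrt).const_mul _
  have hint3 : IntervalIntegrable (fun s => √a * √(q s) + √(b * D)) MeasureTheory.volume 0 1 :=
    hint2.add intervalIntegrable_const
  have h1 : ∫ s in (0 : ℝ)..1, √(a * q s + b * r s) ≤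
      ∫ s in (0 : ℝ)..1, (√a * √(q s) + √(b * D)) := by
    apply intervalIntegral.integral_mono_on zero_le_one hint1 hint3
    intro s hs
    have h2 : √(a * q s + b * r s) ≤ √(a * q s) + √(b * r s) := by
      apply Real.sqrt_le_iff.2
      refine ⟨by positivity, ?_⟩
      have e1 := Real.sq_sqrt (mul_nonneg ha (hq0 s hs))
      have e2 := Real.sq_sqrt (mul_nonneg hb (hr0 s hs))
      have e3 : 0 ≤ √(a * q s) * √(b * r s) := by positivity
      nlinarith
    have h3 : √(a * q s) = √a * √(q s) := Real.sqrt_mul ha _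
    have h4 : √(b * r s) ≤ √(b * D) :=
      Real.sqrt_le_sqrt (mul_le_mul_of_nonneg_left (hrD s hs) hb)
    linarith
  rw [intervalIntegral.integral_add hint2 intervalIntegrable_const,
    intervalIntegral.integral_const_mul, intervalIntegral.integral_const] at h1
  have h5 : √a * ∫ s in (0 : ℝ)..1, √(q s) ≤ √a * L :=
    mul_le_mul_of_nonneg_left hqL (Real.sqrt_nonneg _)
  simp only [sub_zero, one_smul] at h1
  linarith

end Pool.Agent.ToricKRF
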