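import Pool.Agent.Work.MP_a2bf38_gt.Calc
import Pool.Agent.Work.MP_a2bf38_gt.Quad

/-!
# The diameter bound from the estimates
-/

open scoped ContDiff
open Set

namespace Pool.Agent.ToricKRF

section slice

variable {n : ℕ} {φ : ℝ × (Fin n → ℝ) → ℝ} {U : Set (ℝ × (Fin n → ℝ))} (hU : IsOpen U)
  (hφ : ContDiffOn ℝ ∞ φ U) {t : ℝ} (ht : ∀ x, (t, x) ∈ U)

include hU hφ ht

theorem contDiff_slice : ContDiff ℝ ∞ (fun x => φ (t, x)) := by
  rw [contDiff_iff_contDiffAt]
  intro x
  have h1 : ContDiffAt ℝ ∞ φ (t, x) := hφ.contDiffAt (hU.mem_nhds (ht x))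
  exact h1.comp x (contDiffAt_const.prodMk contDiffAt_id)

theorem D_snd_eq (x w : Fin n → ℝ) :
    D (0, w) φ (t, x) = fderiv ℝ (fun x => φ (t, x)) x w :=
  D_slice (diffAt_of_contDiffOn hU hφ (ht x)) w

theorem DD_snd_eq (x v w : Fin n → ℝ) :
    D (0, v) (D (0, w) φ) (t, x) = fderiv ℝ (fderiv ℝ (fun x => φ (t, x))) x v w := by
  rw [D_slice (diffAt_of_contDiffOn hU (contDiffOn_D hU hφ _) (ht x)) v]
  have h1 : (fun y => D (0, w) φ (t, y)) = fun y => fderiv ℝ (fun x => φ (t, x)) y w := by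
    funext y
    exact D_snd_eq hU hφ ht y w
  rw [h1]
  exact hess_eq ((contDiff_slice hU hφ ht).of_le (WithTop.coe_le_coe.2 le_top)) x v w

theorem sum_hess_eq (x u : Fin n → ℝ) :
    ∑ k, ∑ l, hess φ (t, x) k l * u k * u l =
      fderiv ℝ (fderiv ℝ (fun x => φ (t, x))) x u u := by
  set H := fderiv ℝ (fderiv ℝ (fun x => φ (t, x))) x with hH
  have hu : u = ∑ k, u k • (Pi.single k (1 : ℝ) : Fin n → ℝ) := by
    conv_lhs => rw [← (Pi.basisFun ℝ (Fin n)).sum_repr u]
    simp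
  have h1 : H u u = ∑ l, ∑ k, u l * (u k * H (Pi.single k 1) (Pi.single l 1)) := by
    conv_lhs => rw [hu]
    simp only [map_sum, sum_apply, map_smul, smul_apply, smul_eq_mul, Finset.mul_sum]
  rw [h1, Finset.sum_comm]
  refine Finset.sum_congr rfl fun k _ => Finset.sum_congr rfl fun l _ => ?_
  have h2 : hess φ (t, x) l k = H (Pi.single l 1) (Pi.single k 1) :=
    DD_snd_eq hU hφ ht x _ _
  rw [h2]
  ring

end slice

theorem geom_bound {n : ℕ} {ι : Type} [Fintype ι] (ν : ι → Fin n → ℝ)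
    (hspan : Submodule.span ℝ (range ν) = ⊤) (C : ℝ) : ∃ C' : ℝ,
    ∀ (φ : ℝ × (Fin n → ℝ) → ℝ) (U : Set (ℝ × (Fin n → ℝ))), IsOpen U → ContDiffOn ℝ ∞ φ U →
    ∀ t : ℝ, (∀ x, (t, x) ∈ U) →
      (∀ x w : Fin n → ℝ, w ≠ 0 → 0 < D (0, w) (D (0, w) φ) (t, x)) →
      ∀ lam : ι → ℝ, GoodAt ν C φ lam t → diam φ t ≤ ENNReal.ofReal C' := by
  classical
  -- coordinates with respect to the rays
  obtain ⟨S, hS⟩ : ∃ S : (Fin n → ℝ) →ₗ[ℝ] (ι → ℝ), ∀ v, ∑ i, S v i • ν i = v := by
    have h1 : LinearMap.range (Fintype.linearCombination ℝ ν) = ⊤ := by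
      rw [Fintype.range_linearCombination, hspan]
    obtain ⟨S, hS⟩ := LinearMap.exists_rightInverse_of_surjective _ h1
    refine ⟨S, fun v => ?_⟩
    have := congrArg (fun L => L v) hS
    simpa [Fintype.linearCombination_apply] using this
  set S' : (Fin n → ℝ) →L[ℝ] (ι → ℝ) := LinearMap.toContinuousLinearMap S with hS'
  set N : ℝ := (Fintype.card ι : ℝ) with hN
  have hN0 : 0 ≤ N := Nat.cast_nonneg _
  set Cp : ℝ := max C 0 with hCp
  have hCp0 : 0 ≤ Cp := le_max_right _ _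
  set c0 : ℝ := ‖S'‖ * (2 * Real.pi) with hc0
  set Dθ : ℝ := N * (N * (c0 ^ 2 * Cp)) with hDθ
  set L : ℝ := 2 + 14 * (Cp * (N * Cp) + N * (1 + Cp)) with hL
  refine ⟨√(1 / 2) * L + √(2 * Dθ), ?_⟩
  intro φ U hU hφ t ht hpos lam hgood
  set f : (Fin n → ℝ) → ℝ := fun x => φ (t, x) with hf
  have hfc : ContDiff ℝ 2 f := (contDiff_slice hU hφ ht).of_le (WithTop.coe_le_coe.2 le_top)
  have hpos' : ∀ x w : Fin n → ℝ, w ≠ 0 → 0 < fderiv ℝ (fun y => fderiv ℝ f y w) x w := by
    intro x w hw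
    have := hpos x w hw
    rwa [DD_snd_eq hU hφ ht, ← hess_eq hfc] at this
  have hl : ∀ i x, D (0, ν i) φ (t, x) = fderiv ℝ f x (ν i) := fun i x =>
    D_snd_eq hU hφ ht x (ν i)
  have hH0 : ∀ x v, 0 ≤ fderiv ℝ (fderiv ℝ f) x v v := by
    intro x v
    by_cases hv : v = 0
    · rw [hv]; simp
    · have := hpos' x v hv
      rw [hess_eq hfc] at this
      exact this.le
  have hF : ∀ i x, fderiv ℝ (fderiv ℝ f) x (ν i) (ν i) ≤ Cp := by
    intro i x
    have := hgood.F_le i x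
    rw [DD_snd_eq hU hφ ht] at this
    exact this.trans (le_max_left _ _)
  refine iSup_le fun p => iSup_le fun q => ?_
  -- the path in the `x` direction
  obtain ⟨x, hx0, hx1, hxC, hxc, hxd, hqc, hq0, hqL⟩ := path_energy hfc hpos' ν lam
    (fun i x => by rw [← hl]; exact hgood.l_pos i x) (Cl := Cp) (K := Cp)
    (fun i x => by rw [← hl]; exact (hgood.l_le i x).trans (le_max_left _ _)) hCp0 hCp0
    (by
      intro e x
      have h1 := hgood.B_le x e
      simp only [hl] at h1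
      refine h1.trans ?_
      exact mul_le_mul_of_nonneg_right (le_max_left _ _)
        (Finset.sum_nonneg fun i _ => abs_nonneg _)) p.1 q.1
  -- the direction of the torus
  set m : Fin n → ℤ := fun j => -⌊(q.2 j - p.2 j) / (2 * Real.pi)⌋ with hm
  set v : Fin n → ℝ := fun j => q.2 j + 2 * Real.pi * m j - p.2 j with hv
  have hpi : 0 < 2 * Real.pi := by positivity
  have hvb : ‖v‖ ≤ 2 * Real.pi := by
    rw [pi_norm_le_iff_of_nonneg hpi.le]
    intro j
    have h1 : v j = 2 * Real.pi * Int.fract ((q.2 j - p.2 j) / (2 * Real.pi)) := by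
      simp only [hv, hm, Int.fract]
      push_cast
      field_simp
      ring
    rw [h1, Real.norm_eq_abs, abs_of_nonneg (mul_nonneg hpi.le (Int.fract_nonneg _))]
    have h2 := (Int.fract_lt_one ((q.2 j - p.2 j) / (2 * Real.pi))).le
    nlinarith
  have hvS : ∀ i, (S v i) ^ 2 ≤ c0 ^ 2 := by
    intro i
    have h1 : ‖S' v‖ ≤ c0 := (S'.le_opNorm v).trans
      (mul_le_mul_of_nonneg_left hvb (norm_nonneg _))
    have h2 : |S v i| ≤ c0 := by
      have := norm_le_pi_norm (S' v) i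
      exact this.trans h1
    exact sq_le_sq' (by linarith [neg_abs_le (S v i)]) ((le_abs_self _).trans h2)
  have hr : ∀ y, fderiv ℝ (fderiv ℝ f) y v v ≤ Dθ := by
    intro y
    have h1 := form_sum_le Finset.univ (fderiv ℝ (fderiv ℝ f) y)
      (fun a b => hess_symm hfc y a b) (fun a => hH0 y a) (fun i => S v i • ν i)
    rw [hS] at h1
    refine h1.trans ?_
    rw [Finset.card_univ, hDθ]
    apply mul_le_mul_of_nonneg_left _ hN0
    calc ∑ i, fderiv ℝ (fderiv ℝ f) y (S v i • ν i) (S v i • ν i)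
        ≤ ∑ _i : ι, c0 ^ 2 * Cp := by
          apply Finset.sum_le_sum
          intro i _
          have h2 : fderiv ℝ (fderiv ℝ f) y (S v i • ν i) (S v i • ν i) =
              (S v i) ^ 2 * fderiv ℝ (fderiv ℝ f) y (ν i) (ν i) := by
            simp only [map_smul, smul_apply, smul_eq_mul]
            ring
          rw [h2]
          calc (S v i) ^ 2 * fderiv ℝ (fderiv ℝ f) y (ν i) (ν i)
              ≤ (S v i) ^ 2 * Cp := mul_le_mul_of_nonneg_left (hF i y) (sq_nonneg _)
            _ ≤ c0 ^ 2 * Cp := mul_le_mul_of_nonneg_right (hvS i) hCp0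
      _ = N * (c0 ^ 2 * Cp) := by rw [Finset.sum_const, Finset.card_univ, nsmul_eq_mul]
  -- the curve
  set γ : ℝ → (Fin n → ℝ) × (Fin n → ℝ) := fun s => (x s, p.2 + s • v) with hγ
  have hγd : ∀ s ∈ Icc (0 : ℝ) 1, HasDerivAt γ (deriv x s, v) s := by
    intro s hs
    have h1 : HasDerivAt (fun s : ℝ => p.2 + s • v) v s := by
      simpa using ((hasDerivAt_id s).smul_const v).const_add p.2
    exact (hxd s hs).prodMk h1
  have hjoin : Joins γ p q := by
    refine ⟨?_, ?_, m, ?_⟩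
    · intro s hs
      refine ContDiffAt.contDiffWithinAt ?_
      exact (hxC s hs).prodMk (by fun_prop)
    · simp [hγ, hx0]
    · simp only [hγ, hx1, one_smul]
      refine Prod.ext rfl ?_
      funext j
      simp [hv]
  have hlen : length φ t γ ≤ √(1 / 2) * L + √(2 * Dθ) := by
    have hrc : ContinuousOn (fun s => fderiv ℝ (fderiv ℝ f) (x s) v v) (Icc 0 1) := by
      have h1 : Continuous (fun y => fderiv ℝ (fderiv ℝ f) y v v) := by
        have h2 : Continuous (fderiv ℝ (fderiv ℝ f)) :=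
          (contDiff_fderiv_one hfc).continuous_fderiv one_ne_zero
        exact (h2.clm_apply continuous_const).clm_apply continuous_const
      exact h1.comp_continuousOn fun s hs => (hxd s hs).continuousAt.continuousWithinAt
    have key := curve_integral_le (a := 1 / 2) (b := 2) (by norm_num) (by norm_num) hqc hrc hq0
      (fun s _ => hH0 _ _) (fun s _ => hr _) hqL
    refine le_trans (le_of_eq ?_) key
    apply intervalIntegral.integral_congr
    intro s hs
    rw [uIcc_of_le zero_le_one] at hs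
    simp only [(hγd s hs).deriv, normSq, sum_hess_eq hU hφ ht, hess_eq hfc]
    rfl
  refine (iInf₂_le γ hjoin).trans (ENNReal.ofReal_le_ofReal hlen)

end Pool.Agent.ToricKRF
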