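import Mathlib

/-!
# The one-dimensional length estimate

If `g` is nondecreasing on `[0,1]` with `-g(s) ≤ A (1 + log (1/s))` near `0` and
`g(s) ≤ A (1 + log (1/(1-s)))` near `1` then `∫ √g' ≤ C(A)`.
-/

namespace Pool.Agent.ToricKRF

open Set Real MeasureTheory

/-- the explicit antiderivative of the error term -/
noncomputable def errF (A s : ℝ) : ℝ :=
  √s + A / 4 * (2 * √s * (1 - log s) + 4 * √s)

theorem hasDerivAt_errF (A : ℝ) {s : ℝ} (hs : 0 < s) :
    HasDerivAt (errF A) (1 / (2 * √s) + A / 4 * ((1 - log s) / √s)) s := by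
  have h1 : HasDerivAt (fun s : ℝ => √s) (1 / (2 * √s)) s := Real.hasDerivAt_sqrt hs.ne'
  have h2 : HasDerivAt (fun s : ℝ => log s) s⁻¹ s := Real.hasDerivAt_log hs.ne'
  have h3 : HasDerivAt (fun s : ℝ => 2 * √s * (1 - log s) + 4 * √s)
      (2 * (1 / (2 * √s)) * (1 - log s) + 2 * √s * (0 - s⁻¹) + 4 * (1 / (2 * √s))) s := by
    have h4 := ((h1.const_mul 2).mul ((hasDerivAt_const s (1 : ℝ)).sub h2)).add (h1.const_mul 4)
    exact h4
  have h5 := h1.add (h3.const_mul (A / 4))
  have h6 : √s ≠ 0 := (Real.sqrt_pos.2 hs).ne'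
  have h7 : s = √s * √s := (Real.mul_self_sqrt hs.le).symm
  refine h5.congr_deriv ?_
  have h8 : √s * s⁻¹ = 1 / √s := by
    field_simp
    rw [sq]
    exact h7.symm
  have h9 : 2 * √s * (0 - s⁻¹) = - (2 * (1 / √s)) := by
    rw [← h8]; ring
  rw [h9]
  field_simp
  ring

theorem mul_log_bound {s : ℝ} (hs : 0 < s) (hs1 : s ≤ 1) : √s * (1 - log s) ≤ 3 := by
  have h1 : √s ≤ 1 := Real.sqrt_le_one.2 hs1
  have h2 : 0 < √s := Real.sqrt_pos.2 hs
  have h3 : log s = 2 * log (√s) := by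
    rw [Real.log_sqrt hs.le]; ring
  have h4 : 1 - (√s)⁻¹ ≤ log (√s) := Real.one_sub_inv_le_log_of_pos h2
  have h5 : √s * (1 - log s) ≤ √s * (1 - 2 * (1 - (√s)⁻¹)) := by
    apply mul_le_mul_of_nonneg_left _ h2.le
    rw [h3]; linarith
  have h6 : √s * (1 - 2 * (1 - (√s)⁻¹)) = 2 - √s := by
    field_simp
    ring
  linarith

/-- left half -/
theorem half_length {A : ℝ} (hA : 0 ≤ A) {g g' : ℝ → ℝ}
    (hg : ∀ s ∈ Icc (0 : ℝ) (1 / 2), HasDerivAt g (g' s) s)
    (hc : ContinuousOn g' (Icc (0 : ℝ) (1 / 2)))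
    (hpos : ∀ s ∈ Icc (0 : ℝ) (1 / 2), 0 ≤ g' s)
    (hlow : ∀ s ∈ Ioc (0 : ℝ) (1 / 2), -g s ≤ A * (1 - log s))
    (hup : g (1 / 2) ≤ A * (1 - log (1 / 2))) :
    ∫ s in (0 : ℝ)..(1 / 2), √(g' s) ≤ 1 + 7 * A := by
  have hcs : ContinuousOn (fun s => √(g' s)) (Icc (0 : ℝ) (1 / 2)) := hc.sqrt
  have hint : IntervalIntegrable (fun s => √(g' s)) volume 0 (1 / 2) := by
    apply ContinuousOn.intervalIntegrable
    rwa [uIcc_of_le (by norm_num)]
  -- the primitive
  set I : ℝ → ℝ := fun s => ∫ u in s..(1 / 2 : ℝ), √(g' u) with hI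
  have hIc : ContinuousOn I (Icc 0 (1 / 2)) := by
    have h1 := intervalIntegral.continuousOn_primitive_interval_left (μ := volume)
      (f := fun s => √(g' s)) (a := 0) (b := 1 / 2) (by
        rw [uIcc_of_le (by norm_num)]
        exact hcs.integrableOn_Icc)
    rwa [uIcc_of_le (by norm_num)] at h1
  have hId : ∀ s ∈ Ioo (0 : ℝ) (1 / 2), HasDerivAt I (-√(g' s)) s := by
    intro s hs
    have hs' : Icc (0 : ℝ) (1 / 2) ∈ nhds s := Icc_mem_nhds hs.1 hs.2
    apply intervalIntegral.integral_hasDerivAt_left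
    · apply ContinuousOn.intervalIntegrable
      rw [uIcc_of_le hs.2.le]
      exact hcs.mono (Icc_subset_Icc hs.1.le le_rfl)
    · exact ContinuousOn.stronglyMeasurableAtFilter_nhdsWithin hcs measurableSet_Icc s |>.filter_mono
        (by rw [nhdsWithin_eq_nhds.2 hs'])
    · exact hcs.continuousAt hs'
  -- the monotone quantity
  set J : ℝ → ℝ := fun s => I s + 1 / 2 * (√s * g s) + errF A s with hJ
  have hJmono : MonotoneOn J (Ioc 0 (1 / 2)) := by
    have hcont : ContinuousOn J (Ioc 0 (1 / 2)) := by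
      intro s hs
      have h1 : ContinuousWithinAt I (Ioc 0 (1 / 2)) s :=
        (hIc s ⟨hs.1.le, hs.2⟩).mono Ioc_subset_Icc_self
      have h2 : ContinuousAt g s := (hg s ⟨hs.1.le, hs.2⟩).continuousAt
      have h3 : ContinuousAt (errF A) s := (hasDerivAt_errF A hs.1).continuousAt
      exact (h1.add ((continuousAt_const.mul
        (Real.continuous_sqrt.continuousAt.mul h2)).continuousWithinAt)).add
        h3.continuousWithinAt
    apply monotoneOn_of_deriv_nonneg (convex_Ioc 0 (1 / 2)) hcont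
    · intro s hs
      rw [interior_Ioc] at hs
      have h1 := hId s hs
      have h2 := hg s ⟨hs.1.le, hs.2.le⟩
      have h3 := hasDerivAt_errF A hs.1
      have h4 := Real.hasDerivAt_sqrt hs.1.ne'
      exact (((h1.add ((h4.mul h2).const_mul (1 / 2))).add h3).differentiableAt).differentiableWithinAt
    · intro s hs
      rw [interior_Ioc] at hs
      have h1 := hId s hs
      have h2 := hg s ⟨hs.1.le, hs.2.le⟩
      have h3 := hasDerivAt_errF A hs.1
      have h4 := Real.hasDerivAt_sqrt hs.1.ne'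
      have h5 := ((h1.add ((h4.mul h2).const_mul (1 / 2))).add h3).deriv
      have h6 : deriv J s = -√(g' s) + 1 / 2 * (1 / (2 * √s) * g s + √s * g' s) +
          (1 / (2 * √s) + A / 4 * ((1 - log s) / √s)) := h5
      rw [h6]
      have h7 : 0 < √s := Real.sqrt_pos.2 hs.1
      have h8 := hlow s ⟨hs.1, hs.2.le⟩
      have h9 := hpos s ⟨hs.1.le, hs.2.le⟩
      have h10 : √(g' s) ≤ 1 / 2 * (√s * g' s) + 1 / 2 * (1 / √s) := by
        have h11 := Real.mul_self_sqrt h9
        set r := √(g' s)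
        have h12 : 0 ≤ r := Real.sqrt_nonneg _
        have h13 : r = 1 / 2 * (√s * (r * r)) + 1 / 2 * (1 / √s) -
            1 / 2 * (1 / √s) * (√s * r - 1) ^ 2 := by
          field_simp
          ring
        have h14 : 0 ≤ 1 / 2 * (1 / √s) * (√s * r - 1) ^ 2 := by positivity
        rw [h11] at h13
        linarith
      have h15 : 0 ≤ 1 / (4 * √s) * (g s + A * (1 - log s)) := by
        apply mul_nonneg (by positivity)
        linarith
      have h16 : 1 / 2 * (1 / (2 * √s) * g s + √s * g' s) +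
          (1 / (2 * √s) + A / 4 * ((1 - log s) / √s)) =
          1 / 2 * (√s * g' s) + 1 / 2 * (1 / √s) + 1 / (4 * √s) * (g s + A * (1 - log s)) := by
        field_simp
        ring
      linarith
  -- bound away from zero
  have hbound : ∀ s ∈ Ioc (0 : ℝ) (1 / 2), I s ≤ 1 + 7 * A := by
    intro s hs
    have h1 := hJmono hs (right_mem_Ioc.2 (by norm_num)) hs.2
    simp only [hJ] at h1
    have h2 : I (1 / 2) = 0 := by simp [hI]
    rw [h2] at h1
    have h3 := hlow s hs
    have h4 : 0 < √s := Real.sqrt_pos.2 hs.1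
    have h5 := mul_log_bound hs.1 (hs.2.trans (by norm_num))
    have h6 : -(√s * g s) ≤ 3 * A := by
      have h7 : √s * (-g s) ≤ √s * (A * (1 - log s)) := mul_le_mul_of_nonneg_left h3 h4.le
      have h8 : √s * (A * (1 - log s)) ≤ 3 * A := by
        have : √s * (A * (1 - log s)) = A * (√s * (1 - log s)) := by ring
        rw [this]
        nlinarith
      linarith
    have h9 : 0 ≤ errF A s := by
      unfold errF
      have : 0 ≤ 1 - log s := by
        have := Real.log_nonpos hs.1.le (hs.2.trans (by norm_num))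
        linarith
      positivity
    have hq : √(1 / 2 : ℝ) ≤ 1 := Real.sqrt_le_one.2 (by norm_num)
    have hq0 : 0 < √(1 / 2 : ℝ) := Real.sqrt_pos.2 (by norm_num)
    have hl : √(1 / 2 : ℝ) * (1 - log (1 / 2)) ≤ 3 := mul_log_bound (by norm_num) (by norm_num)
    have h10 : errF A (1 / 2) ≤ 1 + A * (5 / 2) := by
      unfold errF
      nlinarith
    have h11 : √(1 / 2 : ℝ) * g (1 / 2) ≤ 3 * A := by
      have h12 : √(1 / 2 : ℝ) * g (1 / 2) ≤ √(1 / 2 : ℝ) * (A * (1 - log (1 / 2))) :=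
        mul_le_mul_of_nonneg_left hup hq0.le
      have h13 : √(1 / 2 : ℝ) * (A * (1 - log (1 / 2))) = A * (√(1 / 2 : ℝ) * (1 - log (1 / 2))) := by
        ring
      rw [h13] at h12
      nlinarith
    linarith
  -- limit
  have h0 : I 0 ≤ 1 + 7 * A := by
    have h1 : Filter.Tendsto I (nhdsWithin 0 (Ioc 0 (1 / 2))) (nhds (I 0)) :=
      ((hIc 0 (left_mem_Icc.2 (by norm_num))).mono Ioc_subset_Icc_self)
    have h2 : (nhdsWithin (0 : ℝ) (Ioc 0 (1 / 2))).NeBot := by
      rw [nhdsWithin_Ioc_eq_nhdsGT (by norm_num)]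
      infer_instance
    exact le_of_tendsto h1 (Filter.eventually_of_mem self_mem_nhdsWithin hbound)
  exact h0

/-- The length estimate. -/
theorem length_bound {A : ℝ} (hA : 0 ≤ A) {g g' : ℝ → ℝ}
    (hg : ∀ s ∈ Icc (0 : ℝ) 1, HasDerivAt g (g' s) s)
    (hc : ContinuousOn g' (Icc (0 : ℝ) 1))
    (hpos : ∀ s ∈ Icc (0 : ℝ) 1, 0 ≤ g' s)
    (hlow : ∀ s ∈ Ioo (0 : ℝ) 1, -g s ≤ A * (1 - log s))
    (hup : ∀ s ∈ Ioo (0 : ℝ) 1, g s ≤ A * (1 - log (1 - s))) :
    ∫ s in (0 : ℝ)..1, √(g' s) ≤ 2 + 14 * A := by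
  have h12 : (1 : ℝ) - 1 / 2 = 1 / 2 := by norm_num
  have h1 : ∫ s in (0 : ℝ)..(1 / 2), √(g' s) ≤ 1 + 7 * A := by
    apply half_length hA (g := g)
    · exact fun s hs => hg s ⟨hs.1, hs.2.trans (by norm_num)⟩
    · exact hc.mono (Icc_subset_Icc le_rfl (by norm_num))
    · exact fun s hs => hpos s ⟨hs.1, hs.2.trans (by norm_num)⟩
    · exact fun s hs => hlow s ⟨hs.1, lt_of_le_of_lt hs.2 (by norm_num)⟩
    · have := hup (1 / 2) (by constructor <;> norm_num)
      rwa [h12] at this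
  have h2 : ∫ s in (0 : ℝ)..(1 / 2), √(g' (1 - s)) ≤ 1 + 7 * A := by
    apply half_length hA (g := fun s => - g (1 - s)) (g' := fun s => g' (1 - s))
    · intro s hs
      have h3 := hg (1 - s) ⟨by linarith [hs.2], by linarith [hs.1]⟩
      have h4 : HasDerivAt (fun s : ℝ => 1 - s) (-1) s := by
        simpa using (hasDerivAt_id s).const_sub 1
      have h5 := (h3.comp s h4).neg
      refine h5.congr_deriv ?_
      ring
    · exact hc.comp (Continuous.continuousOn (by fun_prop)) (fun s hs =>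
        ⟨by linarith [hs.2], by linarith [hs.1]⟩)
    · exact fun s hs => hpos _ ⟨by linarith [hs.2], by linarith [hs.1]⟩
    · intro s hs
      have := hup (1 - s) ⟨by linarith [hs.2], by linarith [hs.1]⟩
      simp only [sub_sub_cancel] at this
      linarith
    · have := hlow (1 / 2) (by constructor <;> norm_num)
      rw [h12]
      exact this
  have h3 : ∫ s in (0 : ℝ)..(1 / 2), √(g' (1 - s)) = ∫ s in (1 / 2 : ℝ)..1, √(g' s) := by
    rw [intervalIntegral.integral_comp_sub_left (fun s => √(g' s)) 1]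
    norm_num
  have h4 : ∀ a b : ℝ, 0 ≤ a → a ≤ b → b ≤ 1 →
      IntervalIntegrable (fun s => √(g' s)) volume a b := by
    intro a b ha hab hb
    apply ContinuousOn.intervalIntegrable
    rw [uIcc_of_le hab]
    exact (hc.sqrt).mono (Icc_subset_Icc ha hb)
  rw [← intervalIntegral.integral_add_adjacent_intervals (b := 1 / 2)
    (h4 _ _ le_rfl (by norm_num) (by norm_num)) (h4 _ _ (by norm_num) (by norm_num) le_rfl)]
  rw [h3] at h2
  linarith

end Pool.Agent.ToricKRF
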