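import Pool.Agent.Work.MP_a2bf38_gt.Len
import Pool.Agent.Work.MP_a2bf38_gt.Grad

/-!
# The length of the paths over segments of the moment polytope
-/

namespace Pool.Agent.ToricKRF

open Set Filter Topology Real

variable {E : Type*} [NormedAddCommGroup E] [NormedSpace ℝ E]

/-- elementary: `-β log l ≤ 1 - Cl log s` if `s β ≤ l`, `0 < β ≤ Cl`. -/
theorem neg_mul_log_le {β l s Cl : ℝ} (hβ : 0 < β) (hβC : β ≤ Cl) (hs : 0 < s) (hs1 : s ≤ 1)
    (hl : s * β ≤ l) : -(β * log l) ≤ 1 - Cl * log s := by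
  have h1 : log (s * β) ≤ log l := Real.log_le_log (mul_pos hs hβ) hl
  rw [Real.log_mul hs.ne' hβ.ne'] at h1
  have h2 : 1 - β⁻¹ ≤ log β := Real.one_sub_inv_le_log_of_pos hβ
  have h3 : log s ≤ 0 := Real.log_nonpos hs.le hs1
  have h4 : β * (1 - β⁻¹) = β - 1 := by
    field_simp
  have h5 : β * (1 - β⁻¹) ≤ β * log β := mul_le_mul_of_nonneg_left h2 hβ.le
  have h6 : β * (log s + log β) ≤ β * log l := mul_le_mul_of_nonneg_left h1 hβ.le
  have h7 : Cl * log s ≤ β * log s := mul_le_mul_of_nonpos_right hβC h3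
  nlinarith

theorem path_energy [FiniteDimensional ℝ E] {f : E → ℝ} (hf : ContDiff ℝ 2 f)
    (hpos : ∀ x w : E, w ≠ 0 → 0 < fderiv ℝ (fun y => fderiv ℝ f y w) x w)
    {ι : Type*} [Fintype ι] (ν : ι → E) (lam : ι → ℝ)
    (hl : ∀ i x, 0 < fderiv ℝ f x (ν i) + lam i) {Cl K : ℝ}
    (hCl : ∀ i x, fderiv ℝ f x (ν i) + lam i ≤ Cl) (hCl0 : 0 ≤ Cl) (hK : 0 ≤ K)
    (hB : ∀ (e : E →L[ℝ] ℝ) (x : E),
      e x + ∑ i, max (-(e (ν i))) 0 * log (fderiv ℝ f x (ν i) + lam i) ≤ K * ∑ i, |e (ν i)|)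
    (x0 x1 : E) :
    ∃ x : ℝ → E, x 0 = x0 ∧ x 1 = x1 ∧ (∀ s ∈ Icc (0 : ℝ) 1, ContDiffAt ℝ 1 x s) ∧
      ContinuousOn (deriv x) (Icc 0 1) ∧
      (∀ s ∈ Icc (0 : ℝ) 1, HasDerivAt x (deriv x s) s) ∧
      ContinuousOn (fun s => fderiv ℝ (fun y => fderiv ℝ f y (deriv x s)) (x s) (deriv x s))
        (Icc 0 1) ∧
      (∀ s ∈ Icc (0 : ℝ) 1,
        0 ≤ fderiv ℝ (fun y => fderiv ℝ f y (deriv x s)) (x s) (deriv x s)) ∧
      ∫ s in (0 : ℝ)..1, √(fderiv ℝ (fun y => fderiv ℝ f y (deriv x s)) (x s) (deriv x s)) ≤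
        2 + 14 * (K * (Fintype.card ι * Cl) + Fintype.card ι * (1 + Cl)) := by
  obtain ⟨x, h0, h1, hc, hx⟩ := exists_path' hf hpos x0 x1
  set e : E →L[ℝ] ℝ := fderiv ℝ f x1 - fderiv ℝ f x0 with he
  set l : ι → E → ℝ := fun i x => fderiv ℝ f x (ν i) + lam i with hldef
  set N : ℝ := (Fintype.card ι : ℝ) with hN
  have hN0 : 0 ≤ N := Nat.cast_nonneg _
  -- the function `g`
  set g : ℝ → ℝ := fun s => e (x s) with hg
  have hgd : ∀ s ∈ Icc (0 : ℝ) 1, HasDerivAt g (e (deriv x s)) s := fun s hs =>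
    e.hasFDerivAt.comp_hasDerivAt s (hx s hs).2.1
  have hgc : ContinuousOn (fun s => e (deriv x s)) (Icc 0 1) := e.continuous.comp_continuousOn hc
  have hee : ∀ s ∈ Icc (0 : ℝ) 1,
      fderiv ℝ (fun y => fderiv ℝ f y (deriv x s)) (x s) (deriv x s) = e (deriv x s) :=
    fun s hs => (hx s hs).2.2.2 _
  have hgpos : ∀ s ∈ Icc (0 : ℝ) 1, 0 ≤ e (deriv x s) := by
    intro s hs
    rw [← hee s hs]
    by_cases h : deriv x s = 0
    · rw [h]; simp
    · exact (hpos _ _ h).le
  -- `l` along the path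
  have hlx : ∀ i, ∀ s ∈ Icc (0 : ℝ) 1, l i (x s) = l i x0 + s * e (ν i) ∧
      l i (x s) = l i x1 - (1 - s) * e (ν i) := by
    intro i s hs
    simp only [hldef, he]
    rw [(hx s hs).2.2.1]
    simp only [add_apply, smul_apply, sub_apply, smul_eq_mul]
    constructor <;> ring
  have hβ : ∀ i, |e (ν i)| ≤ Cl := by
    intro i
    have a0 := hl i x0
    have a1 := hl i x1
    have b0 := hCl i x0
    have b1 := hCl i x1
    have : e (ν i) = (fderiv ℝ f x1 (ν i) + lam i) - (fderiv ℝ f x0 (ν i) + lam i) := by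
      simp only [he, sub_apply]; ring
    rw [this, abs_le]
    constructor <;> linarith
  have hsum : K * ∑ i, |e (ν i)| ≤ K * (N * Cl) := by
    apply mul_le_mul_of_nonneg_left _ hK
    calc ∑ i, |e (ν i)| ≤ ∑ _i : ι, Cl := Finset.sum_le_sum fun i _ => hβ i
      _ = N * Cl := by rw [Finset.sum_const, Finset.card_univ, nsmul_eq_mul]
  set A : ℝ := K * (N * Cl) + N * (1 + Cl) with hA
  have hA0 : 0 ≤ A := by positivity
  -- a common estimate
  have hest : ∀ r ∈ Ioo (0 : ℝ) 1,
      K * (N * Cl) + N * (1 - Cl * log r) ≤ A * (1 - log r) := by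
    intro r hr
    have h3 : log r ≤ 0 := Real.log_nonpos hr.1.le hr.2.le
    have h4 : 0 ≤ K * (N * Cl) := by positivity
    have h5 : A * (1 - log r) - (K * (N * Cl) + N * (1 - Cl * log r)) =
        N * Cl + (K * (N * Cl) + N) * (-log r) := by rw [hA]; ring
    have h6 : 0 ≤ N * Cl + (K * (N * Cl) + N) * (-log r) := by
      have : 0 ≤ -log r := by linarith
      positivity
    linarith
  have hlow : ∀ s ∈ Ioo (0 : ℝ) 1, -g s ≤ A * (1 - log s) := by
    intro s hs
    have hs' : s ∈ Icc (0 : ℝ) 1 := ⟨hs.1.le, hs.2.le⟩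
    refine le_trans ?_ (hest s hs)
    have h2 := hB (-e) (x s)
    simp only [neg_apply, neg_neg, abs_neg] at h2
    have h3 : -∑ i, max (e (ν i)) 0 * log (l i (x s)) ≤ N * (1 - Cl * log s) := by
      rw [← Finset.sum_neg_distrib]
      calc ∑ i, -(max (e (ν i)) 0 * log (l i (x s))) ≤ ∑ _i : ι, (1 - Cl * log s) := by
            apply Finset.sum_le_sum
            intro i _
            by_cases hb : 0 < e (ν i)
            · rw [max_eq_left hb.le]
              apply neg_mul_log_le hb ((le_abs_self _).trans (hβ i)) hs.1 hs.2.le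
              rw [(hlx i s hs').1]
              have := hl i x0
              simp only [hldef]
              linarith
            · rw [max_eq_right (not_lt.1 hb), zero_mul, neg_zero]
              have := Real.log_nonpos hs.1.le hs.2.le
              nlinarith
        _ = N * (1 - Cl * log s) := by rw [Finset.sum_const, Finset.card_univ, nsmul_eq_mul]
    have h4 : -g s ≤ K * ∑ i, |e (ν i)| - ∑ i, max (e (ν i)) 0 * log (l i (x s)) := by
      simp only [hg]
      linarith
    linarith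
  have hup : ∀ s ∈ Ioo (0 : ℝ) 1, g s ≤ A * (1 - log (1 - s)) := by
    intro s hs
    have hs' : s ∈ Icc (0 : ℝ) 1 := ⟨hs.1.le, hs.2.le⟩
    have hs1 : (1 - s) ∈ Ioo (0 : ℝ) 1 := ⟨by linarith [hs.2], by linarith [hs.1]⟩
    refine le_trans ?_ (hest (1 - s) hs1)
    have h2 := hB e (x s)
    have h3 : -∑ i, max (-(e (ν i))) 0 * log (l i (x s)) ≤ N * (1 - Cl * log (1 - s)) := by
      rw [← Finset.sum_neg_distrib]
      calc ∑ i, -(max (-(e (ν i))) 0 * log (l i (x s))) ≤ ∑ _i : ι, (1 - Cl * log (1 - s)) := by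
            apply Finset.sum_le_sum
            intro i _
            by_cases hb : 0 < -e (ν i)
            · rw [max_eq_left hb.le]
              apply neg_mul_log_le hb ((neg_le_abs _).trans (hβ i)) hs1.1 hs1.2.le
              rw [(hlx i s hs').2]
              have := hl i x1
              simp only [hldef]
              linarith
            · rw [max_eq_right (not_lt.1 hb), zero_mul, neg_zero]
              have := Real.log_nonpos hs1.1.le hs1.2.le
              nlinarith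
        _ = N * (1 - Cl * log (1 - s)) := by rw [Finset.sum_const, Finset.card_univ, nsmul_eq_mul]
    have h4 : g s ≤ K * ∑ i, |e (ν i)| - ∑ i, max (-(e (ν i))) 0 * log (l i (x s)) := by
      simp only [hg]
      linarith
    linarith
  have key := length_bound hA0 hgd hgc hgpos hlow hup
  refine ⟨x, h0, h1, fun s hs => (hx s hs).1, hc, fun s hs => (hx s hs).2.1,
    hgc.congr hee, fun s hs => by rw [hee s hs]; exact hgpos s hs, ?_⟩
  refine le_trans (le_of_eq ?_) key
  apply intervalIntegral.integral_congr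
  intro s hs
  rw [uIcc_of_le zero_le_one] at hs
  simp only [hee s hs]

end Pool.Agent.ToricKRF
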