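import Pool.Agent.Work.MP_a2bf38_gt.Defs

/-!
# The analytic interface of a toric flow

`TFlow` collects what the chart part (Chart, LogDet) proves about a toric flow and what the PDE
part (MaxP, Estim) uses.
-/

open scoped ContDiff ENNReal
open Set

namespace Pool.Agent.ToricKRF

/-- `W_1, …, W_n` is an orthonormal frame for the Hessian of `φ` at `p`. -/
def IsFrame {n : ℕ} (φ : ℝ × (Fin n → ℝ) → ℝ) (p : ℝ × (Fin n → ℝ)) (W : Fin n → Fin n → ℝ) :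
    Prop :=
  ∀ c d, D (0, W c) (D (0, W d) φ) p = if c = d then 1 else 0

/-- The analytic data of a toric flow. -/
structure TFlow (n : ℕ) (ι : Type) [Fintype ι] (T : ℝ) where
  ν : ι → Fin n → ℝ
  φ : ℝ × (Fin n → ℝ) → ℝ
  lam : ι → ℝ → ℝ
  U : Set (ℝ × (Fin n → ℝ))
  isOpen_U : IsOpen U
  sub_U : Ico 0 T ×ˢ univ ⊆ U
  smooth_φ : ContDiffOn ℝ ∞ φ U
  smooth_lam : ∀ i, ContDiffOn ℝ ∞ (fun p : ℝ × (Fin n → ℝ) => lam i p.1) U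
  span_ν : Submodule.span ℝ (range ν) = ⊤
  hess_pos : ∀ t ∈ Ico 0 T, ∀ x : Fin n → ℝ, ∀ w : Fin n → ℝ, w ≠ 0 →
    0 < D (0, w) (D (0, w) φ) (t, x)
  l_pos : ∀ i, ∀ t ∈ Ico 0 T, ∀ x : Fin n → ℝ, 0 < D (0, ν i) φ (t, x) + lam i t
  flow_l : ∀ i, ∀ t ∈ Ioo 0 T, ∀ x : Fin n → ℝ, ∀ W, IsFrame φ (t, x) W →
    D (1, 0) (fun p => D (0, ν i) φ p + lam i p.1) (t, x) =
      ∑ c, D (0, W c) (D (0, W c) (fun p => D (0, ν i) φ p + lam i p.1)) (t, x) - 1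
  flow_F : ∀ i, ∀ t ∈ Ioo 0 T, ∀ x : Fin n → ℝ, ∀ W, IsFrame φ (t, x) W →
    D (1, 0) (D (0, ν i) (D (0, ν i) φ)) (t, x) =
      ∑ c, D (0, W c) (D (0, W c) (D (0, ν i) (D (0, ν i) φ))) (t, x)
        - ∑ c, ∑ d, (D (0, W c) (D (0, W d) (D (0, ν i) φ)) (t, x)) ^ 2
  bounds : ∀ t' ∈ Ico 0 T, ∃ C : ℝ, 0 < C ∧
    (∀ t ∈ Icc 0 t', ∀ x : Fin n → ℝ, ∀ i,
      D (0, ν i) φ (t, x) + lam i t ≤ C ∧
      D (0, ν i) φ (0, x) + lam i 0 ≤ C * (D (0, ν i) φ (t, x) + lam i t) ∧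
      D (0, ν i) (D (0, ν i) φ) (t, x) - (D (0, ν i) φ (t, x) + lam i t) ≤
        C * (D (0, ν i) φ (t, x) + lam i t) ^ 2) ∧
    (∀ t ∈ Icc 0 t', ∀ x w : Fin n → ℝ,
      D (0, w) (D (0, w) φ) (0, x) ≤ C * D (0, w) (D (0, w) φ) (t, x)) ∧
    (∀ t ∈ Icc 0 t', ∀ x : Fin n → ℝ, ∀ e : (Fin n → ℝ) →L[ℝ] ℝ,
      e x + ∑ i, max (-e (ν i)) 0 * Real.log (D (0, ν i) φ (t, x) + lam i t) ≤
        C * ∑ i, |e (ν i)|)

namespace TFlow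

variable {n : ℕ} {ι : Type} [Fintype ι] {T : ℝ} (d : TFlow n ι T)

/-- The affine function `l_i = ⟨ν_i, ∇φ⟩ + λ_i`. -/
noncomputable def l (i : ι) : ℝ × (Fin n → ℝ) → ℝ := fun p => D (0, d.ν i) d.φ p + d.lam i p.1

/-- The squared norm `F_i = φ_{ν_i ν_i}` of the `i`-th rotation field. -/
noncomputable def F (i : ι) : ℝ × (Fin n → ℝ) → ℝ := D (0, d.ν i) (D (0, d.ν i) d.φ)

end TFlow

/-- The estimates at a time `t` that imply the diameter bound. -/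
structure GoodAt {n : ℕ} {ι : Type} [Fintype ι] (ν : ι → Fin n → ℝ) (C : ℝ)
    (φ : ℝ × (Fin n → ℝ) → ℝ) (lam : ι → ℝ) (t : ℝ) : Prop where
  l_pos : ∀ i, ∀ x : Fin n → ℝ, 0 < D (0, ν i) φ (t, x) + lam i
  l_le : ∀ i, ∀ x : Fin n → ℝ, D (0, ν i) φ (t, x) + lam i ≤ C
  F_le : ∀ i, ∀ x : Fin n → ℝ, D (0, ν i) (D (0, ν i) φ) (t, x) ≤ C
  B_le : ∀ x : Fin n → ℝ, ∀ e : (Fin n → ℝ) →L[ℝ] ℝ,
      e x + ∑ i, max (-e (ν i)) 0 * Real.log (D (0, ν i) φ (t, x) + lam i) ≤ C * ∑ i, |e (ν i)|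

end Pool.Agent.ToricKRF
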